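import Pool.Agent.H10.PerSL.Basic
import Pool.Agent.H53.AC.Defs

/-! From straight-line programs over `k(ε)` to the nonscalar model over an extension `L` of
`K[[t]]`, after substituting affine forms for the variables and `t ^ e` for `ε`. -/

namespace Pool.Agent.H10.PerSL

open MvPolynomial Finset
open Pool.Agent.H53.AC

universe u v w w'

/-- Straight-line programs give computations in the nonscalar model. -/
theorem reach_of_slp {k : Type u} [Field k] {L : Type w} [Field L] {σ : Type w'} {τ : Type v}
    (χ : MvPolynomial σ k →+* MvPolynomial τ L) (hX : ∀ i, χ (X i) ∈ affine L τ)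
    (hC : ∀ c : k, ∃ c' : L, χ (C c) = C c') {l : List (MvPolynomial σ k)}
    (hl : IsSLP k (Set.range (X : σ → MvPolynomial σ k)) l) :
    ∃ r V, r ≤ l.length ∧ Reach r V ∧ ∀ x ∈ l, χ x ∈ V := by
  induction hl with
  | nil => exact ⟨0, _, le_rfl, Reach.zero, by simp⟩
  | @cons l a b g hl ha hb hg ih =>
    obtain ⟨r, V, hr, hV, hmem⟩ := ih
    have key : ∀ y, Avail k (Set.range (X : σ → MvPolynomial σ k)) l y → χ y ∈ V := by
      rintro y (⟨i, rfl⟩ | ⟨c, rfl⟩ | hy)
      · exact hV.affine_le (hX i)
      · obtain ⟨c', hc'⟩ := hC c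
        rw [MvPolynomial.algebraMap_eq, hc']
        exact hV.C_mem c'
      · exact hmem y hy
    have ha' := key a ha
    have hb' := key b hb
    rcases hg with rfl | rfl | rfl
    · refine ⟨r, V, hr.trans (by simp), hV, ?_⟩
      intro x hx
      rcases List.mem_cons.1 hx with rfl | hx
      · rw [map_add]; exact Submodule.add_mem _ ha' hb'
      · exact hmem x hx
    · refine ⟨r, V, hr.trans (by simp), hV, ?_⟩
      intro x hx
      rcases List.mem_cons.1 hx with rfl | hx
      · rw [map_sub]; exact Submodule.sub_mem _ ha' hb'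
      · exact hmem x hx
    · refine ⟨r + 1, V ⊔ Submodule.span L {χ a * χ b}, by simpa using hr,
        Reach.step hV ha' hb', ?_⟩
      intro x hx
      rcases List.mem_cons.1 hx with rfl | hx
      · rw [map_mul]
        exact le_sup_right (a := V) (Submodule.mem_span_singleton_self _)
      · exact le_sup_left (a := V) (hmem x hx)

section pw

variable {k : Type u} [Field k] {K : Type u} [Field K] [Algebra k K]

/-- Substitution of `t ^ e` for the variable of a polynomial. -/
noncomputable def pw (K : Type u) [Field K] [Algebra k K] (e : ℕ) :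
    Polynomial k →+* PowerSeries K :=
  (Polynomial.coeToPowerSeries.ringHom (R := K)).comp
    (((Polynomial.expand K e) : Polynomial K →+* Polynomial K).comp
      (Polynomial.mapRingHom (algebraMap k K)))

theorem pw_injective {e : ℕ} (he : 0 < e) : Function.Injective (pw (k := k) K e) := by
  intro P Q h
  simp only [pw, RingHom.comp_apply, Polynomial.coeToPowerSeries.ringHom_apply] at h
  have h1 := Polynomial.coe_injective K h
  have h2 := Polynomial.expand_injective he h1
  exact Polynomial.map_injective _ (algebraMap k K).injective h2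

theorem pw_C (e : ℕ) (a : k) : pw K e (Polynomial.C a) = PowerSeries.C (algebraMap k K a) := by
  simp [pw]

theorem pw_X (e : ℕ) : pw (k := k) K e Polynomial.X = PowerSeries.X ^ e := by
  simp [pw]

theorem pw_eq (e : ℕ) (P : Polynomial k) : ∃ b : PowerSeries K,
    pw K e P = PowerSeries.C (algebraMap k K (P.eval 0)) + PowerSeries.X ^ e * b := by
  refine ⟨pw K e P.divX, ?_⟩
  conv_lhs => rw [← Polynomial.divX_mul_X_add P]
  rw [map_add, map_mul, pw_C, pw_X, Polynomial.coeff_zero_eq_eval_zero]
  ring

variable {L : Type u} [Field L] [Algebra (PowerSeries K) L]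

theorem exists_psi (hinj : Function.Injective (algebraMap (PowerSeries K) L)) {e : ℕ}
    (he : 0 < e) : ∃ ψ : RatFunc k →+* L, ∀ (c : RatFunc k) (a : k), SpecializesTo c a →
      ∃ b : PowerSeries K, ψ c = algebraMap (PowerSeries K) L
        (PowerSeries.C (algebraMap k K a) + PowerSeries.X ^ e * b) := by
  have hφ : (nonZeroDivisors (Polynomial k)) ≤
      (nonZeroDivisors L).comap ((algebraMap (PowerSeries K) L).comp (pw K e)) := by
    intro P hP
    rw [Submonoid.mem_comap, mem_nonZeroDivisors_iff_ne_zero]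
    rw [mem_nonZeroDivisors_iff_ne_zero] at hP
    intro h
    apply hP
    apply pw_injective (K := K) he
    apply hinj
    simpa using h
  refine ⟨RatFunc.liftRingHom _ hφ, ?_⟩
  rintro c a ⟨P, Q, hQ, rfl, rfl⟩
  have hQ' : PowerSeries.constantCoeff (pw K e Q) ≠ 0 := by
    obtain ⟨b, hb⟩ := pw_eq (K := K) e Q
    rw [hb]
    simpa [he.ne'] using hQ
  obtain ⟨b, hb⟩ := pw_eq (K := K) e (P - Polynomial.C (P.eval 0 / Q.eval 0) * Q)
  have h0 : (P - Polynomial.C (P.eval 0 / Q.eval 0) * Q).eval 0 = 0 := by
    simp [div_mul_cancel₀ _ hQ]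
  rw [h0, map_zero, map_zero, zero_add, map_sub, map_mul, pw_C] at hb
  refine ⟨b * (pw K e Q)⁻¹, ?_⟩
  rw [RatFunc.liftRingHom_apply_div]
  have hQ'' : ((algebraMap (PowerSeries K) L).comp (pw K e)) Q ≠ 0 := by
    rw [RingHom.comp_apply, Ne, map_eq_zero_iff _ hinj]
    intro h
    rw [h] at hQ'
    simp at hQ'
  rw [div_eq_iff hQ'', RingHom.comp_apply, RingHom.comp_apply, ← map_mul]
  congr 1
  rw [add_mul, mul_assoc, mul_assoc, PowerSeries.inv_mul_cancel _ hQ', mul_one, ← hb]
  ring

end pw

/-- From straight-line programs over `k(ε)` to the nonscalar model over `K((t))`, after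
substituting affine forms for the variables and `t ^ e` for `ε`. -/
theorem border_subst {k : Type u} [Field k] {K : Type u} [Field K] [Algebra k K]
    {L : Type u} [Field L] [Algebra (PowerSeries K) L]
    (hinj : Function.Injective (algebraMap (PowerSeries K) L))
    {σ : Type w} {τ : Type v} {f : MvPolynomial σ k} {r : ℕ} (hf : BorderComplexityLE f r)
    {e : ℕ} (he : 0 < e) (E : σ → MvPolynomial τ (PowerSeries K))
    (hE : ∀ i, map (algebraMap (PowerSeries K) L) (E i) ∈ affine L τ) :
    ∃ (r' : ℕ) (V : Submodule L (MvPolynomial τ L)) (G : MvPolynomial τ (PowerSeries K)),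
      r' ≤ r ∧ Reach r' V ∧
      map (algebraMap (PowerSeries K) L)
        (eval₂ ((C : PowerSeries K →+* _).comp
          ((PowerSeries.C (R := K)).comp (algebraMap k K))) E f +
          C (PowerSeries.X ^ e) * G) ∈ V := by
  classical
  obtain ⟨F, hF, l, hl, hlr, hav⟩ := hf
  obtain ⟨ψ, hψ⟩ := exists_psi (k := k) hinj he
  choose b hb using fun m => hψ _ _ (hF m)
  let ι := algebraMap (PowerSeries K) L
  let χ : MvPolynomial σ (RatFunc k) →+* MvPolynomial τ L :=
    eval₂Hom ((C : L →+* MvPolynomial τ L).comp ψ) (fun i => map ι (E i))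
  have hX : ∀ i, χ (X i) ∈ affine L τ := fun i => by simpa [χ] using hE i
  have hC : ∀ c : RatFunc k, ∃ c' : L, χ (C c) = C c' := fun c => ⟨ψ c, by simp [χ]⟩
  obtain ⟨r', V, hr', hV, hmem⟩ := reach_of_slp χ hX hC hl
  have hFV : χ F ∈ V := by
    rcases hav with ⟨i, hi⟩ | ⟨c, hc⟩ | h
    · rw [← hi]; exact hV.affine_le (hX i)
    · obtain ⟨c', hc'⟩ := hC c
      rw [hc, MvPolynomial.algebraMap_eq, hc']
      exact hV.C_mem c'
    · exact hmem F h
  let s := F.support ∪ f.support
  let mon : (σ →₀ ℕ) → MvPolynomial τ (PowerSeries K) := fun m => ∏ i ∈ m.support, E i ^ m i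
  refine ⟨r', V, ∑ m ∈ s, C (b m) * mon m, hr'.trans hlr, hV, ?_⟩
  have h1 : χ F = ∑ m ∈ s, C (ψ (coeff m F)) * map ι (mon m) := by
    simp only [χ, coe_eval₂Hom]
    rw [eval₂_eq]
    refine (Finset.sum_subset (s₂ := s) (Finset.subset_union_left) ?_).trans ?_
    · intro m _ hm
      rw [MvPolynomial.notMem_support_iff.1 hm]
      simp
    · refine Finset.sum_congr rfl fun m _ => ?_
      simp only [mon, map_prod, map_pow, RingHom.comp_apply]
  have h2 : eval₂ ((C : PowerSeries K →+* _).comp
          ((PowerSeries.C (R := K)).comp (algebraMap k K))) E f =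
      ∑ m ∈ s, C (PowerSeries.C (algebraMap k K (coeff m f))) * mon m := by
    rw [eval₂_eq]
    refine (Finset.sum_subset (s₂ := s) (Finset.subset_union_right) ?_).trans ?_
    · intro m _ hm
      rw [MvPolynomial.notMem_support_iff.1 hm]
      simp
    · refine Finset.sum_congr rfl fun m _ => ?_
      simp only [mon, RingHom.comp_apply]
  rw [h2]
  convert hFV using 1
  rw [h1, map_add, map_mul, map_sum, map_sum, Finset.mul_sum, ← Finset.sum_add_distrib]
  refine Finset.sum_congr rfl fun m _ => ?_
  rw [hb m]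
  simp only [map_mul, map_C, map_add, ι]
  ring

end Pool.Agent.H10.PerSL
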