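import Mathlib

/-!
# M11. The choice of parameters
-/

namespace Pool.Agent.H10.PerSL

open Finset
open scoped Nat

/-- `log m! ≥ m log m - m`. -/
theorem log_fact_lb {m : ℕ} (hm : 0 < m) :
    (m : ℝ) * Real.log m - m ≤ Real.log (m ! : ℝ) := by
  have hm' : (0 : ℝ) < m := by exact_mod_cast hm
  have h := Real.pow_div_factorial_le_exp (x := (m : ℝ)) hm'.le m
  have hf : (0 : ℝ) < (m ! : ℝ) := by exact_mod_cast Nat.factorial_pos m
  have h2 := Real.log_le_log (by positivity) h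
  rw [Real.log_div (by positivity) hf.ne', Real.log_pow, Real.log_exp] at h2
  linarith

/-- `log m! ≤ m log m`. -/
theorem log_fact_ub (m : ℕ) : Real.log (m ! : ℝ) ≤ (m : ℝ) * Real.log m := by
  have hf : (0 : ℝ) < (m ! : ℝ) := by exact_mod_cast Nat.factorial_pos m
  have h : (m ! : ℝ) ≤ (m : ℝ) ^ m := by exact_mod_cast Nat.factorial_le_pow m
  have h2 := Real.log_le_log hf h
  rwa [Real.log_pow] at h2

/-- The logarithm of the count. -/
theorem log_cnt_lb {ν D cnt : ℕ} (hν : 0 < ν) (hD : 0 < D)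
    (h : (ν * D)! ≤ cnt * (ν !) ^ D) :
    ((ν * D : ℕ) : ℝ) * (Real.log D - 1) ≤ Real.log cnt ∧ 0 < cnt := by
  have hM : 0 < ν * D := Nat.mul_pos hν hD
  have hcnt : 0 < cnt := by
    rcases Nat.eq_zero_or_pos cnt with h0 | h0
    · rw [h0, zero_mul] at h
      exact absurd h (Nat.not_le.2 (Nat.factorial_pos _))
    · exact h0
  refine ⟨?_, hcnt⟩
  have hν' : (0 : ℝ) < ν := by exact_mod_cast hν
  have hD' : (0 : ℝ) < D := by exact_mod_cast hD
  have hc' : (0 : ℝ) < cnt := by exact_mod_cast hcnt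
  have hνf : (0 : ℝ) < (ν ! : ℝ) := by exact_mod_cast Nat.factorial_pos ν
  have h1 : (((ν * D)! : ℕ) : ℝ) ≤ (cnt : ℝ) * (ν ! : ℝ) ^ D := by exact_mod_cast h
  have h2 := Real.log_le_log (by exact_mod_cast Nat.factorial_pos _) h1
  rw [Real.log_mul hc'.ne' (by positivity), Real.log_pow] at h2
  have h3 := log_fact_lb hM
  have h4 := log_fact_ub ν
  have h5 : Real.log ((ν * D : ℕ) : ℝ) = Real.log ν + Real.log D := by
    rw [Nat.cast_mul, Real.log_mul hν'.ne' hD'.ne']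
  have h6 : (D : ℝ) * Real.log (ν ! : ℝ) ≤ (D : ℝ) * ((ν : ℝ) * Real.log ν) :=
    mul_le_mul_of_nonneg_left h4 hD'.le
  rw [h5] at h3
  push_cast at h3 ⊢
  nlinarith [h2, h3, h6]

/-- The numerical heart of M11. -/
theorem asym_core {n : ℕ} (hn : 0 < n) (hL : 20 ≤ Real.log (Real.log n))
    (hs : Real.log (Real.log n) ≤ Real.sqrt (Real.log n) / 8) :
    ∃ d g : ℕ, 0 < d ∧
    ∀ bad : Finset ℕ, bad.card ≤ 2 * d * (d !) ^ 2 → ∃ ν, ν ∉ bad ∧ 0 < ν ∧
      g * (2 * d) + ν * (d !) ^ 2 ≤ n ∧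
      ∀ r cnt : ℕ, (ν * (d !) ^ 2)! ≤ cnt * (ν !) ^ ((d !) ^ 2) → cnt ^ g ≤ 2 ^ (3 * r) →
        (n : ℝ) ^ 2 * Real.log (Real.log n) / 50 ≤ r := by
  have hn' : (0 : ℝ) < n := by exact_mod_cast hn
  set L := Real.log n with hLdef
  set LL := Real.log L with hLLdef
  have hsq160 : 160 ≤ Real.sqrt L := by linarith
  have hL0 : 0 ≤ L := by
    by_contra hneg
    rw [Real.sqrt_eq_zero_of_nonpos (le_of_not_ge hneg)] at hsq160
    linarith
  have hLsq : Real.sqrt L * Real.sqrt L = L := Real.mul_self_sqrt hL0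
  have hsqpos : 0 < Real.sqrt L := by linarith
  have hLpos : 0 < L := by nlinarith
  set d := ⌊Real.sqrt L⌋₊ with hd
  have hd1 : (d : ℝ) ≤ Real.sqrt L := Nat.floor_le hsqpos.le
  have hd2 : Real.sqrt L < d + 1 := Nat.lt_floor_add_one _
  have hdR : (159 : ℝ) < d := by linarith
  have hd0' : (0 : ℝ) < d := by linarith
  have hd0 : 0 < d := by exact_mod_cast hd0'
  have hdN : 159 < d := by exact_mod_cast hdR
  have hlogsq : Real.log (Real.sqrt L) = LL / 2 := by
    rw [Real.log_sqrt hL0]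
  have hlogd_ub : Real.log d ≤ LL / 2 := by
    rw [← hlogsq]; exact Real.log_le_log hd0' hd1
  have hlogd_lb : LL / 2 - Real.log 2 ≤ Real.log d := by
    rw [← hlogsq, ← Real.log_div hsqpos.ne' two_ne_zero]
    exact Real.log_le_log (by positivity) (by linarith)
  set D := (d !) ^ 2 with hDdef
  have hfpos : 0 < d ! := Nat.factorial_pos d
  have hD0 : 0 < D := by positivity
  have hD0' : (0 : ℝ) < D := by exact_mod_cast hD0
  have hlogD : Real.log (D : ℝ) = 2 * Real.log (d ! : ℝ) := by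
    rw [hDdef, Nat.cast_pow, Real.log_pow]; norm_num
  have hlogD_lb : 2 * (d * Real.log d - d) ≤ Real.log (D : ℝ) := by
    rw [hlogD]
    have := log_fact_lb hd0
    linarith
  have hlogD_ub : Real.log (D : ℝ) ≤ 2 * (d * Real.log d) := by
    rw [hlogD]
    have := log_fact_ub d
    linarith
  have hlog12 : Real.log 12 ≤ 3 := by
    have h1 : Real.log 12 ≤ Real.log 16 := Real.log_le_log (by norm_num) (by norm_num)
    have h2 : Real.log 16 = 4 * Real.log 2 := by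
      rw [show (16 : ℝ) = 2 ^ 4 by norm_num, Real.log_pow]; norm_num
    have := Real.log_two_lt_d9
    linarith
  -- the size condition
  have hsizeR : (12 : ℝ) * d * (D : ℝ) ^ 2 ≤ n := by
    rw [← Real.log_le_log_iff (by positivity) hn', Real.log_mul (by positivity) (by positivity),
      Real.log_mul (by norm_num) hd0'.ne', Real.log_pow]
    have h1 : (d : ℝ) * Real.log d ≤ Real.sqrt L * (LL / 2) := by
      refine mul_le_mul hd1 hlogd_ub (Real.log_nonneg (by linarith)) hsqpos.le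
    have h2 : Real.sqrt L * (LL / 2) ≤ Real.sqrt L * (Real.sqrt L / 16) :=
      mul_le_mul_of_nonneg_left (by linarith) hsqpos.le
    have h3 : Real.sqrt L * (Real.sqrt L / 16) = L / 16 := by
      rw [mul_div_assoc', hLsq]
    have h4 : Real.log d ≤ Real.sqrt L / 16 := by linarith
    have h5 : Real.sqrt L ≤ L / 160 := by nlinarith
    push_cast
    nlinarith
  have hsize : 12 * d * D ^ 2 ≤ n := by exact_mod_cast hsizeR
  have hsize2 : 4 * D + 8 * d * D ^ 2 ≤ n := by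
    have : D ≤ d * D ^ 2 := by
      calc D = 1 * D ^ 1 := by ring
        _ ≤ d * D ^ 2 := Nat.mul_le_mul hd0 (Nat.pow_le_pow_right hD0 (by norm_num))
    nlinarith
  have hD4 : 40 ≤ D := by
    have : d ≤ d ! := Nat.self_le_factorial d
    nlinarith
  have hn40 : (40 : ℝ) * d ≤ n := by
    have : 40 * d ≤ 12 * d * D ^ 2 := by
      have h3 : 40 ≤ D ^ 2 := hD4.trans (Nat.le_self_pow two_ne_zero D)
      calc 40 * d ≤ 12 * d * 40 := by linarith
        _ ≤ 12 * d * D ^ 2 := Nat.mul_le_mul_left _ h3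
    have h2 : 40 * d ≤ n := this.trans hsize
    exact_mod_cast h2
  refine ⟨d, n / (4 * d), hd0, fun bad hbad => ?_⟩
  set g := n / (4 * d) with hg
  have hg1 : g * (4 * d) ≤ n := Nat.div_mul_le_self _ _
  have hg2 : n < (g + 1) * (4 * d) := by
    have := Nat.lt_mul_div_succ n (show 0 < 4 * d by omega)
    rw [mul_comm]; exact this
  set a := n / (4 * D) + 1 with ha
  have hcard : bad.card < (Finset.Icc a (a + 2 * d * D)).card := by
    rw [Nat.card_Icc]
    have hbad' : bad.card ≤ 2 * d * D := hbad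
    have : a + 2 * d * D + 1 - a = 2 * d * D + 1 := by
      rw [add_assoc, Nat.add_sub_cancel_left]
    rw [this]
    exact Nat.lt_succ_of_le hbad'
  obtain ⟨ν, hν1, hν2⟩ := Finset.exists_mem_notMem_of_card_lt_card hcard
  have hν1' := Finset.mem_Icc.1 hν1
  have ha1 : (n / (4 * D)) * (4 * D) ≤ n := Nat.div_mul_le_self _ _
  have ha2 : n < a * (4 * D) := by
    have := Nat.lt_mul_div_succ n (show 0 < 4 * D by omega)
    rw [ha, mul_comm]; exact this
  have ha0 : 0 < a := by rw [ha]; exact Nat.succ_pos _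
  have hν0 : 0 < ν := lt_of_lt_of_le ha0 hν1'.1
  have hMub : 4 * (ν * D) ≤ 2 * n := by
    have h1 : ν * (4 * D) ≤ (a + 2 * d * D) * (4 * D) := Nat.mul_le_mul_right _ hν1'.2
    have h2 : (a + 2 * d * D) * (4 * D) = (n / (4 * D)) * (4 * D) + 4 * D + 8 * d * D ^ 2 := by
      rw [ha]; ring
    have h3 : ν * (4 * D) = 4 * (ν * D) := by ring
    omega
  have hMlb : n ≤ 4 * (ν * D) := by
    have h1 : a * (4 * D) ≤ ν * (4 * D) := Nat.mul_le_mul_right _ hν1'.1
    nlinarith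
  refine ⟨ν, hν2, hν0, by nlinarith, fun r cnt hcnt hr => ?_⟩
  obtain ⟨hc1, hc0⟩ := log_cnt_lb hν0 hD0 hcnt
  have hc0' : (0 : ℝ) < cnt := by exact_mod_cast hc0
  have hr' : (g : ℝ) * Real.log cnt ≤ 3 * r * Real.log 2 := by
    have h1 : (cnt : ℝ) ^ g ≤ 2 ^ (3 * r) := by exact_mod_cast hr
    have h2 := Real.log_le_log (by positivity) h1
    rw [Real.log_pow, Real.log_pow] at h2
    push_cast at h2
    exact h2
  -- lower bounds
  have hgR : (9 / 10 : ℝ) * (n / (4 * d)) ≤ g := by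
    have h1 : (n : ℝ) < (g + 1) * (4 * d) := by exact_mod_cast hg2
    have h2 : (n : ℝ) / (4 * d) < g + 1 := by
      rw [div_lt_iff₀ (by positivity)]; exact h1
    have h3 : (10 : ℝ) ≤ n / (4 * d) := by
      rw [le_div_iff₀ (by positivity)]; linarith
    linarith
  have hMR : (n : ℝ) / 4 ≤ ((ν * D : ℕ) : ℝ) := by
    have h1 : (n : ℝ) ≤ 4 * ((ν * D : ℕ) : ℝ) := by exact_mod_cast hMlb
    linarith
  have hlog2 := Real.log_two_lt_d9
  have hlog2' := Real.log_two_gt_d9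
  have hx : 2 * d * (LL / 2 - 22 / 10) ≤ Real.log (D : ℝ) - 1 := by
    have h1 : (d : ℝ) * (LL / 2 - Real.log 2) ≤ d * Real.log d :=
      mul_le_mul_of_nonneg_left hlogd_lb hd0'.le
    nlinarith
  have hx0 : 0 ≤ LL / 2 - 22 / 10 := by linarith
  have hchain : (9 / 10 : ℝ) * (n / (4 * d)) * ((n : ℝ) / 4 * (2 * d * (LL / 2 - 22 / 10))) ≤
      g * Real.log cnt := by
    refine mul_le_mul hgR ?_ (by positivity) (by positivity)
    refine le_trans ?_ hc1
    exact mul_le_mul hMR hx (by positivity) (by positivity)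
  have hid : (9 / 10 : ℝ) * (n / (4 * d)) * ((n : ℝ) / 4 * (2 * d * (LL / 2 - 22 / 10))) =
      9 / 80 * (n : ℝ) ^ 2 * (LL / 2 - 22 / 10) := by
    field_simp
    ring
  rw [hid] at hchain
  have hfin : 9 / 80 * (n : ℝ) ^ 2 * (LL / 2 - 22 / 10) ≤ 3 * r * Real.log 2 :=
    hchain.trans hr'
  have hr0 : (0 : ℝ) ≤ r := Nat.cast_nonneg r
  have h7 : 3 * (r : ℝ) * Real.log 2 ≤ 2.0794416 * r := by nlinarith
  have h8 : (n : ℝ) ^ 2 * (LL * 0.0415889) ≤ (n : ℝ) ^ 2 * (9 / 80 * (LL / 2 - 22 / 10)) := by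
    apply mul_le_mul_of_nonneg_left _ (by positivity)
    linarith
  nlinarith

/-- M11. The choice of parameters. -/
theorem asym : ∃ n₀ : ℕ, ∀ n ≥ n₀, ∃ d g : ℕ, 0 < d ∧
    ∀ bad : Finset ℕ, bad.card ≤ 2 * d * (d !) ^ 2 → ∃ ν, ν ∉ bad ∧ 0 < ν ∧
      g * (2 * d) + ν * (d !) ^ 2 ≤ n ∧
      ∀ r cnt : ℕ, (ν * (d !) ^ 2)! ≤ cnt * (ν !) ^ ((d !) ^ 2) → cnt ^ g ≤ 2 ^ (3 * r) →
        (n : ℝ) ^ 2 * Real.log (Real.log n) / 50 ≤ r := by
  have h1 : Filter.Tendsto (fun n : ℕ => Real.log (n : ℝ)) Filter.atTop Filter.atTop :=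
    Real.tendsto_log_atTop.comp tendsto_natCast_atTop_atTop
  have h2 : ∀ᶠ x : ℝ in Filter.atTop, Real.log x ≤ Real.sqrt x / 8 := by
    have := (isLittleO_log_rpow_atTop (r := 1 / 2) (by norm_num)).bound
      (show (0 : ℝ) < 1 / 8 by norm_num)
    filter_upwards [this, Filter.eventually_ge_atTop 0] with x hx hx0
    rw [Real.norm_eq_abs, Real.norm_eq_abs, ← Real.sqrt_eq_rpow,
      abs_of_nonneg (Real.sqrt_nonneg x)] at hx
    have := le_abs_self (Real.log x)
    linarith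
  have h3 : ∀ᶠ x : ℝ in Filter.atTop, 20 ≤ Real.log x :=
    Real.tendsto_log_atTop.eventually_ge_atTop 20
  obtain ⟨n₀, hn₀⟩ := Filter.eventually_atTop.1
    ((h1.eventually (h2.and h3)).and (Filter.eventually_gt_atTop 0))
  refine ⟨n₀, fun n hn => ?_⟩
  obtain ⟨⟨ha, hb⟩, hc⟩ := hn₀ n hn
  exact asym_core hc hb ha

end Pool.Agent.H10.PerSL
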