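import Mathlib
import Pool.Agent.H10.PerSL.Asym

/-!
# M11, sharp form. The choice of parameters with the constant `1/12 - o(1)`
-/

namespace Pool.Agent.H10.PerSL

open Finset
open scoped Nat

/-- The numerical heart of the sharp M11. -/
theorem asym_sharp_core {n : ℕ} (hn : 0 < n) (c δ : ℝ) (hδ0 : 0 < δ) (hδ1 : δ < 1)
    (hL1 : 1 ≤ Real.log n)
    (hP2 : 2 ≤ Real.log n ^ (1 - δ))
    (hn4 : 4 * Real.log n ≤ δ * n)
    (hsz : Real.log (6 / δ) + Real.log (Real.log n) +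
      4 * (Real.log n ^ (1 - δ) * Real.log (Real.log n)) ≤ Real.log n)
    (hLL : 3 ≤ (1 - δ) * Real.log (Real.log n))
    (hc : c * (Real.log (Real.log n) - Real.log (Real.log 2)) ≤
      (1 - δ) ^ 2 * ((1 - δ) * Real.log (Real.log n) - 3) / 12) :
    ∃ d g : ℕ, 0 < d ∧
    ∀ bad : Finset ℕ, bad.card ≤ 2 * d * (d !) ^ 2 → ∃ ν, ν ∉ bad ∧ 0 < ν ∧
      g * (2 * d) + ν * (d !) ^ 2 ≤ n ∧
      ∀ r cnt : ℕ, (ν * (d !) ^ 2)! ≤ cnt * (ν !) ^ ((d !) ^ 2) → cnt ^ g ≤ 2 ^ (3 * r) →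
        c * (n : ℝ) ^ 2 * Real.logb 2 (Real.logb 2 n) ≤ r := by
  have hn' : (0 : ℝ) < n := by exact_mod_cast hn
  set L := Real.log n with hLdef
  set LL := Real.log L with hLLdef
  have hLpos : 0 < L := by linarith
  have hLL0 : 0 ≤ LL := Real.log_nonneg hL1
  set P := L ^ (1 - δ) with hP
  have hPpos : 0 < P := by linarith
  have hPL : P ≤ L := by
    calc P = L ^ (1 - δ) := rfl
      _ ≤ L ^ (1 : ℝ) := Real.rpow_le_rpow_of_exponent_le hL1 (by linarith)
      _ = L := Real.rpow_one L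
  have hlogP : Real.log P = (1 - δ) * LL := Real.log_rpow hLpos _
  set d := ⌊P⌋₊ with hd
  have hd1 : (d : ℝ) ≤ P := Nat.floor_le hPpos.le
  have hd2 : P < d + 1 := Nat.lt_floor_add_one _
  have hdR : (1 : ℝ) < d := by linarith
  have hd0' : (0 : ℝ) < d := by linarith
  have hd0 : 0 < d := by exact_mod_cast hd0'
  have hlogd_ub : Real.log d ≤ LL := by
    exact Real.log_le_log hd0' (hd1.trans hPL)
  have hlogd_lb : (1 - δ) * LL - Real.log 2 ≤ Real.log d := by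
    rw [← hlogP, ← Real.log_div hPpos.ne' two_ne_zero]
    exact Real.log_le_log (by positivity) (by linarith)
  set D := (d !) ^ 2 with hDdef
  have hfpos : 0 < d ! := Nat.factorial_pos d
  have hD0 : 0 < D := by positivity
  have hD0' : (0 : ℝ) < D := by exact_mod_cast hD0
  have hD1' : (1 : ℝ) ≤ D := by exact_mod_cast hD0
  have hlogD : Real.log (D : ℝ) = 2 * Real.log (d ! : ℝ) := by
    rw [hDdef, Nat.cast_pow, Real.log_pow]; norm_num
  have hlogD_lb : 2 * (d * Real.log d - d) ≤ Real.log (D : ℝ) := by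
    rw [hlogD]
    have := log_fact_lb hd0
    linarith
  have hlogD_ub : Real.log (D : ℝ) ≤ 2 * (d * Real.log d) := by
    rw [hlogD]
    have := log_fact_ub d
    linarith
  -- the size condition
  have hsizeR : (6 : ℝ) * d * (D : ℝ) ^ 2 ≤ δ * n := by
    have hkey : (6 / δ) * d * (D : ℝ) ^ 2 ≤ n := by
      rw [← Real.log_le_log_iff (by positivity) hn', Real.log_mul (by positivity) (by positivity),
        Real.log_mul (by positivity) hd0'.ne', Real.log_pow]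
      have h1 : (d : ℝ) * Real.log d ≤ P * LL :=
        mul_le_mul hd1 hlogd_ub (Real.log_nonneg hdR.le) hPpos.le
      push_cast
      nlinarith
    have : (6 : ℝ) * d * (D : ℝ) ^ 2 = δ * ((6 / δ) * d * (D : ℝ) ^ 2) := by
      field_simp
    rw [this]
    exact mul_le_mul_of_nonneg_left hkey hδ0.le
  have hdD : (1 : ℝ) ≤ d * D := by nlinarith
  have hDdD : (D : ℝ) ≤ d * (D : ℝ) ^ 2 := by nlinarith
  refine ⟨d, n / (4 * d), hd0, fun bad hbad => ?_⟩
  set g := n / (4 * d) with hg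
  have hg1 : g * (4 * d) ≤ n := Nat.div_mul_le_self _ _
  have hg2 : n < (g + 1) * (4 * d) := by
    have := Nat.lt_mul_div_succ n (show 0 < 4 * d by omega)
    rw [mul_comm]; exact this
  set a := n / (2 * D) with ha
  have ha1 : a * (2 * D) ≤ n := Nat.div_mul_le_self _ _
  have ha2 : n < (a + 1) * (2 * D) := by
    have := Nat.lt_mul_div_succ n (show 0 < 2 * D by omega)
    rw [mul_comm]; exact this
  have ha2R : (n : ℝ) < (a + 1) * (2 * D) := by exact_mod_cast ha2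
  have ha3 : 2 * d * D < a := by
    have h1 : (2 * d * D : ℝ) < a := by
      by_contra hcon
      have hcon' : (a : ℝ) ≤ 2 * d * D := not_lt.1 hcon
      have h2 : (n : ℝ) < (2 * d * D + 1) * (2 * D) :=
        lt_of_lt_of_le ha2R (mul_le_mul_of_nonneg_right (by linarith) (by positivity))
      have h3 : (2 * (d : ℝ) * D + 1) * (2 * D) ≤ 6 * d * (D : ℝ) ^ 2 := by nlinarith
      have h4 : δ * (n : ℝ) ≤ n := by nlinarith
      linarith
    exact_mod_cast h1
  have hcard : bad.card < (Finset.Icc (a - 2 * d * D) a).card := by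
    rw [Nat.card_Icc]
    have hbad' : bad.card ≤ 2 * d * D := hbad
    omega
  obtain ⟨ν, hν1, hν2⟩ := Finset.exists_mem_notMem_of_card_lt_card hcard
  have hν1' := Finset.mem_Icc.1 hν1
  have hν0 : 0 < ν := by omega
  have hMub : 2 * (ν * D) ≤ n := by
    have h1 : ν * (2 * D) ≤ a * (2 * D) := Nat.mul_le_mul_right _ hν1'.2
    have h3 : ν * (2 * D) = 2 * (ν * D) := by ring
    omega
  have hνR : (a : ℝ) - 2 * d * D ≤ ν := by
    have h1 : a ≤ ν + 2 * d * D := by omega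
    have h2 : (a : ℝ) ≤ ν + 2 * d * D := by exact_mod_cast h1
    linarith
  have hMR : (1 - δ) * ((n : ℝ) / 2) ≤ ((ν * D : ℕ) : ℝ) := by
    push_cast
    have h1 : ((a : ℝ) - 2 * d * D) * D ≤ ν * D := mul_le_mul_of_nonneg_right hνR hD0'.le
    nlinarith
  refine ⟨ν, hν2, hν0, ?_, fun r cnt hcnt hr => ?_⟩
  · have h1 : 2 * (g * (2 * d)) = g * (4 * d) := by ring
    change g * (2 * d) + ν * D ≤ n
    omega
  obtain ⟨hc1, hc0⟩ := log_cnt_lb hν0 hD0 hcnt
  have hc0' : (0 : ℝ) < cnt := by exact_mod_cast hc0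
  have hr' : (g : ℝ) * Real.log cnt ≤ 3 * r * Real.log 2 := by
    have h1 : (cnt : ℝ) ^ g ≤ 2 ^ (3 * r) := by exact_mod_cast hr
    have h2 := Real.log_le_log (by positivity) h1
    rw [Real.log_pow, Real.log_pow] at h2
    push_cast at h2
    exact h2
  -- lower bounds
  have h1δ : 0 < 1 - δ := by linarith
  have hgR : (1 - δ) * (n / (4 * d)) ≤ (g : ℝ) := by
    have h1 : (n : ℝ) < (g + 1) * (4 * d) := by exact_mod_cast hg2
    have h2 : (n : ℝ) / (4 * d) < g + 1 := by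
      rw [div_lt_iff₀ (by positivity)]; exact h1
    have h3 : (1 : ℝ) ≤ δ * (n / (4 * d)) := by
      rw [mul_div_assoc', le_div_iff₀ (by positivity)]
      nlinarith
    linarith
  have hlog2 := Real.log_two_lt_d9
  have hlog2' := Real.log_two_gt_d9
  have hx : 2 * d * ((1 - δ) * LL - 3) ≤ Real.log (D : ℝ) - 1 := by
    have h1 : (d : ℝ) * ((1 - δ) * LL - Real.log 2) ≤ d * Real.log d :=
      mul_le_mul_of_nonneg_left hlogd_lb hd0'.le
    nlinarith
  have hx0 : 0 ≤ (1 - δ) * LL - 3 := by linarith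
  have hchain : (1 - δ) * (n / (4 * d)) * ((1 - δ) * ((n : ℝ) / 2) *
      (2 * d * ((1 - δ) * LL - 3))) ≤ g * Real.log cnt := by
    refine mul_le_mul hgR ?_ (by positivity) (by positivity)
    refine le_trans ?_ hc1
    exact mul_le_mul hMR hx (by positivity) (by positivity)
  have hid : (1 - δ) * (n / (4 * d)) * ((1 - δ) * ((n : ℝ) / 2) *
      (2 * d * ((1 - δ) * LL - 3))) =
      3 * ((n : ℝ) ^ 2 * ((1 - δ) ^ 2 * ((1 - δ) * LL - 3) / 12)) := by
    field_simp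
    ring
  rw [hid] at hchain
  have hfin : (n : ℝ) ^ 2 * ((1 - δ) ^ 2 * ((1 - δ) * LL - 3) / 12) ≤ r * Real.log 2 := by
    linarith
  have hlb : Real.logb 2 (Real.logb 2 n) = (LL - Real.log (Real.log 2)) / Real.log 2 := by
    have h2 : Real.log 2 ≠ 0 := by positivity
    rw [Real.logb, Real.logb, Real.log_div hLpos.ne' h2]
  rw [hlb, mul_div_assoc', div_le_iff₀ (by positivity)]
  refine le_trans ?_ hfin
  have := mul_le_mul_of_nonneg_left hc (show (0 : ℝ) ≤ (n : ℝ) ^ 2 by positivity)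
  linarith

/-- M11, sharp form. The choice of parameters. -/
theorem asym_sharp (c : ℝ) (hc : c < 1 / 12) : ∃ n₀ : ℕ, ∀ n ≥ n₀, ∃ d g : ℕ, 0 < d ∧
    ∀ bad : Finset ℕ, bad.card ≤ 2 * d * (d !) ^ 2 → ∃ ν, ν ∉ bad ∧ 0 < ν ∧
      g * (2 * d) + ν * (d !) ^ 2 ≤ n ∧
      ∀ r cnt : ℕ, (ν * (d !) ^ 2)! ≤ cnt * (ν !) ^ ((d !) ^ 2) → cnt ^ g ≤ 2 ^ (3 * r) →
        c * (n : ℝ) ^ 2 * Real.logb 2 (Real.logb 2 n) ≤ r := by
  -- choose `δ`
  obtain ⟨δ, hδ0, hδ1, hδc⟩ : ∃ δ : ℝ, 0 < δ ∧ δ < 1 ∧ c < (1 - δ) ^ 3 / 12 := by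
    have hcont : Filter.Tendsto (fun δ : ℝ => (1 - δ) ^ 3 / 12) (nhdsWithin 0 (Set.Ioi 0))
        (nhds ((1 - 0) ^ 3 / 12)) := by
      apply Filter.Tendsto.mono_left _ nhdsWithin_le_nhds
      apply Continuous.tendsto
      fun_prop
    have h1 := hcont.eventually (lt_mem_nhds (show c < (1 - 0) ^ 3 / 12 by linarith))
    have h2 : ∀ᶠ δ : ℝ in nhdsWithin 0 (Set.Ioi 0), δ < 1 :=
      nhdsWithin_le_nhds (gt_mem_nhds one_pos)
    obtain ⟨δ, ⟨h3, h4⟩, h5⟩ := ((h1.and h2).and self_mem_nhdsWithin).exists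
    exact ⟨δ, h5, h4, h3⟩
  have h1δ : 0 < 1 - δ := by linarith
  have h1 : Filter.Tendsto (fun n : ℕ => Real.log (n : ℝ)) Filter.atTop Filter.atTop :=
    Real.tendsto_log_atTop.comp tendsto_natCast_atTop_atTop
  have hA : ∀ᶠ x : ℝ in Filter.atTop, 1 ≤ x := Filter.eventually_ge_atTop 1
  have hB : ∀ᶠ x : ℝ in Filter.atTop, 2 ≤ x ^ (1 - δ) :=
    (tendsto_rpow_atTop h1δ).eventually_ge_atTop 2
  have hC : ∀ᶠ n : ℕ in Filter.atTop, 4 * Real.log n ≤ δ * n := by
    have := (Real.isLittleO_log_id_atTop).bound (show (0 : ℝ) < δ / 4 by positivity)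
    have h2 : ∀ᶠ x : ℝ in Filter.atTop, 4 * Real.log x ≤ δ * x := by
      filter_upwards [this, Filter.eventually_ge_atTop 0] with x hx hx0
      rw [Real.norm_eq_abs, id, Real.norm_eq_abs, abs_of_nonneg hx0] at hx
      have := le_abs_self (Real.log x)
      linarith
    exact tendsto_natCast_atTop_atTop.eventually h2
  have hD : ∀ᶠ x : ℝ in Filter.atTop, Real.log (6 / δ) + Real.log x +
      4 * (x ^ (1 - δ) * Real.log x) ≤ x := by
    have e1 := (Real.isLittleO_log_id_atTop).bound (show (0 : ℝ) < 1 / 4 by norm_num)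
    have e2 := (isLittleO_log_rpow_atTop (r := δ) hδ0).bound (show (0 : ℝ) < 1 / 16 by norm_num)
    have e3 : ∀ᶠ x : ℝ in Filter.atTop, 4 * Real.log (6 / δ) ≤ x := Filter.eventually_ge_atTop _
    filter_upwards [e1, e2, e3, Filter.eventually_ge_atTop 1] with x hx1 hx2 hx3 hx4
    have hx0 : (0 : ℝ) < x := by linarith
    rw [Real.norm_eq_abs, id, Real.norm_eq_abs, abs_of_nonneg hx0.le] at hx1
    rw [Real.norm_eq_abs, Real.norm_eq_abs, abs_of_nonneg (Real.rpow_nonneg hx0.le _)] at hx2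
    have a1 := le_abs_self (Real.log x)
    have hp : 0 ≤ x ^ (1 - δ) := Real.rpow_nonneg hx0.le _
    have a2 : x ^ (1 - δ) * Real.log x ≤ x ^ (1 - δ) * (1 / 16 * x ^ δ) :=
      mul_le_mul_of_nonneg_left (a1.trans hx2) hp
    have a3 : x ^ (1 - δ) * (1 / 16 * x ^ δ) = x / 16 := by
      have : x ^ (1 - δ) * x ^ δ = x := by
        rw [← Real.rpow_add hx0]; simp
      calc x ^ (1 - δ) * (1 / 16 * x ^ δ) = (x ^ (1 - δ) * x ^ δ) / 16 := by ring
        _ = x / 16 := by rw [this]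
    linarith
  have hE : ∀ᶠ x : ℝ in Filter.atTop, 3 ≤ (1 - δ) * Real.log x := by
    filter_upwards [Real.tendsto_log_atTop.eventually_ge_atTop (3 / (1 - δ))] with x hx
    rw [div_le_iff₀ h1δ] at hx
    linarith
  have hF : ∀ᶠ x : ℝ in Filter.atTop, c * (Real.log x - Real.log (Real.log 2)) ≤
      (1 - δ) ^ 2 * ((1 - δ) * Real.log x - 3) / 12 := by
    set K : ℝ := (1 - δ) ^ 2 * 3 / 12 - c * Real.log (Real.log 2) with hK
    have hpos : 0 < (1 - δ) ^ 3 / 12 - c := by linarith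
    filter_upwards [Real.tendsto_log_atTop.eventually_ge_atTop (K / ((1 - δ) ^ 3 / 12 - c))]
      with x hx
    rw [div_le_iff₀ hpos] at hx
    have : (1 - δ) ^ 2 * ((1 - δ) * Real.log x - 3) / 12 =
      (1 - δ) ^ 3 / 12 * Real.log x - (1 - δ) ^ 2 * 3 / 12 := by ring
    rw [this]
    nlinarith
  obtain ⟨n₀, hn₀⟩ := Filter.eventually_atTop.1
    ((h1.eventually (((hA.and hB).and (hD.and hE)).and hF)).and
      (hC.and (Filter.eventually_gt_atTop 0)))
  refine ⟨n₀, fun n hn => ?_⟩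
  obtain ⟨⟨⟨⟨a1, a2⟩, a3, a4⟩, a5⟩, a6, a7⟩ := hn₀ n hn
  exact asym_sharp_core a7 c δ hδ0 hδ1 a1 a2 a6 a3 a4 a5

end Pool.Agent.H10.PerSL
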