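import Pool.Agent.H10.PerSL.Defs

/-! Elementary facts on `Reach`, `es`, `lf`, `Lam`, `rk`. -/

namespace Pool.Agent.H10.PerSL

open MvPolynomial Finset

universe u v v' w w'

/-! ### `Reach` -/

section reach

variable {K : Type u} {τ : Type v} [Field K]

theorem one_mem_affine : (1 : MvPolynomial τ K) ∈ affine K τ :=
  Submodule.subset_span (Set.mem_insert _ _)

theorem X_mem_affine (i : τ) : (X i : MvPolynomial τ K) ∈ affine K τ :=
  Submodule.subset_span (Set.mem_insert_of_mem _ ⟨i, rfl⟩)

theorem C_mem_affine (c : K) : (C c : MvPolynomial τ K) ∈ affine K τ := by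
  have : (C c : MvPolynomial τ K) = c • 1 := by
    rw [MvPolynomial.smul_eq_C_mul, mul_one]
  rw [this]
  exact Submodule.smul_mem _ _ one_mem_affine

theorem Reach.affine_le {r : ℕ} {V : Submodule K (MvPolynomial τ K)} (h : Reach r V) :
    affine K τ ≤ V := by
  induction h with
  | zero => exact le_rfl
  | step _ _ _ ih => exact ih.trans le_sup_left

theorem Reach.C_mem {r : ℕ} {V : Submodule K (MvPolynomial τ K)} (h : Reach r V) (c : K) :
    (C c : MvPolynomial τ K) ∈ V := h.affine_le (C_mem_affine c)

end reach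

/-! ### naturality -/

section nat

variable {ρ : Type v} {B : Type v'} [Fintype ρ] {R : Type w} {R' : Type w'}
  [CommSemiring R] [CommSemiring R']

theorem Lam_apply (k : ℕ) (p : MvPolynomial ρ R) :
    Lam k p = ∑ T ∈ (univ : Finset ρ).powersetCard k, coeff (∑ i ∈ T, Finsupp.single i 1) p := by
  simp [Lam, LinearMap.sum_apply, lcoeff]

theorem map_Lam (f : R →+* R') (k : ℕ) (p : MvPolynomial ρ R) :
    f (Lam k p) = Lam k (map f p) := by
  simp [Lam_apply, map_sum, coeff_map]

theorem map_lf (f : R →+* R') (y : ρ → R) : map f (lf y) = lf (fun i => f (y i)) := by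
  simp [lf, map_sum]

theorem map_es {S : Type w} {S' : Type w'} [CommSemiring S] [CommSemiring S'] (f : S →+* S')
    (s : Finset B) (a : ℕ) (F : B → S) : f (es s a F) = es s a (fun j => f (F j)) := by
  simp [es, map_sum, map_prod]

theorem map_rk [Fintype B] (f : R →+* R') (k : ℕ) (x : ρ → B → R) :
    f (rk k x) = rk k (fun i j => f (x i j)) := by
  simp only [rk, map_Lam, map_es, map_lf]

end nat

end Pool.Agent.H10.PerSL
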