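import Pool.Agent.H10.PerSL.Basic

/-! The theorem of Baur and Strassen in the nonscalar model. -/

namespace Pool.Agent.H10.PerSL

open MvPolynomial Finset

universe u v

/-- The combinations `∑ c ∇ v` with `c ∈ W` and `v ∈ V`. -/
noncomputable def gradSpan {K : Type u} {τ : Type v} [Field K] (W V : Submodule K (MvPolynomial τ K)) :
    Submodule K (τ → MvPolynomial τ K) :=
  Submodule.span K {z | ∃ c ∈ W, ∃ v ∈ V, z = fun i => c * pderiv i v}

theorem gradSpan_mono {K : Type u} {τ : Type v} [Field K]
    {W W' V : Submodule K (MvPolynomial τ K)} (h : W ≤ W') : gradSpan W V ≤ gradSpan W' V := by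
  refine Submodule.span_mono ?_
  rintro z ⟨c, hc, v, hv, rfl⟩
  exact ⟨c, h hc, v, hv, rfl⟩

theorem pderiv_affine {K : Type u} {τ : Type v} [Field K] {v : MvPolynomial τ K}
    (hv : v ∈ affine K τ) (i : τ) : ∃ a : K, pderiv i v = C a := by
  classical
  induction hv using Submodule.span_induction with
  | mem x hx =>
    rcases hx with rfl | ⟨j, rfl⟩
    · exact ⟨0, by simp⟩
    · by_cases h : j = i
      · subst h
        exact ⟨1, by simp⟩
      · exact ⟨0, by rw [pderiv_X_of_ne h]; simp⟩
  | zero => exact ⟨0, by simp⟩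
  | add x y _ _ hx hy =>
    obtain ⟨a, ha⟩ := hx
    obtain ⟨b, hb⟩ := hy
    exact ⟨a + b, by simp [ha, hb]⟩
  | smul c x _ hx =>
    obtain ⟨a, ha⟩ := hx
    exact ⟨c * a, by rw [Derivation.map_smul, ha, MvPolynomial.smul_eq_C_mul, C_mul]⟩

theorem baur_strassen_aux {K : Type u} {τ : Type v} [Field K] {r : ℕ}
    {V : Submodule K (MvPolynomial τ K)} (hV : Reach r V) :
    ∀ {t : ℕ} {W : Submodule K (MvPolynomial τ K)}, Reach t W → V ≤ W →
      ∀ z ∈ gradSpan W V, ∃ W', Reach (t + 2 * r) W' ∧ W ≤ W' ∧ ∀ i, z i ∈ W' := by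
  induction hV with
  | zero =>
    intro t W hW _ z hz
    refine ⟨W, hW, le_rfl, ?_⟩
    intro i
    induction hz using Submodule.span_induction with
    | mem x hx =>
      obtain ⟨c, hc, v, hv, rfl⟩ := hx
      obtain ⟨a, ha⟩ := pderiv_affine hv i
      simp only [ha]
      rw [mul_comm, ← MvPolynomial.smul_eq_C_mul]
      exact Submodule.smul_mem _ _ hc
    | zero => simp
    | add x y _ _ hx hy => exact Submodule.add_mem _ hx hy
    | smul c x _ hx => exact Submodule.smul_mem _ _ hx
  | @step r V a b hV ha hb ih =>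
    intro t W hW hVW z hz
    have haW : a ∈ W := hVW (le_sup_left (a := V) ha)
    have hbW : b ∈ W := hVW (le_sup_left (a := V) hb)
    have hdec : ∃ c ∈ W, ∃ z' ∈ gradSpan W V, z = z' + fun i => c * pderiv i (a * b) := by
      induction hz using Submodule.span_induction with
      | mem x hx =>
        obtain ⟨c, hc, v, hv, rfl⟩ := hx
        obtain ⟨v', hv', w, hw, rfl⟩ := Submodule.mem_sup.1 hv
        obtain ⟨κ, rfl⟩ := Submodule.mem_span_singleton.1 hw
        refine ⟨κ • c, Submodule.smul_mem _ _ hc, fun i => c * pderiv i v',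
          Submodule.subset_span ⟨c, hc, v', hv', rfl⟩, ?_⟩
        funext i
        simp only [Pi.add_apply, map_add, Derivation.map_smul]
        rw [mul_add, smul_mul_assoc, mul_smul_comm]
      | zero => exact ⟨0, Submodule.zero_mem _, 0, Submodule.zero_mem _, by ext; simp⟩
      | add x y _ _ hx hy =>
        obtain ⟨c, hc, z₁, hz₁, rfl⟩ := hx
        obtain ⟨c', hc', z₂, hz₂, rfl⟩ := hy
        refine ⟨c + c', Submodule.add_mem _ hc hc', z₁ + z₂, Submodule.add_mem _ hz₁ hz₂, ?_⟩
        funext i
        simp only [Pi.add_apply]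
        ring
      | smul κ x _ hx =>
        obtain ⟨c, hc, z₁, hz₁, rfl⟩ := hx
        refine ⟨κ • c, Submodule.smul_mem _ _ hc, κ • z₁, Submodule.smul_mem _ _ hz₁, ?_⟩
        funext i
        simp only [Pi.add_apply, Pi.smul_apply, smul_add, smul_mul_assoc]
    obtain ⟨c, hc, z', hz', rfl⟩ := hdec
    have hW1 : Reach (t + 1) (W ⊔ Submodule.span K {c * b}) := Reach.step hW hc hbW
    have hW2 : Reach (t + 1 + 1)
        ((W ⊔ Submodule.span K {c * b}) ⊔ Submodule.span K {c * a}) :=
      Reach.step hW1 (le_sup_left (a := W) hc) (le_sup_left (a := W) haW)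
    have hle : W ≤ (W ⊔ Submodule.span K {c * b}) ⊔ Submodule.span K {c * a} :=
      le_sup_left.trans le_sup_left
    have hcb : c * b ∈ (W ⊔ Submodule.span K {c * b}) ⊔ Submodule.span K {c * a} :=
      le_sup_left (a := W ⊔ Submodule.span K {c * b})
        (le_sup_right (a := W) (Submodule.mem_span_singleton_self _))
    have hca : c * a ∈ (W ⊔ Submodule.span K {c * b}) ⊔ Submodule.span K {c * a} :=
      le_sup_right (a := W ⊔ Submodule.span K {c * b}) (Submodule.mem_span_singleton_self _)
    obtain ⟨W', hW', hWW', hz⟩ := ih hW2 ((le_sup_left.trans hVW).trans hle)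
      (z' + (fun i => c * b * pderiv i a) + fun i => c * a * pderiv i b) (by
        refine Submodule.add_mem _ (Submodule.add_mem _ (gradSpan_mono hle hz') ?_) ?_
        · exact Submodule.subset_span ⟨_, hcb, a, ha, rfl⟩
        · exact Submodule.subset_span ⟨_, hca, b, hb, rfl⟩)
    refine ⟨W', by rwa [show t + 2 * (r + 1) = t + 1 + 1 + 2 * r by ring], hle.trans hWW', ?_⟩
    intro i
    have := hz i
    simp only [Pi.add_apply] at this ⊢
    rw [Derivation.leibniz]
    convert this using 1
    simp only [smul_eq_mul]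
    ring

/-- Baur-Strassen: all partial derivatives with three times as many multiplications. -/
theorem baur_strassen {K : Type u} {τ : Type v} [Field K] {r : ℕ}
    {V : Submodule K (MvPolynomial τ K)} (hV : Reach r V) {f : MvPolynomial τ K} (hf : f ∈ V) :
    ∃ V', Reach (3 * r) V' ∧ V ≤ V' ∧ ∀ i, pderiv i f ∈ V' := by
  obtain ⟨W', hW', hle, h⟩ := baur_strassen_aux hV hV le_rfl (fun i => 1 * pderiv i f)
    (Submodule.subset_span ⟨1, hV.affine_le one_mem_affine, f, hf, rfl⟩)
  refine ⟨W', by rwa [show 3 * r = r + 2 * r by ring], hle, fun i => ?_⟩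
  simpa using h i

end Pool.Agent.H10.PerSL
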