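import Pool.Agent.H10.PerSL.Hensel

/-!
# M4. A Bezout type bound for nondegenerate zeros

The system is deformed to `g_i = f_i + u x_i ^ d_i`, the zeros are lifted to power series in `u`.
On the lifted zeros `u x_i ^ d_i = -f_i`, so every linear functional supported there which kills the
reduced monomials satisfies `u Λ(P) = Λ(B P)` for an endomorphism `B` defined over `K`, and
Cayley-Hamilton gives `Λ = 0`.
-/

namespace Pool.Agent.H10.PerSL

open MvPolynomial Finset

universe u v

/-- A power series in `X` with nonzero polynomial is nonzero. -/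
theorem aeval_X_ne_zero {K : Type u} [Field K] (c : Polynomial K) (hc : c ≠ 0) :
    Polynomial.aeval (PowerSeries.X : PowerSeries K) c ≠ 0 := by
  have h : Polynomial.aeval (PowerSeries.X : PowerSeries K) c = (c : PowerSeries K) := by
    have h1 : (Polynomial.aeval (PowerSeries.X : PowerSeries K)).toRingHom =
        Polynomial.coeToPowerSeries.ringHom := by
      apply Polynomial.ringHom_ext
      · intro a
        simp
      · simp
    exact congrFun (congrArg DFunLike.coe h1) c
  rw [h]
  intro h0
  apply hc
  exact Polynomial.coe_injective K (by rw [h0]; simp)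

/-- The operator step. -/
theorem op_kill {K : Type u} [Field K] {W : Type v} [AddCommGroup W] [Module K W]
    [Module.Finite K W] (B : W →ₗ[K] W) (Λ : W →ₗ[K] PowerSeries K)
    (h : ∀ P, PowerSeries.X * Λ P = Λ (B P)) : Λ = 0 := by
  have h1 : ∀ (n : ℕ) (P : W), Λ ((B ^ n) P) = PowerSeries.X ^ n * Λ P := by
    intro n
    induction n with
    | zero => intro P; simp
    | succ n ih =>
      intro P
      rw [pow_succ, Module.End.mul_apply, ih, ← h, pow_succ]
      ring
  have h2 : ∀ (c : Polynomial K) (P : W),
      Λ ((Polynomial.aeval B c) P) = Polynomial.aeval (PowerSeries.X : PowerSeries K) c * Λ P := by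
    intro c P
    induction c using Polynomial.induction_on' with
    | add p q hp hq => simp only [map_add, LinearMap.add_apply, hp, hq, add_mul]
    | monomial n a =>
      rw [Polynomial.aeval_monomial, Polynomial.aeval_monomial, Module.End.mul_apply,
        Module.algebraMap_end_apply, map_smul, h1, Algebra.smul_def, mul_assoc]
  ext1 P
  have h3 := h2 (LinearMap.charpoly B) P
  rw [LinearMap.aeval_self_charpoly, LinearMap.zero_apply, map_zero] at h3
  have h4 := aeval_X_ne_zero (LinearMap.charpoly B) (LinearMap.charpoly_monic B).ne_zero
  rcases mul_eq_zero.1 h3.symm with h5 | h5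
  · exact absurd h5 h4
  · simpa using h5

/-- A polynomial separating a point of a finite set from the others. -/
theorem exists_sep {K : Type u} [Field K] {κ : Type v} (S : Finset (κ → K)) (p0 : κ → K) :
    ∃ P : MvPolynomial κ K, eval p0 P = 1 ∧ ∀ p ∈ S, p ≠ p0 → eval p P = 0 := by
  classical
  have h : ∀ p : κ → K, ∃ Q : MvPolynomial κ K, eval p0 Q = 1 ∧ (p ≠ p0 → eval p Q = 0) := by
    intro p
    by_cases hp : p = p0
    · exact ⟨1, by simp, fun h => absurd hp h⟩
    · obtain ⟨i, hi⟩ := Function.ne_iff.1 hp
      refine ⟨C ((p0 i - p i)⁻¹) * (X i - C (p i)), ?_, fun _ => ?_⟩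
      · simp only [map_mul, map_sub, eval_C, eval_X]
        exact inv_mul_cancel₀ (sub_ne_zero.2 (Ne.symm hi))
      · simp
  choose Q hQ1 hQ0 using h
  refine ⟨∏ p ∈ S, Q p, ?_, fun p hp hne => ?_⟩
  · rw [map_prod]
    exact prod_eq_one fun p _ => hQ1 p
  · rw [map_prod]
    exact prod_eq_zero hp (hQ0 p hne)

/-- M4. Bezout-type bound for nondegenerate zeros. -/
theorem bezout {K : Type u} [Field K] {κ : Type v} [Fintype κ] [DecidableEq κ]
    (f : κ → MvPolynomial κ K) (d : κ → ℕ) (_hd : ∀ i, 1 ≤ d i)
    (hf : ∀ i, (f i).totalDegree ≤ d i) (S : Finset (κ → K))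
    (hS : ∀ p ∈ S, (∀ i, eval p (f i) = 0) ∧
      (Matrix.of fun i j => eval p (pderiv j (f i))).det ≠ 0) :
    S.card ≤ ∏ i, d i := by
  classical
  -- the deformed system
  let g : κ → MvPolynomial κ (PowerSeries K) := fun i =>
    map (PowerSeries.C (R := K)) (f i) + C PowerSeries.X * X i ^ (d i)
  have hg : ∀ i, map (PowerSeries.constantCoeff (R := K)) (g i) = f i := by
    intro i
    simp only [g, map_add, map_mul, map_pow, map_C, map_X, PowerSeries.constantCoeff_X, map_zero,
      zero_mul, add_zero]
    rw [MvPolynomial.map_map]
    have : (PowerSeries.constantCoeff (R := K)).comp (PowerSeries.C (R := K)) = RingHom.id K := by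
      ext a; simp
    rw [this, MvPolynomial.map_id]
  have hlift : ∀ p : S, ∃ q : κ → PowerSeries K, (∀ i, eval q (g i) = 0) ∧
      ∀ i, PowerSeries.constantCoeff (q i) = p.1 i := by
    intro p
    apply hensel
    · intro i; rw [hg]; exact (hS p.1 p.2).1 i
    · simp only [hg]; exact (hS p.1 p.2).2
  choose q hq hqp using hlift
  -- evaluation at the lifted points
  let ev : S → (MvPolynomial κ K →ₐ[K] PowerSeries K) := fun p => aeval (q p)
  have hev : ∀ p P, ev p P = eval (q p) (map (PowerSeries.C (R := K)) P) := by
    intro p P
    rw [eval_map]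
    rfl
  have hrel : ∀ p i, PowerSeries.X * (q p i) ^ (d i) = -ev p (f i) := by
    intro p i
    have h1 := hq p i
    simp only [g, map_add, map_mul, map_pow, eval_C, eval_X] at h1
    rw [← hev] at h1
    linear_combination h1
  have hcc : ∀ p P, PowerSeries.constantCoeff (ev p P) = eval p.1 P := by
    intro p P
    rw [hev, constantCoeff_eval, MvPolynomial.map_map]
    have : (PowerSeries.constantCoeff (R := K)).comp (PowerSeries.C (R := K)) = RingHom.id K := by
      ext a; simp
    rw [this, MvPolynomial.map_id]
    congr 2
    exact funext fun i => hqp p i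
  -- the linear map of evaluations of the reduced monomials
  let T : (S → PowerSeries K) →ₗ[PowerSeries K] ((i : κ) → Fin (d i)) → PowerSeries K :=
    { toFun := fun l β => ∑ p, l p * ∏ i, q p i ^ (β i : ℕ)
      map_add' := by
        intro l l'; ext1 β
        simp only [Pi.add_apply, add_mul, sum_add_distrib]
      map_smul' := by
        intro c l; ext1 β
        simp only [Pi.smul_apply, smul_eq_mul, RingHom.id_apply, mul_sum, mul_assoc] }
  have hT : Function.Injective T := by
    rw [← LinearMap.ker_eq_bot, LinearMap.ker_eq_bot']
    intro l hl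
    have hl' : ∀ β : (i : κ) → Fin (d i), ∑ p, l p * ∏ i, q p i ^ (β i : ℕ) = 0 :=
      fun β => congrFun hl β
    -- the functional
    let Λ : MvPolynomial κ K →ₗ[K] PowerSeries K :=
      ∑ p, (LinearMap.mulLeft K (l p)).comp (ev p).toLinearMap
    have hΛ : ∀ P, Λ P = ∑ p, l p * ev p P := by
      intro P
      simp [Λ, LinearMap.sum_apply]
    -- the operator
    have hmon : ∀ β : κ →₀ ℕ, ∃ Q : MvPolynomial κ K, Q.totalDegree ≤ β.degree ∧
        PowerSeries.X * Λ (monomial β 1) = Λ Q := by
      intro β
      by_cases hβ : ∃ i, d i ≤ β i
      · obtain ⟨i, hi⟩ := hβ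
        refine ⟨-(monomial (β - Finsupp.single i (d i)) 1 * f i), ?_, ?_⟩
        · rw [totalDegree_neg]
          refine (totalDegree_mul _ _).trans ?_
          have h1 : (monomial (β - Finsupp.single i (d i)) (1 : K)).totalDegree ≤
              (β - Finsupp.single i (d i)).degree := by
            refine (totalDegree_monomial_le _ _).trans (le_of_eq ?_)
            rfl
          have h2 : (β - Finsupp.single i (d i)).degree + d i = β.degree := by
            have h3 : (β - Finsupp.single i (d i)) + Finsupp.single i (d i) = β := by
              apply tsub_add_cancel_of_le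
              rw [Finsupp.single_le_iff]
              exact hi
            have h4 := congrArg Finsupp.degree h3
            rw [map_add, Finsupp.degree_single] at h4
            exact h4
          have := hf i
          omega
        · rw [hΛ, hΛ, mul_sum]
          refine sum_congr rfl fun p _ => ?_
          have h3 : (monomial β (1 : K)) =
              monomial (β - Finsupp.single i (d i)) 1 * X i ^ (d i) := by
            rw [X_pow_eq_monomial, monomial_mul, mul_one,
              tsub_add_cancel_of_le (Finsupp.single_le_iff.2 hi)]
          rw [h3, map_mul, map_neg, map_mul, map_pow]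
          have h5 : ev p (X i) = q p i := by simp [ev]
          rw [h5]
          linear_combination (l p * ev p (monomial (β - Finsupp.single i (d i)) 1)) * hrel p i
      · push Not at hβ
        refine ⟨0, by simp, ?_⟩
        have h1 : Λ (monomial β 1) = 0 := by
          rw [hΛ, ← hl' fun i => ⟨β i, hβ i⟩]
          refine sum_congr rfl fun p _ => ?_
          congr 1
          simp only [ev, aeval_monomial, map_one, one_mul]
          rw [Finsupp.prod_fintype _ _ fun i => pow_zero _]
        rw [h1, mul_zero, map_zero]
    choose Q hQd hQ using hmon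
    let B : MvPolynomial κ K →ₗ[K] MvPolynomial κ K := (basisMonomials κ K).constr K Q
    have hB : ∀ β, B (monomial β 1) = Q β := by
      intro β
      have := (basisMonomials κ K).constr_basis K Q β
      simpa [B] using this
    have hXB : ∀ P, PowerSeries.X * Λ P = Λ (B P) := by
      intro P
      have h1 : (LinearMap.mulLeft K (PowerSeries.X : PowerSeries K)).comp Λ = Λ.comp B := by
        apply (basisMonomials κ K).ext
        intro β
        simp only [coe_basisMonomials, LinearMap.comp_apply, LinearMap.mulLeft_apply]
        rw [hB, hQ]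
      exact LinearMap.congr_fun h1 P
    have hBW : ∀ D : ℕ, ∀ P ∈ restrictTotalDegree κ K D, B P ∈ restrictTotalDegree κ K D := by
      intro D P hP
      rw [mem_restrictTotalDegree] at hP
      rw [P.as_sum, map_sum]
      refine Submodule.sum_mem _ fun β hβ => ?_
      have h1 : monomial β (coeff β P) = coeff β P • monomial β (1 : K) := by
        rw [smul_monomial, smul_eq_mul, mul_one]
      rw [h1, map_smul, hB]
      refine Submodule.smul_mem _ _ ?_
      rw [mem_restrictTotalDegree]
      refine (hQd β).trans (le_trans ?_ hP)
      exact le_totalDegree hβ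
    have hΛ0 : ∀ P, Λ P = 0 := by
      intro P
      have h1 := op_kill (B.restrict (hBW P.totalDegree))
        (Λ.comp (restrictTotalDegree κ K P.totalDegree).subtype) (by
          intro P'
          simp only [LinearMap.comp_apply, Submodule.subtype_apply, LinearMap.restrict_apply]
          exact hXB _)
      have h2 := LinearMap.congr_fun h1
        ⟨P, (mem_restrictTotalDegree _ _ _).2 le_rfl⟩
      simpa using h2
    -- separating polynomials
    have hsep := fun p0 : S => exists_sep S p0.1
    choose Ps hPs1 hPs0 using hsep
    let E : Matrix S S (PowerSeries K) := Matrix.of fun p0 p => ev p (Ps p0)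
    have hE : E.det ≠ 0 := by
      intro h0
      have h1 : PowerSeries.constantCoeff E.det = 0 := by rw [h0, map_zero]
      rw [RingHom.map_det] at h1
      have h2 : (PowerSeries.constantCoeff (R := K)).mapMatrix E = 1 := by
        ext p0 p
        have h3 : E p0 p = ev p (Ps p0) := rfl
        rw [RingHom.mapMatrix_apply, Matrix.map_apply, h3, hcc, Matrix.one_apply]
        split_ifs with h
        · rw [← h]; exact hPs1 p0
        · exact hPs0 p0 p.1 p.2 fun h' => h (Subtype.ext h'.symm)
      rw [h2, Matrix.det_one] at h1
      exact one_ne_zero h1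
    apply Matrix.eq_zero_of_mulVec_eq_zero hE
    ext1 p0
    rw [Matrix.mulVec, dotProduct]
    simp only [E, Matrix.of_apply, Pi.zero_apply]
    rw [← hΛ0 (Ps p0), hΛ]
    exact sum_congr rfl fun p _ => mul_comm _ _
  have := card_le_of_injective (PowerSeries K) T hT
  rw [Fintype.card_coe, Fintype.card_pi] at this
  simpa using this

end Pool.Agent.H10.PerSL
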