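import Pool.Agent.H10.PerSL.Basic

/-! M9: many nondegenerate critical points of `r_{d+1}`. -/

namespace Pool.Agent.H10.PerSL

open MvPolynomial Finset
open scoped Nat

universe u v v' w

/-! ### Elementary symmetric sums -/

section es

variable {B : Type v} {B' : Type v'} {S : Type w}

theorem es_zero' [CommSemiring S] (s : Finset B) (f : B → S) : es s 0 f = 1 := by simp [es]

theorem es_erase [CommSemiring S] [DecidableEq B] {s : Finset B} {j : B} (hj : j ∈ s) (a : ℕ)
    (f : B → S) : es s (a + 1) f = es (s.erase j) (a + 1) f + f j * es (s.erase j) a f := by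
  have h : es s (a + 1) f = es (insert j (s.erase j)) (a + 1) f := by rw [insert_erase hj]
  rw [h, es, powersetCard_succ_insert (notMem_erase j s), sum_union, sum_image, es, es, mul_sum]
  · congr 1
    refine sum_congr rfl fun C hC => ?_
    rw [prod_insert]
    exact fun h => notMem_erase j s ((mem_powersetCard.1 hC).1 h)
  · intro C hC C' hC' he
    have h1 : j ∉ C := fun h => notMem_erase j s ((mem_powersetCard.1 hC).1 h)
    have h2 : j ∉ C' := fun h => notMem_erase j s ((mem_powersetCard.1 hC').1 h)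
    rw [← erase_insert h1, ← erase_insert h2, he]
  · rw [disjoint_left]
    intro C hC hC'
    obtain ⟨C', _, rfl⟩ := mem_image.1 hC'
    exact notMem_erase j s ((mem_powersetCard.1 hC).1 (mem_insert_self j C'))

theorem es_smul [CommSemiring S] (s : Finset B) (a : ℕ) (r : S) (f : B → S) :
    es s a (fun j => r * f j) = r ^ a * es s a f := by
  rw [es, es, mul_sum]
  refine sum_congr rfl fun C hC => ?_
  rw [prod_mul_distrib, prod_const, (mem_powersetCard.1 hC).2]

theorem es_congr [CommSemiring S] (s : Finset B) (a : ℕ) {f g : B → S}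
    (h : ∀ j ∈ s, f j = g j) : es s a f = es s a g := by
  rw [es, es]
  refine sum_congr rfl fun C hC => prod_congr rfl fun j hj => h j ((mem_powersetCard.1 hC).1 hj)

theorem es_eq_esymm [CommSemiring S] (s : Finset B) (a : ℕ) (f : B → S) :
    es s a f = (s.val.map f).esymm a := (Finset.esymm_map_val f s a).symm

/-- Two families with the same multiset of types have the same elementary symmetric sums. -/
theorem es_types [CommSemiring S] {T : Type*} [Fintype B] [Fintype B'] {c : B → T} {c' : B' → T}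
    (h : (univ : Finset B).val.map c = (univ : Finset B').val.map c') (a : ℕ) (f : T → S) :
    es univ a (fun j => f (c j)) = es univ a (fun j => f (c' j)) := by
  rw [es_eq_esymm, es_eq_esymm]
  have h1 : (univ : Finset B).val.map (fun j => f (c j)) = ((univ : Finset B).val.map c).map f := by
    rw [Multiset.map_map]; rfl
  have h2 : (univ : Finset B').val.map (fun j => f (c' j)) =
      ((univ : Finset B').val.map c').map f := by
    rw [Multiset.map_map]; rfl
  rw [h1, h2, h]

theorem map_univ_val_equiv {T T' : Type*} [Fintype T] [Fintype T'] (e : T ≃ T') :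
    (univ : Finset T).val.map e = (univ : Finset T').val := by
  have := congrArg Finset.val (Finset.map_univ_equiv e)
  rw [← this]
  simp

theorem es_equiv [CommSemiring S] [Fintype B] [Fintype B'] (e : B ≃ B') (a : ℕ) (f : B' → S) :
    es univ a (fun j => f (e j)) = es univ a f := by
  have := es_types (B := B) (B' := B') (c := e) (c' := id) (by
    rw [map_univ_val_equiv, Multiset.map_id]) a f
  exact this

/-- Removal of one element. -/
theorem es_erase_one [CommRing S] [Fintype B] [DecidableEq B] {d : ℕ} {f : B → S}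
    (h : ∀ a, 0 < a → a < d → es univ a f = 0) (j : B) :
    ∀ a, a < d → es (univ.erase j) a f = (- f j) ^ a
  | 0, _ => by rw [es_zero', pow_zero]
  | a + 1, ha => by
    have h1 := es_erase (mem_univ j) a f
    rw [h (a + 1) (Nat.succ_pos a) ha, es_erase_one h j a (by omega)] at h1
    rw [eq_comm, ← sub_eq_zero] at h1
    rw [← sub_eq_zero, pow_succ, ← h1]
    ring

theorem es_erase_top [CommRing S] [Fintype B] [DecidableEq B] {d : ℕ} (hd : 0 < d) {f : B → S}
    (h : ∀ a, 0 < a → a < d → es univ a f = 0) (j : B) :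
    es (univ.erase j) d f = es univ d f + (- f j) ^ d := by
  obtain ⟨a, rfl⟩ : ∃ a, d = a + 1 := ⟨d - 1, by omega⟩
  rw [es_erase (mem_univ j) a f, es_erase_one h j a (by omega), pow_succ]
  ring

/-- Removal of two elements. -/
theorem es_erase_two [CommRing S] [Fintype B] [DecidableEq B] {d : ℕ} {f : B → S}
    (h : ∀ a, 0 < a → a < d → es univ a f = 0) {j j' : B} (hj : j' ≠ j) :
    ∀ a, a < d → es ((univ.erase j).erase j') a f =
      ∑ p ∈ antidiagonal a, (- f j) ^ p.1 * (- f j') ^ p.2
  | 0, _ => by simp [es_zero']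
  | a + 1, ha => by
    have h1 := es_erase (mem_erase.2 ⟨hj, mem_univ j'⟩) a f
    rw [es_erase_one h j (a + 1) ha, es_erase_two h hj a (by omega)] at h1
    rw [Finset.Nat.antidiagonal_succ', sum_cons, sum_map]
    simp only [Function.Embedding.coe_prodMap, Function.Embedding.refl_apply, Prod.map_fst,
      Prod.map_snd, Function.Embedding.coeFn_mk, pow_zero, mul_one]
    rw [eq_comm] at h1
    rw [eq_sub_of_add_eq h1, sub_eq_add_neg, mul_sum, ← sum_neg_distrib]
    congr 1
    refine sum_congr rfl fun p _ => ?_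
    rw [Nat.succ_eq_add_one, pow_succ]
    ring

/-- Symmetry under multiplication by a primitive root of unity. -/
theorem es_eq_zero [CommRing S] [IsDomain S] [Fintype B] {d : ℕ} {ζ : S}
    (hζ : IsPrimitiveRoot ζ d) {f : B → S} {a : ℕ} (ha : 0 < a) (had : a < d)
    (h : es univ a (fun j => ζ * f j) = es univ a f) : es univ a f = 0 := by
  rw [es_smul] at h
  have h1 : (ζ ^ a - 1) * es univ a f = 0 := by rw [sub_mul, h, one_mul, sub_self]
  rcases mul_eq_zero.1 h1 with h2 | h2
  · exact absurd (sub_eq_zero.1 h2) (hζ.pow_ne_one_of_pos_of_lt ha.ne' had)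
  · exact h2

end es

/-! ### The functional `Lam` -/

section lam

variable {ρ : Type v} {R : Type w} [CommRing R]

/-- The sum of the coefficients of the squarefree monomials of degree `k` in the variables of
`s`. -/
noncomputable def LamS (s : Finset ρ) (k : ℕ) (p : MvPolynomial ρ R) : R :=
  ∑ T ∈ s.powersetCard k, coeff (∑ i ∈ T, Finsupp.single i 1) p

theorem Lam_eq_LamS [Fintype ρ] (k : ℕ) (p : MvPolynomial ρ R) : Lam k p = LamS univ k p :=
  Lam_apply k p

theorem LamS_add (s : Finset ρ) (k : ℕ) (p q : MvPolynomial ρ R) :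
    LamS s k (p + q) = LamS s k p + LamS s k q := by
  simp [LamS, sum_add_distrib]

theorem chi_apply [DecidableEq ρ] (T : Finset ρ) (r : ρ) :
    (∑ i ∈ T, Finsupp.single i 1 : ρ →₀ ℕ) r = if r ∈ T then 1 else 0 := by
  simp [Finsupp.finsetSum_apply, Finsupp.single_apply]

theorem chi_sub [DecidableEq ρ] (T : Finset ρ) {r : ρ} (hr : r ∈ T) :
    (∑ i ∈ T, Finsupp.single i 1 : ρ →₀ ℕ) - Finsupp.single r 1 =
      ∑ i ∈ T.erase r, Finsupp.single i 1 := by
  rw [← add_sum_erase T _ hr, add_tsub_cancel_left]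

theorem coeff_chi_X_mul [DecidableEq ρ] (T : Finset ρ) (i : ρ) (p : MvPolynomial ρ R) :
    coeff (∑ i ∈ T, Finsupp.single i 1) (X i * p) =
      if i ∈ T then coeff (∑ r ∈ T.erase i, Finsupp.single r 1) p else 0 := by
  rw [coeff_X_mul']
  have h : (i ∈ (∑ i ∈ T, Finsupp.single i 1 : ρ →₀ ℕ).support) ↔ i ∈ T := by
    rw [Finsupp.mem_support_iff, chi_apply]
    by_cases h : i ∈ T <;> simp [h]
  by_cases hi : i ∈ T
  · rw [if_pos (h.2 hi), if_pos hi, chi_sub T hi]
  · rw [if_neg (fun h' => hi (h.1 h')), if_neg hi]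

theorem LamS_X_mul [DecidableEq ρ] (s : Finset ρ) (k : ℕ) (i : ρ) (p : MvPolynomial ρ R) :
    LamS s (k + 1) (X i * p) = if i ∈ s then LamS (s.erase i) k p else 0 := by
  by_cases hi : i ∈ s
  · rw [if_pos hi]
    have h : LamS s (k + 1) (X i * p) = LamS (insert i (s.erase i)) (k + 1) (X i * p) := by
      rw [insert_erase hi]
    rw [h, LamS, powersetCard_succ_insert (notMem_erase i s), sum_union, sum_image, LamS]
    · rw [sum_eq_zero, zero_add]
      · refine sum_congr rfl fun C hC => ?_
        have h1 : i ∉ C := fun h => notMem_erase i s ((mem_powersetCard.1 hC).1 h)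
        rw [coeff_chi_X_mul, if_pos (mem_insert_self i C), erase_insert h1]
      · intro C hC
        have h1 : i ∉ C := fun h => notMem_erase i s ((mem_powersetCard.1 hC).1 h)
        rw [coeff_chi_X_mul, if_neg h1]
    · intro C hC C' hC' he
      have h1 : i ∉ C := fun h => notMem_erase i s ((mem_powersetCard.1 hC).1 h)
      have h2 : i ∉ C' := fun h => notMem_erase i s ((mem_powersetCard.1 hC').1 h)
      rw [← erase_insert h1, ← erase_insert h2, he]
    · rw [disjoint_left]
      intro C hC hC'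
      obtain ⟨C', _, rfl⟩ := mem_image.1 hC'
      exact notMem_erase i s ((mem_powersetCard.1 hC).1 (mem_insert_self i C'))
  · rw [if_neg hi, LamS]
    refine sum_eq_zero fun C hC => ?_
    rw [coeff_chi_X_mul, if_neg (fun h => hi ((mem_powersetCard.1 hC).1 h))]

theorem coeff_chi_lf_pow [Fintype ρ] [DecidableEq ρ] (y : ρ → R) : ∀ (k : ℕ) (T : Finset ρ),
    T.card = k → coeff (∑ i ∈ T, Finsupp.single i 1) (lf y ^ k) = (k ! : R) * ∏ r ∈ T, y r
  | 0, T, hT => by
    rw [card_eq_zero.1 hT]
    simp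
  | k + 1, T, hT => by
    have h : coeff (∑ i ∈ T, Finsupp.single i 1) (lf y ^ (k + 1)) =
        ∑ i, y i * coeff (∑ i ∈ T, Finsupp.single i 1) (X i * lf y ^ k) := by
      rw [pow_succ', lf, sum_mul, coeff_sum]
      refine sum_congr rfl fun i _ => ?_
      rw [mul_assoc, coeff_C_mul]
    rw [h]
    have h2 : ∀ i, y i * coeff (∑ i ∈ T, Finsupp.single i 1) (X i * lf y ^ k) =
        if i ∈ T then (k ! : R) * ∏ r ∈ T, y r else 0 := by
      intro i
      rw [coeff_chi_X_mul]
      split_ifs with hi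
      · rw [coeff_chi_lf_pow y k (T.erase i) (by rw [card_erase_of_mem hi, hT]; rfl),
          ← mul_prod_erase T y hi]
        ring
      · rw [mul_zero]
    rw [sum_congr rfl fun i _ => h2 i, sum_ite_mem, univ_inter, sum_const, hT, Nat.factorial_succ,
      nsmul_eq_mul]
    push_cast
    ring

theorem LamS_lf_pow [Fintype ρ] [DecidableEq ρ] (s : Finset ρ) (k : ℕ) (y : ρ → R) :
    LamS s k (lf y ^ k) = (k ! : R) * es s k y := by
  rw [LamS, es, mul_sum]
  exact sum_congr rfl fun T hT => coeff_chi_lf_pow y k T (mem_powersetCard.1 hT).2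

theorem lf_neg [Fintype ρ] (y : ρ → R) : - lf y = lf (fun i => - y i) := by
  simp [lf]

theorem Lam_rename [Fintype ρ] [DecidableEq ρ] (e : ρ ≃ ρ) (k : ℕ) (p : MvPolynomial ρ R) :
    Lam k (rename e p) = Lam k p := by
  rw [Lam_eq_LamS, Lam_eq_LamS, LamS, LamS]
  symm
  refine sum_bij (fun T _ => T.map e.toEmbedding) ?_ ?_ ?_ ?_
  · intro T hT
    exact mem_powersetCard.2 ⟨subset_univ _, by rw [card_map]; exact (mem_powersetCard.1 hT).2⟩
  · intro T _ T' _ h
    exact Finset.map_injective _ h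
  · intro T hT
    refine ⟨T.map e.symm.toEmbedding, mem_powersetCard.2 ⟨subset_univ _, by
      rw [card_map]; exact (mem_powersetCard.1 hT).2⟩, ?_⟩
    rw [map_map]
    simp
  · intro T _
    rw [← coeff_rename_mapDomain e e.injective p, sum_map]
    congr 1
    rw [Finsupp.mapDomain_finsetSum]
    refine sum_congr rfl fun i _ => ?_
    rw [Finsupp.mapDomain_single]
    rfl

theorem rename_lf [Fintype ρ] (e : ρ ≃ ρ) (y : ρ → R) :
    rename e (lf y) = lf (fun i => y (e.symm i)) := by
  rw [lf, lf, map_sum, ← e.sum_comp (fun i => C (y (e.symm i)) * X i)]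
  refine sum_congr rfl fun i _ => ?_
  simp

end lam

/-! ### Derivatives -/

section deriv

variable {K : Type u} [Field K] {A : Type w} [CommRing A] [Algebra K A]

theorem coeff_cD_aux {ρ : Type v} (D : Derivation K A A) (p : MvPolynomial ρ A) (m : ρ →₀ ℕ) :
    coeff m (∑ m' ∈ p.support, monomial m' (D (coeff m' p))) = D (coeff m p) := by
  classical
  rw [coeff_sum]
  simp only [coeff_monomial]
  rw [sum_ite_eq']
  split_ifs with h
  · rfl
  · rw [notMem_support_iff.1 h, map_zero]

/-- Coefficientwise derivation. -/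
noncomputable def cD (ρ : Type v) (D : Derivation K A A) :
    Derivation K (MvPolynomial ρ A) (MvPolynomial ρ A) :=
  Derivation.mk'
    { toFun := fun p => ∑ m' ∈ p.support, monomial m' (D (coeff m' p))
      map_add' := by
        intro p q
        ext m
        rw [coeff_cD_aux, coeff_add, coeff_add, coeff_cD_aux, coeff_cD_aux, map_add]
      map_smul' := by
        intro a p
        ext m
        rw [coeff_cD_aux, RingHom.id_apply, coeff_smul, coeff_smul, coeff_cD_aux, D.map_smul] }
    (by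
      classical
      intro p q
      ext m
      simp only [LinearMap.coe_mk, AddHom.coe_mk, smul_eq_mul]
      rw [coeff_cD_aux, coeff_add, mul_comm q, coeff_mul, coeff_mul, coeff_mul, map_sum,
        ← sum_add_distrib]
      refine sum_congr rfl fun x _ => ?_
      rw [D.leibniz, coeff_cD_aux, coeff_cD_aux, smul_eq_mul, smul_eq_mul]
      ring)

theorem coeff_cD {ρ : Type v} (D : Derivation K A A) (p : MvPolynomial ρ A) (m : ρ →₀ ℕ) :
    coeff m (cD ρ D p) = D (coeff m p) := coeff_cD_aux D p m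

theorem cD_C {ρ : Type v} (D : Derivation K A A) (a : A) : cD ρ D (C a) = C (D a) := by
  classical
  ext m
  rw [coeff_cD, coeff_C, coeff_C]
  split_ifs
  · rfl
  · exact map_zero _

theorem cD_X {ρ : Type v} (D : Derivation K A A) (i : ρ) : cD ρ D (X i) = 0 := by
  classical
  ext m
  rw [coeff_cD, MvPolynomial.coeff_X, coeff_zero]
  split_ifs
  · exact D.map_one_eq_zero
  · exact map_zero _

theorem Lam_cD {ρ : Type v} [Fintype ρ] (D : Derivation K A A) (k : ℕ) (p : MvPolynomial ρ A) :
    Lam k (cD ρ D p) = D (Lam k p) := by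
  rw [Lam_apply, Lam_apply, map_sum]
  exact sum_congr rfl fun T _ => coeff_cD D p _

theorem D_es_zero {B : Type v} (D : Derivation K A A) (s : Finset B) (a : ℕ) {f : B → A}
    (h : ∀ j ∈ s, D (f j) = 0) : D (es s a f) = 0 := by
  rw [es, map_sum]
  refine sum_eq_zero fun C hC => ?_
  refine prod_induction f (fun p => D p = 0) ?_ D.map_one_eq_zero ?_
  · intro p q hp hq
    rw [D.leibniz, hp, hq, smul_zero, smul_zero, add_zero]
  · exact fun j hj => h j ((mem_powersetCard.1 hC).1 hj)

theorem D_es {B : Type v} [DecidableEq B] (D : Derivation K A A) {s : Finset B} (a : ℕ)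
    {f : B → A} {j : B} (hj : j ∈ s) (h : ∀ j' ∈ s, j' ≠ j → D (f j') = 0) :
    D (es s (a + 1) f) = D (f j) * es (s.erase j) a f := by
  have h0 : ∀ a, D (es (s.erase j) a f) = 0 := fun a =>
    D_es_zero D _ a fun j' hj' => h j' (mem_of_mem_erase hj') (ne_of_mem_erase hj')
  rw [es_erase hj, map_add, h0, D.leibniz, h0, smul_zero, zero_add, zero_add, smul_eq_mul,
    mul_comm]

variable {ρ : Type v} {B : Type v'} [Fintype ρ] [Fintype B] [DecidableEq ρ] [DecidableEq B]

omit [Fintype B] in
theorem cD_lf (q : ρ × B) (j : B) :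
    cD ρ (pderiv (R := K) q) (lf fun i => (X (i, j) : MvPolynomial (ρ × B) K)) =
      if j = q.2 then X q.1 else 0 := by
  rw [lf, map_sum]
  have h : ∀ i, cD ρ (pderiv (R := K) q) (C (X (i, j) : MvPolynomial (ρ × B) K) * X i) =
      if i = q.1 then (if j = q.2 then X q.1 else 0) else 0 := by
    intro i
    rw [Derivation.leibniz, cD_X, smul_zero, zero_add, cD_C, smul_eq_mul, pderiv_X]
    by_cases hi : i = q.1
    · by_cases hj : j = q.2
      · have : (i, j) = q := Prod.ext hi hj
        rw [if_pos hi, if_pos hj, ← this]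
        simp
      · have : (i, j) ≠ q := fun h => hj (congrArg Prod.snd h)
        rw [if_pos hi, if_neg hj, Pi.single_eq_of_ne this]
        simp
    · have : (i, j) ≠ q := fun h => hi (congrArg Prod.fst h)
      rw [if_neg hi, Pi.single_eq_of_ne this]
      simp
  rw [sum_congr rfl fun i _ => h i]
  simp

theorem pderiv_rPoly (k : ℕ) (q : ρ × B) :
    pderiv q (rPoly ρ B K (k + 1)) = Lam (k + 1) (X q.1 *
      es (univ.erase q.2) k (fun j => lf fun i => (X (i, j) : MvPolynomial (ρ × B) K))) := by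
  rw [rPoly, rk, ← Lam_cD, D_es _ k (mem_univ q.2), cD_lf, if_pos rfl]
  intro j' _ hj'
  rw [cD_lf, if_neg hj']

theorem pderiv_pderiv_rPoly (k : ℕ) (q q' : ρ × B) :
    pderiv q' (pderiv q (rPoly ρ B K (k + 1 + 1))) = if q'.2 = q.2 then 0 else
      Lam (k + 1 + 1) (X q.1 * (X q'.1 *
        es ((univ.erase q.2).erase q'.2) k
          (fun j => lf fun i => (X (i, j) : MvPolynomial (ρ × B) K)))) := by
  rw [pderiv_rPoly, ← Lam_cD, Derivation.leibniz, cD_X, smul_zero, add_zero, smul_eq_mul]
  split_ifs with h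
  · rw [D_es_zero, mul_zero, map_zero]
    intro j hj
    rw [cD_lf, if_neg]
    intro h'
    exact ne_of_mem_erase hj (h'.trans h)
  · rw [D_es _ k (mem_erase.2 ⟨h, mem_univ q'.2⟩), cD_lf, if_pos rfl]
    intro j' _ hj'
    rw [cD_lf, if_neg hj']

theorem eval_pderiv_rPoly (k : ℕ) (q : ρ × B) (x : ρ × B → K) :
    eval x (pderiv q (rPoly ρ B K (k + 1))) = Lam (k + 1) (X q.1 *
      es (univ.erase q.2) k (fun j => lf fun i => x (i, j))) := by
  rw [pderiv_rPoly, map_Lam, map_mul, map_X, map_es]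
  simp only [map_lf, eval_X]

theorem eval_pderiv_pderiv_rPoly (k : ℕ) (q q' : ρ × B) (x : ρ × B → K) :
    eval x (pderiv q' (pderiv q (rPoly ρ B K (k + 1 + 1)))) = if q'.2 = q.2 then 0 else
      Lam (k + 1 + 1) (X q.1 * (X q'.1 *
        es ((univ.erase q.2).erase q'.2) k (fun j => lf fun i => x (i, j)))) := by
  rw [pderiv_pderiv_rPoly]
  split_ifs
  · exact map_zero _
  · rw [map_Lam, map_mul (MvPolynomial.map (eval x)), map_mul (MvPolynomial.map (eval x)), map_X,
      map_X, map_es]
    simp only [map_lf, eval_X]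

end deriv

/-! ### Column types -/

section types

variable {K : Type u} [Field K] {d : ℕ} [NeZero d] {ζ : K}

theorem zpow_add (hζ : IsPrimitiveRoot ζ d) (a b : ZMod d) :
    ζ ^ (a + b).val = ζ ^ a.val * ζ ^ b.val := by
  have h : ∀ n : ℕ, ζ ^ (n % d) = ζ ^ n := by
    intro n
    conv_lhs => rw [hζ.eq_orderOf]
    exact pow_mod_orderOf ζ n
  rw [ZMod.val_add, h, pow_add]

omit [NeZero d] in
theorem zpow_one (hζ : IsPrimitiveRoot ζ d) : ζ ^ (1 : ZMod d).val = ζ := by
  have h : ∀ n : ℕ, ζ ^ (n % d) = ζ ^ n := by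
    intro n
    conv_lhs => rw [hζ.eq_orderOf]
    exact pow_mod_orderOf ζ n
  rw [ZMod.val_one_eq_one_mod, h, pow_one]

theorem col_pow (hζ : IsPrimitiveRoot ζ d) (π : Fin 2 → Equiv.Perm (ZMod d))
    (r : Fin 2 × ZMod d) : col ζ π r ^ d = 1 := by
  rw [col, ← pow_mul, mul_comm, pow_mul, hζ.pow_eq_one, one_pow]

theorem col_ne_zero (hζ : IsPrimitiveRoot ζ d) (π : Fin 2 → Equiv.Perm (ZMod d))
    (r : Fin 2 × ZMod d) : col ζ π r ≠ 0 := by
  intro h
  have := col_pow hζ π r
  rw [h, zero_pow (NeZero.ne d)] at this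
  exact zero_ne_one this

/-- The column of the identity type. -/
def zc (ζ : K) (r : Fin 2 × ZMod d) : K := ζ ^ r.2.val

/-- The permutation of the rows given by a type. -/
def eTy (π : Fin 2 → Equiv.Perm (ZMod d)) : (Fin 2 × ZMod d) ≃ (Fin 2 × ZMod d) where
  toFun r := (r.1, π r.1 r.2)
  invFun r := (r.1, (π r.1).symm r.2)
  left_inv r := by simp
  right_inv r := by simp

theorem es_neg_col (π : Fin 2 → Equiv.Perm (ZMod d)) (a : ℕ) :
    es univ a (fun r => - col ζ π r) = es univ a (fun r : Fin 2 × ZMod d => - zc ζ r) :=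
  es_equiv (eTy π) a (fun r : Fin 2 × ZMod d => - zc ζ r)

theorem es_neg_zc (hζ : IsPrimitiveRoot ζ d) {a : ℕ} (ha : 0 < a) (had : a < d) :
    es univ a (fun r : Fin 2 × ZMod d => - zc ζ r) = 0 := by
  apply es_eq_zero hζ ha had
  rw [← es_equiv (Equiv.addRight ((0, 1) : Fin 2 × ZMod d)) a
    (fun r : Fin 2 × ZMod d => - zc ζ r)]
  apply es_congr
  intro r _
  simp only [Equiv.coe_addRight, zc, Prod.snd_add]
  rw [zpow_add hζ, zpow_one hζ]
  ring

theorem es_neg_col_eq_zero (hζ : IsPrimitiveRoot ζ d) (π : Fin 2 → Equiv.Perm (ZMod d)) (a : ℕ)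
    (ha : 0 < a) (had : a < d) : es univ a (fun r => - col ζ π r) = 0 := by
  rw [es_neg_col, es_neg_zc hζ ha had]

/-- The linear form of a type. -/
noncomputable def lt (ζ : K) (π : Fin 2 → Equiv.Perm (ZMod d)) :
    MvPolynomial (Fin 2 × ZMod d) K := lf (col ζ π)

theorem neg_lt (π : Fin 2 → Equiv.Perm (ZMod d)) :
    - lt ζ π = lf (fun r => - col ζ π r) := lf_neg _

/-- The shift of types. -/
def shTy (d : ℕ) : (Fin 2 → Equiv.Perm (ZMod d)) ≃ (Fin 2 → Equiv.Perm (ZMod d)) where
  toFun π := fun ε => (π ε).trans (Equiv.addRight 1)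
  invFun π := fun ε => (π ε).trans (Equiv.addRight 1).symm
  left_inv π := by ext; simp
  right_inv π := by ext; simp

theorem lt_shTy (hζ : IsPrimitiveRoot ζ d) (π : Fin 2 → Equiv.Perm (ZMod d)) :
    lt ζ (shTy d π) = C ζ * lt ζ π := by
  rw [lt, lt, lf, lf, mul_sum]
  refine sum_congr rfl fun r _ => ?_
  rw [← mul_assoc, ← C_mul]
  congr 2
  simp only [col, shTy, Equiv.coe_fn_mk, Equiv.trans_apply, Equiv.coe_addRight]
  rw [zpow_add hζ, zpow_one hζ, mul_comm]

/-- Translations of the rows act on types. -/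
def trTy (t : Fin 2 × ZMod d) : (Fin 2 → Equiv.Perm (ZMod d)) ≃ (Fin 2 → Equiv.Perm (ZMod d)) where
  toFun π := fun ε => (Equiv.subRight t.2).trans (π (ε - t.1))
  invFun π := fun ε => (Equiv.addRight t.2).trans (π (ε + t.1))
  left_inv π := by ext; simp
  right_inv π := by ext; simp

theorem rename_lt (t : Fin 2 × ZMod d) (π : Fin 2 → Equiv.Perm (ZMod d)) :
    rename (Equiv.addRight t) (lt ζ π) = lt ζ (trTy t π) := by
  rw [lt, lt, rename_lf]
  congr 1
  funext r
  simp only [col, trTy, Equiv.coe_fn_mk, Equiv.trans_apply, Equiv.subRight_apply]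
  rw [show (Equiv.addRight t).symm r = r - t from by simp [sub_eq_add_neg]]
  rfl

theorem map_types {B : Type v} [Fintype B] {T : Type w} [Fintype T] [DecidableEq T] {ν : ℕ}
    {c : B → T} (hc : ∀ π, (univ.filter (fun j => c j = π)).card = ν) :
    (univ : Finset B).val.map c = ν • (univ : Finset T).val := by
  ext π
  rw [Multiset.count_map, Multiset.count_nsmul,
    Multiset.count_eq_one_of_mem univ.nodup (mem_univ π), mul_one]
  rw [← hc π, card_def, filter_val]
  congr 1
  exact Multiset.filter_congr fun x _ => eq_comm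

theorem map_types_equiv {B : Type v} [Fintype B] {T : Type w} [Fintype T] {ν : ℕ}
    {c : B → T} (hc : (univ : Finset B).val.map c = ν • (univ : Finset T).val) (e : T ≃ T) :
    (univ : Finset B).val.map (fun j => e (c j)) = (univ : Finset B).val.map c := by
  have h : (univ : Finset B).val.map (fun j => e (c j)) =
      ((univ : Finset B).val.map c).map e := by
    rw [Multiset.map_map]; rfl
  rw [h, hc, Multiset.map_nsmul, map_univ_val_equiv]

theorem es_lt_eq_zero (hζ : IsPrimitiveRoot ζ d) {B : Type v} [Fintype B] {ν : ℕ}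
    {c : B → Fin 2 → Equiv.Perm (ZMod d)}
    (hc : (univ : Finset B).val.map c = ν • (univ : Finset (Fin 2 → Equiv.Perm (ZMod d))).val)
    (a : ℕ) (ha : 0 < a) (had : a < d) : es univ a (fun j => lt ζ (c j)) = 0 := by
  apply es_eq_zero (hζ.map_of_injective (MvPolynomial.C_injective (Fin 2 × ZMod d) K)) ha had
  rw [← es_types (map_types_equiv hc (shTy d)) a (fun π => lt ζ π)]
  apply es_congr
  intro j _
  rw [lt_shTy hζ]

theorem Lam_X_es {B : Type v} [Fintype B] {ν : ℕ}
    {c : B → Fin 2 → Equiv.Perm (ZMod d)}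
    (hc : (univ : Finset B).val.map c = ν • (univ : Finset (Fin 2 → Equiv.Perm (ZMod d))).val)
    (k a : ℕ) (i i' : Fin 2 × ZMod d) : Lam k (X i * es univ a (fun j => lt ζ (c j))) =
      Lam k (X i' * es univ a (fun j => lt ζ (c j))) := by
  have h := Lam_rename (Equiv.addRight (i' - i)) k (X i * es univ a (fun j => lt ζ (c j)))
  rw [← h, map_mul, rename_X]
  have h2 : rename (Equiv.addRight (i' - i)) (es univ a (fun j => lt ζ (c j))) =
      es univ a (fun j => rename (Equiv.addRight (i' - i)) (lt ζ (c j))) :=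
    map_es (rename (Equiv.addRight (i' - i)) : MvPolynomial (Fin 2 × ZMod d) K →ₐ[K] _).toRingHom
      univ a _
  rw [h2]
  simp only [rename_lt]
  rw [es_types (map_types_equiv hc (trTy (i' - i))) a (fun π => lt ζ π)]
  congr 3
  simp

theorem Lam_X_pow (hζ : IsPrimitiveRoot ζ d) (π : Fin 2 → Equiv.Perm (ZMod d))
    (i : Fin 2 × ZMod d) : Lam (d + 1) (X i * (- lt ζ π) ^ d) =
      (d ! : K) * (es univ d (fun r : Fin 2 × ZMod d => - zc ζ r) + 1) := by
  rw [Lam_eq_LamS, LamS_X_mul, if_pos (mem_univ i), neg_lt, LamS_lf_pow,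
    es_erase_top (NeZero.pos d) (es_neg_col_eq_zero hζ π), es_neg_col, neg_neg, col_pow hζ]

/-- The other row with the same entry. -/
def partner (π : Fin 2 → Equiv.Perm (ZMod d)) (r : Fin 2 × ZMod d) : Fin 2 × ZMod d :=
  (r.1 + 1, (π (r.1 + 1)).symm (π r.1 r.2))

theorem col_partner (π : Fin 2 → Equiv.Perm (ZMod d)) (r : Fin 2 × ZMod d) :
    col ζ π (partner π r) = col ζ π r := by
  simp [col, partner]

theorem fin2_add_one_add_one (a : Fin 2) : a + 1 + 1 = a := by
  revert a; decide

theorem fin2_add_one_ne (a : Fin 2) : a + 1 ≠ a := by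
  revert a; decide

theorem fin2_eq_or (a b : Fin 2) : a = b ∨ a = b + 1 := by
  revert a b; decide

omit [NeZero d] in
theorem partner_ne (π : Fin 2 → Equiv.Perm (ZMod d)) (r : Fin 2 × ZMod d) :
    partner π r ≠ r := by
  intro h
  exact fin2_add_one_ne r.1 (congrArg Prod.fst h)

omit [NeZero d] in
theorem partner_partner (π : Fin 2 → Equiv.Perm (ZMod d)) (r : Fin 2 × ZMod d) :
    partner π (partner π r) = r := by
  rcases r with ⟨ε, a⟩
  simp only [partner, Equiv.apply_symm_apply, Prod.mk.injEq]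
  refine ⟨fin2_add_one_add_one ε, ?_⟩
  rw [fin2_add_one_add_one ε, Equiv.symm_apply_apply]

theorem eq_partner (hζ : IsPrimitiveRoot ζ d) (π : Fin 2 → Equiv.Perm (ZMod d))
    {r l : Fin 2 × ZMod d} (hl : l ≠ r) (h : col ζ π l = col ζ π r) : l = partner π r := by
  have h1 : π l.1 l.2 = π r.1 r.2 :=
    ZMod.val_injective d (hζ.pow_inj (ZMod.val_lt _) (ZMod.val_lt _) h)
  rcases fin2_eq_or l.1 r.1 with h2 | h2
  · rw [h2] at h1
    exact absurd (Prod.ext h2 ((π r.1).injective h1)) hl
  · refine Prod.ext h2 ?_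
    rw [h2] at h1
    simp only [partner]
    rw [← h1, Equiv.symm_apply_apply]

theorem Lam_X_X_pow (hζ : IsPrimitiveRoot ζ d) (π : Fin 2 → Equiv.Perm (ZMod d))
    (i l : Fin 2 × ZMod d) : Lam (d - 1 + 1 + 1) (X i * (X l * (- lt ζ π) ^ (d - 1))) =
      if l = partner π i then (((d - 1)! * d : ℕ) : K) * col ζ π i ^ (d - 1) else 0 := by
  have hd : 0 < d := NeZero.pos d
  rw [Lam_eq_LamS, LamS_X_mul, if_pos (mem_univ i), LamS_X_mul]
  by_cases hli : l = i
  · rw [if_neg (by rw [hli]; exact notMem_erase _ _), if_neg]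
    rw [hli]
    exact fun h => partner_ne π i h.symm
  · rw [if_pos (mem_erase.2 ⟨hli, mem_univ l⟩), neg_lt, LamS_lf_pow,
      es_erase_two (es_neg_col_eq_zero hζ π) hli (d - 1) (by omega)]
    simp only [neg_neg]
    by_cases hp : l = partner π i
    · rw [if_pos hp, hp, col_partner]
      have h1 : ∀ p ∈ antidiagonal (d - 1), col ζ π i ^ p.1 * col ζ π i ^ p.2 =
          col ζ π i ^ (d - 1) := by
        intro p hp
        rw [← pow_add, mem_antidiagonal.1 hp]
      rw [sum_congr rfl h1, sum_const, Finset.Nat.card_antidiagonal, nsmul_eq_mul,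
        Nat.sub_add_cancel hd]
      push_cast
      ring
    · rw [if_neg hp]
      have hne : col ζ π i - col ζ π l ≠ 0 := by
        intro h
        exact hp (eq_partner hζ π hli (sub_eq_zero.1 h).symm)
      have h0 : (col ζ π i - col ζ π l) *
          ∑ p ∈ antidiagonal (d - 1), col ζ π i ^ p.1 * col ζ π l ^ p.2 = 0 := by
        rw [Finset.Nat.sum_antidiagonal_eq_sum_range_succ
          (fun a b => col ζ π i ^ a * col ζ π l ^ b), Nat.succ_eq_add_one,
          Nat.sub_add_cancel hd, (Commute.all _ _).mul_geom_sum₂, col_pow hζ, col_pow hζ, sub_self]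
      rcases mul_eq_zero.1 h0 with h | h
      · exact absurd h hne
      · rw [h, mul_zero]

end types

/-! ### The kernel of the Hessian -/

section hessian

variable {K : Type u} [Field K] {d : ℕ} [NeZero d]

/-- The matrix which gives the elements of the kernel of the Hessian from their sums over the
columns of equal type. -/
noncomputable def T0 (ζ : K) : Matrix ((Fin 2 → Equiv.Perm (ZMod d)) × (Fin 2 × ZMod d))
    ((Fin 2 → Equiv.Perm (ZMod d)) × (Fin 2 × ZMod d)) K :=
  Matrix.of fun a b => (((d * ((d - 1)! * d) : ℕ) : K) * col ζ a.1 a.2 ^ (d - 1))⁻¹ *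
    ∑ p ∈ antidiagonal (d - 1), Lam (d - 1 + 1 + 1)
      (X (partner a.1 a.2) * ((- lt ζ a.1) ^ p.1 * ((- lt ζ b.1) ^ p.2 * X b.2)))

theorem hess_ker [CharZero K] {ζ : K} (hζ : IsPrimitiveRoot ζ d) {B : Type v} [Fintype B]
    [DecidableEq B] {ν : ℕ} {c : B → Fin 2 → Equiv.Perm (ZMod d)}
    (hc : (univ : Finset B).val.map c = ν • (univ : Finset (Fin 2 → Equiv.Perm (ZMod d))).val)
    (w : (Fin 2 × ZMod d) × B → K)
    (hw : ∀ q : (Fin 2 × ZMod d) × B, ∑ q', w q' * (if q'.2 = q.2 then 0 else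
      Lam (d - 1 + 1 + 1) (X q.1 * (X q'.1 *
        es ((univ.erase q.2).erase q'.2) (d - 1) (fun j => lt ζ (c j))))) = 0)
    (j : B) (r : Fin 2 × ZMod d) :
    w (r, j) = ∑ b, T0 ζ (c j, r) b * ∑ j' with c j' = b.1, w (b.2, j') := by
  classical
  have hd : 0 < d := NeZero.pos d
  set i := partner (c j) r with hi
  have hir : partner (c j) i = r := partner_partner (c j) r
  have hE : ∀ a, 0 < a → a < d → es univ a (fun j => lt ζ (c j)) = 0 :=
    fun a => es_lt_eq_zero hζ hc a
  set N : (Fin 2 → Equiv.Perm (ZMod d)) × (Fin 2 × ZMod d) → K := fun b =>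
    ∑ p ∈ antidiagonal (d - 1), Lam (d - 1 + 1 + 1)
      (X i * ((- lt ζ (c j)) ^ p.1 * ((- lt ζ b.1) ^ p.2 * X b.2))) with hN
  -- the terms of the kernel equation
  have hterm : ∀ q' : (Fin 2 × ZMod d) × B, q'.2 ≠ j → Lam (d - 1 + 1 + 1) (X i * (X q'.1 *
      es ((univ.erase j).erase q'.2) (d - 1) (fun j => lt ζ (c j)))) = N (c q'.2, q'.1) := by
    intro q' hq'
    rw [es_erase_two hE hq' (d - 1) (by omega), hN, mul_sum, mul_sum, map_sum]
    refine sum_congr rfl fun p _ => ?_
    congr 1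
    ring
  have h1 := hw (i, j)
  have h2 : ∑ q', w q' * N (c q'.2, q'.1) = ∑ q', if q'.2 = j then w q' * N (c q'.2, q'.1) else 0 := by
    rw [← sub_eq_zero, ← sum_sub_distrib]
    refine Eq.trans (sum_congr rfl fun q' _ => ?_) h1
    by_cases hq' : q'.2 = j
    · rw [if_pos hq', if_pos hq', mul_zero, sub_self]
    · rw [if_neg hq', if_neg hq', sub_zero, hterm q' hq']
  have h3 : ∑ q', (if q'.2 = j then w q' * N (c q'.2, q'.1) else 0) =
      ∑ l, w (l, j) * N (c j, l) := by
    rw [Fintype.sum_prod_type]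
    refine sum_congr rfl fun l _ => ?_
    simp
  have h4 : ∀ l, N (c j, l) = if l = r then
      ((d * ((d - 1)! * d) : ℕ) : K) * col ζ (c j) r ^ (d - 1) else 0 := by
    intro l
    have h5 : ∀ p ∈ antidiagonal (d - 1), Lam (d - 1 + 1 + 1)
        (X i * ((- lt ζ (c j)) ^ p.1 * ((- lt ζ (c j)) ^ p.2 * X l))) =
        if l = r then (((d - 1)! * d : ℕ) : K) * col ζ (c j) r ^ (d - 1) else 0 := by
      intro p hp
      have h6 : (X i * ((- lt ζ (c j)) ^ p.1 * ((- lt ζ (c j)) ^ p.2 * X l)) :
          MvPolynomial (Fin 2 × ZMod d) K) = X i * (X l * (- lt ζ (c j)) ^ (d - 1)) := by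
        rw [← mem_antidiagonal.1 hp, pow_add]
        ring
      rw [h6, Lam_X_X_pow hζ, hir, hi, col_partner]
    rw [hN]
    simp only
    rw [sum_congr rfl h5, sum_const, Finset.Nat.card_antidiagonal, nsmul_eq_mul,
      Nat.sub_add_cancel hd]
    split_ifs
    · push_cast
      ring
    · rw [mul_zero]
  have h7 : ∑ l, w (l, j) * N (c j, l) =
      w (r, j) * (((d * ((d - 1)! * d) : ℕ) : K) * col ζ (c j) r ^ (d - 1)) := by
    simp only [h4, mul_ite, mul_zero, sum_ite_eq', mem_univ, if_true]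
  have h8 : ∑ q', w q' * N (c q'.2, q'.1) = ∑ b, N b * ∑ j' with c j' = b.1, w (b.2, j') := by
    have h9 : ∀ b : (Fin 2 → Equiv.Perm (ZMod d)) × (Fin 2 × ZMod d),
        N b * ∑ j' with c j' = b.1, w (b.2, j') =
          ∑ j', if c j' = b.1 then N b * w (b.2, j') else 0 := by
      intro b
      rw [sum_filter, mul_sum]
      refine sum_congr rfl fun j' _ => ?_
      rw [mul_ite, mul_zero]
    rw [sum_congr rfl fun b _ => h9 b]
    have h10 : ∑ q', w q' * N (c q'.2, q'.1) = ∑ l, ∑ j', w (l, j') * N (c j', l) :=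
      Fintype.sum_prod_type _
    have h11 : (∑ b : (Fin 2 → Equiv.Perm (ZMod d)) × (Fin 2 × ZMod d),
        ∑ j', if c j' = b.1 then N b * w (b.2, j') else 0) =
        ∑ π, ∑ l, ∑ j', if c j' = π then N (π, l) * w (l, j') else 0 :=
      Fintype.sum_prod_type _
    rw [h10, h11, sum_comm (f := fun π l => ∑ j', if c j' = π then N (π, l) * w (l, j') else 0)]
    refine sum_congr rfl fun l _ => ?_
    rw [sum_comm (f := fun π j' => if c j' = π then N (π, l) * w (l, j') else 0)]
    refine sum_congr rfl fun j' _ => ?_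
    rw [sum_ite_eq, if_pos (mem_univ _), mul_comm]
  rw [h8, h3, h7] at h2
  have hne : ((d * ((d - 1)! * d) : ℕ) : K) * col ζ (c j) r ^ (d - 1) ≠ 0 := by
    refine mul_ne_zero ?_ (pow_ne_zero _ (col_ne_zero hζ _ _))
    rw [Nat.cast_ne_zero]
    exact (Nat.mul_pos hd (Nat.mul_pos (Nat.factorial_pos _) hd)).ne'
  rw [eq_comm, ← eq_mul_inv_iff_mul_eq₀ hne] at h2
  rw [h2, sum_mul]
  refine sum_congr rfl fun b _ => ?_
  rw [T0, Matrix.of_apply]
  ring

/-- M9. Many nondegenerate critical points of `r_{d+1}` on `2d × ν (d!)^2` matrices. -/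
theorem crit {K : Type u} [Field K] [CharZero K] {d : ℕ} [NeZero d] {ζ : K}
    (hζ : IsPrimitiveRoot ζ d) :
    ∃ bad : Finset ℕ, bad.card ≤ 2 * d * (d !) ^ 2 ∧ ∀ ν, ν ∉ bad → 0 < ν → ∀ M,
      M = ν * (d !) ^ 2 → ∃ b : K, ∀ c : Fin M → (Fin 2 → Equiv.Perm (ZMod d)),
        (∀ π, (univ.filter (fun j => c j = π)).card = ν) →
        (∀ q, eval (fun q : (Fin 2 × ZMod d) × Fin M => col ζ (c q.2) q.1)
          (pderiv q (rPoly (Fin 2 × ZMod d) (Fin M) K (d + 1))) = b) ∧
        (∀ w : (Fin 2 × ZMod d) × Fin M → K,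
          (∀ q, ∑ q', w q' * eval (fun q : (Fin 2 × ZMod d) × Fin M => col ζ (c q.2) q.1)
            (pderiv q' (pderiv q (rPoly (Fin 2 × ZMod d) (Fin M) K (d + 1)))) = 0) → w = 0) := by
  classical
  have hd : 0 < d := NeZero.pos d
  have hinj : Function.Injective (fun ν : ℕ => ((ν : K))⁻¹) := fun a b h =>
    Nat.cast_injective (inv_injective h)
  refine ⟨((T0 (d := d) ζ).charpoly.roots.toFinset).preimage (fun ν : ℕ => ((ν : K))⁻¹)
    hinj.injOn, ?_, ?_⟩
  · rw [card_preimage]
    refine (card_filter_le _ _).trans ((Multiset.toFinset_card_le _).trans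
      ((Polynomial.card_roots' _).trans ?_))
    rw [Matrix.charpoly_natDegree_eq_dim]
    simp only [Fintype.card_prod, Fintype.card_pi, Fintype.card_perm, ZMod.card, Fintype.card_fin,
      prod_const, card_univ]
    exact le_of_eq (by ring)
  · intro ν hν hν0 M _
    by_cases hex : ∃ c₀ : Fin M → (Fin 2 → Equiv.Perm (ZMod d)),
        ∀ π, (univ.filter (fun j => c₀ j = π)).card = ν
    swap
    · exact ⟨0, fun c hc => absurd ⟨c, hc⟩ hex⟩
    obtain ⟨c₀, hc₀⟩ := hex
    have hc₀' := map_types hc₀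
    refine ⟨Lam (d + 1) (X 0 * es univ d (fun j => lt ζ (c₀ j))) +
      (d ! : K) * (es univ d (fun r : Fin 2 × ZMod d => - zc ζ r) + 1), fun c hc => ?_⟩
    have hc' := map_types hc
    refine ⟨fun q => ?_, fun w hw => ?_⟩
    · rw [eval_pderiv_rPoly]
      have h1 : (fun j => lf fun i => col ζ (c ((i, j) : (Fin 2 × ZMod d) × Fin M).2)
          ((i, j) : (Fin 2 × ZMod d) × Fin M).1) = fun j => lt ζ (c j) := rfl
      rw [h1, es_erase_top hd (es_lt_eq_zero hζ hc'), mul_add, map_add, Lam_X_pow hζ,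
        Lam_X_es hc' (d + 1) d q.1 0, es_types (hc'.trans hc₀'.symm) d (fun π => lt ζ π)]
    · have hd1 : d + 1 = d - 1 + 1 + 1 := by omega
      have hker : ∀ (j : Fin M) (r : Fin 2 × ZMod d),
          w (r, j) = ∑ b, T0 ζ (c j, r) b * ∑ j' with c j' = b.1, w (b.2, j') := by
        refine hess_ker hζ hc' w fun q => ?_
        refine Eq.trans (sum_congr rfl fun q' _ => ?_) (hw q)
        rw [hd1, eval_pderiv_pderiv_rPoly]
        rfl
      set wb : (Fin 2 → Equiv.Perm (ZMod d)) × (Fin 2 × ZMod d) → K :=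
        fun b => ∑ j' with c j' = b.1, w (b.2, j') with hwb
      have h2 : wb = (ν : K) • (T0 ζ).mulVec wb := by
        funext a
        have : wb a = ∑ j' with c j' = a.1, w (a.2, j') := rfl
        rw [this]
        have h3 : ∀ j' ∈ univ.filter (fun j' => c j' = a.1), w (a.2, j') =
            (T0 ζ).mulVec wb a := by
          intro j' hj'
          rw [hker j' a.2, (mem_filter.1 hj').2]
          rfl
        rw [sum_congr rfl h3, sum_const, hc a.1, nsmul_eq_mul]
        rfl
      have hνK : (ν : K) ≠ 0 := Nat.cast_ne_zero.2 hν0.ne'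
      have hwb0 : wb = 0 := by
        by_contra hne
        apply hν
        rw [mem_preimage, Multiset.mem_toFinset, Polynomial.mem_roots
          (Matrix.charpoly_monic _).ne_zero, Polynomial.IsRoot.def, Matrix.eval_charpoly,
          ← Matrix.exists_mulVec_eq_zero_iff]
        refine ⟨wb, hne, ?_⟩
        rw [Matrix.sub_mulVec]
        have h4 : (Matrix.scalar _ ((ν : K)⁻¹)).mulVec wb = (ν : K)⁻¹ • wb := by
          rw [Matrix.scalar_apply]
          funext a
          simp [Matrix.mulVec_diagonal]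
        have h5 : (ν : K)⁻¹ • wb = (T0 ζ).mulVec wb := by
          rw [eq_comm, eq_inv_smul_iff₀ hνK]
          exact h2.symm
        rw [h4, h5, sub_self]
      funext q
      rw [show q = (q.1, q.2) from rfl, hker q.2 q.1]
      refine sum_eq_zero fun b _ => ?_
      have : ∑ j' with c j' = b.1, w (b.2, j') = wb b := rfl
      rw [this, hwb0]
      simp

end hessian

end Pool.Agent.H10.PerSL
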