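import Mathlib

/-!
# MP_9ce8c8_lc: superlinear approximative complexity of the permanent. Definitions

* `affine`, `Reach`: the nonscalar model (multiplications only; linear combinations are free);
* `es`, `lf`, `Lam`, `rk`: sums of subpermanents `r_k(X)` through a linear functional on
  polynomials in auxiliary variables (one for each row);
* `gad`: the block matrix whose permanent degenerates to a sum of such polynomials.
-/

namespace Pool.Agent.H10.PerSL

open MvPolynomial Finset

universe u v v' w

/-! ### The nonscalar model -/

/-- The span of the constant `1` and the variables. -/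
noncomputable def affine (K : Type u) (τ : Type v) [Field K] : Submodule K (MvPolynomial τ K) :=
  Submodule.span K (insert 1 (Set.range X))

/-- `Reach r V`: `V` is the span of `1`, the variables and the results of `r` multiplications, the
factors of each being linear combinations of `1`, the variables and earlier results. -/
inductive Reach {K : Type u} {τ : Type v} [Field K] :
    ℕ → Submodule K (MvPolynomial τ K) → Prop
  | zero : Reach 0 (affine K τ)
  | step {r : ℕ} {V : Submodule K (MvPolynomial τ K)} {a b : MvPolynomial τ K} :
      Reach r V → a ∈ V → b ∈ V → Reach (r + 1) (V ⊔ Submodule.span K {a * b})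

/-! ### Elementary symmetric sums, linear forms, sums of subpermanents -/

/-- The `a`-th elementary symmetric function of the elements `f j`, `j ∈ s`. -/
def es {B : Type v} {S : Type w} [CommSemiring S] (s : Finset B) (a : ℕ) (f : B → S) : S :=
  ∑ C ∈ s.powersetCard a, ∏ j ∈ C, f j

/-- The linear form with coefficients `y i` in auxiliary variables indexed by `ρ`. -/
noncomputable def lf {ρ : Type v} {R : Type w} [Fintype ρ] [CommSemiring R] (y : ρ → R) :
    MvPolynomial ρ R := ∑ i, C (y i) * X i

/-- The sum of the coefficients of the squarefree monomials of degree `k`. -/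
noncomputable def Lam {ρ : Type v} {R : Type w} [Fintype ρ] [CommSemiring R] (k : ℕ) :
    MvPolynomial ρ R →ₗ[R] R :=
  ∑ T ∈ (univ : Finset ρ).powersetCard k, lcoeff R (∑ i ∈ T, Finsupp.single i 1)

/-- `r_k(x)`: the sum of the permanents of all `k × k` submatrices of the matrix `x`. -/
noncomputable def rk {ρ : Type v} {B : Type v'} {R : Type w} [Fintype ρ] [Fintype B]
    [CommSemiring R] (k : ℕ) (x : ρ → B → R) : R :=
  Lam k (es (univ : Finset B) k (fun j => lf (fun i => x i j)))

/-- `r_k` as a polynomial in the entries. -/
noncomputable def rPoly (ρ : Type v) (B : Type v') (R : Type w) [Fintype ρ] [Fintype B] [CommSemiring R]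
    (k : ℕ) : MvPolynomial (ρ × B) R :=
  rk k (fun i j => X (i, j))

/-! ### The gadget -/

/-- The gadget: a square matrix with `g * card ρ + M + e` rows, `card ρ = a + k`. -/
def gad {ρ : Type v} {K : Type u} {R : Type w} [Field K] [CommRing R] [Algebra K R]
    {g a k M e : ℕ} (ζ : K) (t : R) (x : Fin g → ρ → Fin M → R) :
    (Fin g × ρ) ⊕ (Fin M ⊕ Fin e) → (Fin g × (Fin a ⊕ Fin k)) ⊕ (Fin M ⊕ Fin e) → R
  | Sum.inl (s, _), Sum.inl (s', Sum.inl _) => if s = s' then 1 else 0
  | Sum.inl (s, _), Sum.inl (s', Sum.inr v) =>
      if s = s' then -(algebraMap K R (ζ ^ (v : ℕ))) else 0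
  | Sum.inl (s, i), Sum.inr (Sum.inl j) => t * x s i j
  | Sum.inl _, Sum.inr (Sum.inr _) => 0
  | Sum.inr _, Sum.inl (_, Sum.inl _) => 0
  | Sum.inr _, Sum.inl (_, Sum.inr _) => 1
  | Sum.inr _, Sum.inr _ => 1

/-! ### The column types -/

/-- The column of type `π`: the entry in row `(ε, a)` is `ζ ^ π_ε(a)`. Every `d`-th root of unity
occurs exactly twice in the column, once in each half. -/
def col {K : Type u} [Field K] {d : ℕ} [NeZero d] (ζ : K)
    (π : Fin 2 → Equiv.Perm (ZMod d)) (r : Fin 2 × ZMod d) : K :=
  ζ ^ (π r.1 r.2).val

end Pool.Agent.H10.PerSL
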