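import Pool.Agent.H10.PerSL.Defs

/-!
# M3. Multivariate Hensel lemma over power series, by the simplified Newton iteration
-/

namespace Pool.Agent.H10.PerSL

open MvPolynomial Finset

universe u v

/-- First order Taylor expansion: the error is divisible by `d * d` if all increments are divisible
by `d`. -/
theorem taylor_dvd {R : Type u} [CommRing R] {κ : Type v} [Fintype κ] [DecidableEq κ]
    (P : MvPolynomial κ R) (q h : κ → R) (d : R) (hd : ∀ j, d ∣ h j) :
    d * d ∣ eval (q + h) P - eval q P - ∑ j, h j * eval q (pderiv j P) := by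
  induction P using MvPolynomial.induction_on with
  | C a => simp
  | add P Q hP hQ =>
    have : eval (q + h) (P + Q) - eval q (P + Q) - ∑ j, h j * eval q (pderiv j (P + Q)) =
        (eval (q + h) P - eval q P - ∑ j, h j * eval q (pderiv j P)) +
        (eval (q + h) Q - eval q Q - ∑ j, h j * eval q (pderiv j Q)) := by
      simp only [map_add, mul_add, sum_add_distrib]
      ring
    rw [this]
    exact dvd_add hP hQ
  | mul_X P i hP =>
    have hsum : ∑ j, h j * eval q (pderiv j (P * X i)) =
        (∑ j, h j * eval q (pderiv j P)) * q i + h i * eval q P := by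
      have : ∀ j, h j * eval q (pderiv j (P * X i)) =
          h j * eval q (pderiv j P) * q i + (if j = i then h i * eval q P else 0) := by
        intro j
        rw [Derivation.leibniz, pderiv_X]
        by_cases hji : j = i
        · subst hji
          simp [smul_eq_mul]
          ring
        · simp [smul_eq_mul, hji, Ne.symm hji]
          ring
      rw [sum_congr rfl fun j _ => this j, sum_add_distrib, ← sum_mul]
      simp
    have hS : d ∣ ∑ j, h j * eval q (pderiv j P) :=
      dvd_sum fun j _ => dvd_mul_of_dvd_left (hd j) _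
    have : eval (q + h) (P * X i) - eval q (P * X i) - ∑ j, h j * eval q (pderiv j (P * X i)) =
        (eval (q + h) P - eval q P - ∑ j, h j * eval q (pderiv j P)) * (q i + h i) +
        (∑ j, h j * eval q (pderiv j P)) * h i := by
      rw [hsum]
      simp only [map_mul, eval_X, Pi.add_apply]
      ring
    rw [this]
    exact dvd_add (dvd_mul_of_dvd_left hP _) (mul_dvd_mul hS (hd i))

/-- Evaluations at congruent points are congruent. -/
theorem eval_sub_dvd {R : Type u} [CommRing R] {κ : Type v}
    (P : MvPolynomial κ R) (q q' : κ → R) (d : R) (hd : ∀ j, d ∣ q' j - q j) :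
    d ∣ eval q' P - eval q P := by
  induction P using MvPolynomial.induction_on with
  | C a => simp
  | add P Q hP hQ =>
    have : eval q' (P + Q) - eval q (P + Q) =
        (eval q' P - eval q P) + (eval q' Q - eval q Q) := by
      simp only [map_add]; ring
    rw [this]; exact dvd_add hP hQ
  | mul_X P i hP =>
    have : eval q' (P * X i) - eval q (P * X i) =
        (eval q' P - eval q P) * q' i + eval q P * (q' i - q i) := by
      simp only [map_mul, eval_X]; ring
    rw [this]
    exact dvd_add (dvd_mul_of_dvd_left hP _) (dvd_mul_of_dvd_right (hd i) _)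

theorem constantCoeff_eval {K : Type u} [Field K] {κ : Type v}
    (P : MvPolynomial κ (PowerSeries K)) (q : κ → PowerSeries K) :
    PowerSeries.constantCoeff (eval q P) =
      eval (fun i => PowerSeries.constantCoeff (q i))
        (map (PowerSeries.constantCoeff (R := K)) P) := by
  rw [eval_map, ← eval₂_id, eval₂_comp_left]
  rfl

/-- M3. Multivariate Hensel over power series. -/
theorem hensel {K : Type u} [Field K] {κ : Type v} [Fintype κ] [DecidableEq κ]
    (F : κ → MvPolynomial κ (PowerSeries K)) (p : κ → K)
    (h0 : ∀ i, eval p (map (PowerSeries.constantCoeff (R := K)) (F i)) = 0)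
    (hdet : (Matrix.of fun i j =>
      eval p (pderiv j (map (PowerSeries.constantCoeff (R := K)) (F i)))).det ≠ 0) :
    ∃ q : κ → PowerSeries K, (∀ i, eval q (F i) = 0) ∧
      ∀ i, PowerSeries.constantCoeff (q i) = p i := by
  classical
  set J : Matrix κ κ K := Matrix.of fun i j =>
      eval p (pderiv j (map (PowerSeries.constantCoeff (R := K)) (F i))) with hJ
  have hinv : J⁻¹ * J = 1 := Matrix.nonsing_inv_mul _ (isUnit_iff_ne_zero.2 hdet)
  -- the iteration
  let N : (κ → PowerSeries K) → (κ → PowerSeries K) := fun q i =>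
    q i - ∑ k, PowerSeries.C (J⁻¹ i k) * eval q (F k)
  -- contraction
  have hN : ∀ (n : ℕ) (q q' : κ → PowerSeries K), (∀ i, PowerSeries.constantCoeff (q i) = p i) →
      (∀ i, (PowerSeries.X : PowerSeries K) ^ (n + 1) ∣ q' i - q i) →
      ∀ i, (PowerSeries.X : PowerSeries K) ^ (n + 2) ∣ N q' i - N q i := by
    intro n q q' hq hd i
    set h : κ → PowerSeries K := fun j => q' j - q j with hh
    have hq' : q' = q + h := by ext1 j; simp [hh]
    have hT : ∀ k, ∃ E, eval q' (F k) = eval q (F k) + ∑ j, h j * eval q (pderiv j (F k)) +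
        (PowerSeries.X : PowerSeries K) ^ (n + 1) * (PowerSeries.X : PowerSeries K) ^ (n + 1) * E := by
      intro k
      obtain ⟨E, hE⟩ := taylor_dvd (F k) q h _ hd
      refine ⟨E, ?_⟩
      rw [hq', ← hE]; ring
    choose E hE using hT
    have hB : ∀ j, (PowerSeries.X : PowerSeries K) ∣
        (if i = j then 1 else 0) - ∑ k, PowerSeries.C (J⁻¹ i k) * eval q (pderiv j (F k)) := by
      intro j
      rw [PowerSeries.X_dvd_iff]
      have h1 := congrFun (congrFun hinv i) j
      rw [Matrix.mul_apply, Matrix.one_apply] at h1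
      rw [map_sub, map_sum]
      have h2 : ∀ k, PowerSeries.constantCoeff (PowerSeries.C (J⁻¹ i k) * eval q (pderiv j (F k))) =
          J⁻¹ i k * J k j := by
        intro k
        rw [map_mul, PowerSeries.constantCoeff_C, constantCoeff_eval, hJ, Matrix.of_apply]
        congr 1
        rw [pderiv_map]
        congr 2
        funext i'
        exact hq i'
      rw [sum_congr rfl fun k _ => h2 k, h1]
      split_ifs <;> simp
    have hkey : N q' i - N q i =
        (∑ j, ((if i = j then 1 else 0) - ∑ k, PowerSeries.C (J⁻¹ i k) * eval q (pderiv j (F k))) *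
          h j) - ∑ k, PowerSeries.C (J⁻¹ i k) *
          ((PowerSeries.X : PowerSeries K) ^ (n + 1) * (PowerSeries.X : PowerSeries K) ^ (n + 1) *
            E k) := by
      have e1 : ∑ k, PowerSeries.C (J⁻¹ i k) * eval q' (F k) =
          ∑ k, PowerSeries.C (J⁻¹ i k) * eval q (F k) +
          ∑ j, (∑ k, PowerSeries.C (J⁻¹ i k) * eval q (pderiv j (F k))) * h j +
          ∑ k, PowerSeries.C (J⁻¹ i k) *
          ((PowerSeries.X : PowerSeries K) ^ (n + 1) * (PowerSeries.X : PowerSeries K) ^ (n + 1) *
            E k) := by
        have e2 : ∑ j, (∑ k, PowerSeries.C (J⁻¹ i k) * eval q (pderiv j (F k))) * h j =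
            ∑ k, PowerSeries.C (J⁻¹ i k) * ∑ j, h j * eval q (pderiv j (F k)) := by
          simp only [sum_mul, mul_sum]
          rw [sum_comm]
          refine sum_congr rfl fun k _ => sum_congr rfl fun j _ => by ring
        rw [e2, ← sum_add_distrib, ← sum_add_distrib]
        refine sum_congr rfl fun k _ => ?_
        rw [hE k]; ring
      have e3 : ∑ j, ((if i = j then 1 else 0) -
          ∑ k, PowerSeries.C (J⁻¹ i k) * eval q (pderiv j (F k))) * h j =
          h i - ∑ j, (∑ k, PowerSeries.C (J⁻¹ i k) * eval q (pderiv j (F k))) * h j := by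
        simp only [sub_mul, sum_sub_distrib]
        simp
      rw [e3]
      simp only [N]
      rw [e1]
      simp only [hh]
      ring
    rw [hkey]
    refine dvd_sub (dvd_sum fun j _ => ?_) (dvd_sum fun k _ => ?_)
    · rw [show n + 2 = 1 + (n + 1) by ring, pow_add, pow_one]
      exact mul_dvd_mul (hB j) (hd j)
    · refine dvd_mul_of_dvd_right (dvd_mul_of_dvd_left ?_ _) _
      rw [← pow_add]
      exact pow_dvd_pow _ (by omega)
  -- the Newton sequence
  let s : ℕ → κ → PowerSeries K := fun n => Nat.rec (fun i => PowerSeries.C (p i)) (fun _ q => N q) n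
  have s0 : s 0 = fun i => PowerSeries.C (p i) := rfl
  have sS : ∀ n, s (n + 1) = N (s n) := fun n => rfl
  have hcc : ∀ q : κ → PowerSeries K, (∀ i, PowerSeries.constantCoeff (q i) = p i) →
      ∀ i, PowerSeries.constantCoeff (eval q (F i)) = 0 := by
    intro q hq i
    rw [constantCoeff_eval, show (fun i => PowerSeries.constantCoeff (q i)) = p from funext hq]
    exact h0 i
  have hp : ∀ n i, PowerSeries.constantCoeff (s n i) = p i := by
    intro n
    induction n with
    | zero => intro i; simp [s0]
    | succ n ih =>
      intro i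
      rw [sS]
      simp only [N, map_sub, map_sum, map_mul]
      rw [sum_eq_zero, sub_zero, ih]
      intro k _
      rw [hcc _ ih, mul_zero]
  have hstep : ∀ n i, (PowerSeries.X : PowerSeries K) ^ (n + 1) ∣ s (n + 1) i - s n i := by
    intro n
    induction n with
    | zero =>
      intro i
      rw [zero_add, pow_one, PowerSeries.X_dvd_iff, map_sub, hp, hp, sub_self]
    | succ n ih =>
      intro i
      rw [sS (n + 1), sS n]
      exact hN n _ _ (hp n) ih i
  have hmono : ∀ m n i, m ≤ n → (PowerSeries.X : PowerSeries K) ^ (m + 1) ∣ s n i - s m i := by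
    intro m n i hmn
    induction n, hmn using Nat.le_induction with
    | base => simp
    | succ n hn ih =>
      have : s (n + 1) i - s m i = (s (n + 1) i - s n i) + (s n i - s m i) := by ring
      rw [this]
      exact dvd_add (dvd_trans (pow_dvd_pow _ (by omega)) (hstep n i)) ih
  -- the limit
  let q : κ → PowerSeries K := fun i => PowerSeries.mk fun m => PowerSeries.coeff m (s m i)
  have hq : ∀ m i, (PowerSeries.X : PowerSeries K) ^ (m + 1) ∣ q i - s m i := by
    intro m i
    rw [PowerSeries.X_pow_dvd_iff]
    intro k hk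
    rw [map_sub, PowerSeries.coeff_mk]
    have := (PowerSeries.X_pow_dvd_iff.1 (hmono k m i (by omega))) k (by omega)
    rw [map_sub] at this
    linear_combination -this
  have hF : ∀ m i, (PowerSeries.X : PowerSeries K) ^ (m + 1) ∣ eval (s m) (F i) := by
    intro m i
    -- `J⁻¹ F(s m)` is divisible, hence so is `F(s m)`
    have h1 : ∀ i, (PowerSeries.X : PowerSeries K) ^ (m + 1) ∣
        ∑ k, PowerSeries.C (J⁻¹ i k) * eval (s m) (F k) := by
      intro i
      have := hstep m i
      rw [sS] at this
      simp only [N] at this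
      have e : s m i - ∑ k, PowerSeries.C (J⁻¹ i k) * eval (s m) (F k) - s m i =
        -∑ k, PowerSeries.C (J⁻¹ i k) * eval (s m) (F k) := by ring
      rw [e] at this
      exact (dvd_neg.1 this)
    have hinv' : J * J⁻¹ = 1 := Matrix.mul_nonsing_inv _ (isUnit_iff_ne_zero.2 hdet)
    have h2 : eval (s m) (F i) = ∑ l, PowerSeries.C (J i l) *
        ∑ k, PowerSeries.C (J⁻¹ l k) * eval (s m) (F k) := by
      have e1 : ∑ l, PowerSeries.C (J i l) * ∑ k, PowerSeries.C (J⁻¹ l k) * eval (s m) (F k) =
          ∑ k, PowerSeries.C ((J * J⁻¹) i k) * eval (s m) (F k) := by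
        simp only [mul_sum]
        rw [sum_comm]
        refine sum_congr rfl fun k _ => ?_
        rw [Matrix.mul_apply, map_sum, sum_mul]
        refine sum_congr rfl fun l _ => ?_
        rw [map_mul]; ring
      rw [e1, hinv']
      simp [Matrix.one_apply]
    rw [h2]
    exact dvd_sum fun l _ => dvd_mul_of_dvd_right (h1 l) _
  refine ⟨q, fun i => ?_, fun i => ?_⟩
  · ext m
    have h1 : (PowerSeries.X : PowerSeries K) ^ (m + 1) ∣ eval q (F i) := by
      have h2 := eval_sub_dvd (F i) (s m) q _ (hq m)
      have h3 := dvd_add h2 (hF m i)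
      rwa [sub_add_cancel] at h3
    rw [PowerSeries.X_pow_dvd_iff] at h1
    rw [h1 m (by omega), map_zero]
  · have h1 := hq 0 i
    rw [zero_add, pow_one, PowerSeries.X_dvd_iff, map_sub, hp] at h1
    exact sub_eq_zero.1 h1

end Pool.Agent.H10.PerSL
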