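import Pool.Agent.H10.PerSL.Dual
import Pool.Agent.H10.PerSL.BaurStrassen
import Pool.Agent.H10.PerSL.Hensel
import Pool.Agent.H10.PerSL.Bezout

/-! The degree bound in the nonscalar model, and its approximative form. -/

namespace Pool.Agent.H10.PerSL

open MvPolynomial Finset

universe u v w

theorem aeval_eq_eval' {K : Type u} {σ : Type v} [CommRing K] (p : σ → K)
    (q : MvPolynomial σ K) : aeval p q = eval p q := by
  rw [← coe_aeval_eq_eval]
  rfl

/-- A computation with `r` multiplications as a system of `r` quadrics. -/
theorem reach_quadrics {K : Type u} {τ : Type v} [Field K] {r : ℕ}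
    {V : Submodule K (MvPolynomial τ K)} (hV : Reach r V) :
    ∃ (ι : Type) (_ : Fintype ι) (_ : DecidableEq ι) (A B : ι → MvPolynomial (τ ⊕ ι) K)
      (G : ι → MvPolynomial τ K), Fintype.card ι = r ∧
      (∀ j, (A j).totalDegree ≤ 1 ∧ (B j).totalDegree ≤ 1) ∧
      (∀ v ∈ V, ∃ ℓ : MvPolynomial (τ ⊕ ι) K, ℓ.totalDegree ≤ 1 ∧
        aeval (Sum.elim X G) ℓ = v) ∧
      (∀ (R : Type u) [CommRing R] [Algebra K R] (x : τ → R) (y : ι → R),
        (∀ j, y j = aeval (Sum.elim x y) (A j * B j)) ↔ ∀ j, y j = aeval x (G j)) := by
  induction hV with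
  | zero =>
    refine ⟨Empty, inferInstance, inferInstance, fun j => j.elim, fun j => j.elim,
      fun j => j.elim, rfl, fun j => j.elim, ?_, fun R _ _ x y => ⟨fun _ j => j.elim,
      fun _ j => j.elim⟩⟩
    intro v hv
    induction hv using Submodule.span_induction with
    | mem x hx =>
      rcases hx with rfl | ⟨j, rfl⟩
      · exact ⟨1, by simp, by simp⟩
      · exact ⟨X (Sum.inl j), by simp, by simp⟩
    | zero => exact ⟨0, by simp, by simp⟩
    | add x y _ _ hx hy =>
      obtain ⟨ℓ, h1, h2⟩ := hx
      obtain ⟨ℓ', h1', h2'⟩ := hy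
      exact ⟨ℓ + ℓ', (totalDegree_add _ _).trans (max_le h1 h1'), by rw [map_add, h2, h2']⟩
    | smul c x _ hx =>
      obtain ⟨ℓ, h1, h2⟩ := hx
      exact ⟨c • ℓ, (totalDegree_smul_le _ _).trans h1, by rw [map_smul, h2]⟩
  | @step r V a b hV ha hb ih =>
    obtain ⟨ι, _, _, A, B, G, hcard, hdeg, hVℓ, hP⟩ := ih
    obtain ⟨ℓa, ha1, ha2⟩ := hVℓ a ha
    obtain ⟨ℓb, hb1, hb2⟩ := hVℓ b hb
    let emb : τ ⊕ ι → τ ⊕ Option ι := Sum.map id some
    have hemb : ∀ (R : Type (max u v)) [CommRing R] [Algebra K R] (x : τ → R)
        (y : Option ι → R) (p : MvPolynomial (τ ⊕ ι) K),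
        aeval (Sum.elim x y) (rename emb p) = aeval (Sum.elim x (fun j => y (some j))) p := by
      intro R _ _ x y p
      rw [aeval_rename]
      congr 2
      funext i
      rcases i with i | i <;> rfl
    have hemb' : ∀ (R : Type u) [CommRing R] [Algebra K R] (x : τ → R)
        (y : Option ι → R) (p : MvPolynomial (τ ⊕ ι) K),
        aeval (Sum.elim x y) (rename emb p) = aeval (Sum.elim x (fun j => y (some j))) p := by
      intro R _ _ x y p
      rw [aeval_rename]
      congr 2
      funext i
      rcases i with i | i <;> rfl
    refine ⟨Option ι, inferInstance, inferInstance,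
      fun j => j.elim (rename emb ℓa) (fun j => rename emb (A j)),
      fun j => j.elim (rename emb ℓb) (fun j => rename emb (B j)),
      fun j => j.elim (a * b) G, by simp [hcard], ?_, ?_, ?_⟩
    · rintro (_ | j)
      · exact ⟨(totalDegree_rename_le _ _).trans ha1, (totalDegree_rename_le _ _).trans hb1⟩
      · exact ⟨(totalDegree_rename_le _ _).trans (hdeg j).1,
          (totalDegree_rename_le _ _).trans (hdeg j).2⟩
    · intro v hv
      obtain ⟨v', hv', w, hw, rfl⟩ := Submodule.mem_sup.1 hv
      obtain ⟨κ, rfl⟩ := Submodule.mem_span_singleton.1 hw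
      obtain ⟨ℓ, h1, h2⟩ := hVℓ v' hv'
      refine ⟨rename emb ℓ + κ • X (Sum.inr none), ?_, ?_⟩
      · refine (totalDegree_add _ _).trans (max_le ((totalDegree_rename_le _ _).trans h1) ?_)
        exact (totalDegree_smul_le _ _).trans (by simp)
      · rw [map_add, map_smul, aeval_X, hemb]
        simp only [Sum.elim_inr, Option.elim_none]
        rw [← h2]
        rfl
    · intro R _ _ x y
      have hPy := hP R x (fun j => y (some j))
      constructor
      · intro h
        have hs : ∀ j, y (some j) = aeval x (G j) := by
          refine hPy.1 fun j => ?_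
          have := h (some j)
          simp only [Option.elim_some] at this
          rwa [← map_mul, hemb'] at this
        rintro (_ | j)
        · have := h none
          simp only [Option.elim_none] at this ⊢
          rw [← map_mul, hemb'] at this
          rw [this, ← ha2, ← hb2, ← map_mul]
          change _ = ((aeval x).comp (aeval (Sum.elim X G))) (ℓa * ℓb)
          rw [comp_aeval]
          congr 2
          funext i
          rcases i with i | i
          · simp
          · simp [hs i]
        · exact hs j
      · intro h
        have hs : ∀ j, y (some j) = aeval x (G j) := fun j => h (some j)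
        have hs' := hPy.2 hs
        rintro (_ | j)
        · simp only [Option.elim_none]
          rw [← map_mul, hemb', h none]
          simp only [Option.elim_none]
          rw [← ha2, ← hb2, ← map_mul]
          change ((aeval x).comp (aeval (Sum.elim X G))) (ℓa * ℓb) = _
          rw [comp_aeval]
          congr 2
          funext i
          rcases i with i | i
          · simp
          · simp [hs i]
        · simp only [Option.elim_some]
          rw [← map_mul, hemb']
          exact hs' j

/-- Nondegenerate common zeros of polynomials that are computed with `r` multiplications. -/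
theorem reach_bezout {K : Type u} [Field K] {τ : Type v} [Fintype τ] [DecidableEq τ] {r : ℕ}
    {V : Submodule K (MvPolynomial τ K)} (hV : Reach r V) (h : τ → MvPolynomial τ K)
    (hh : ∀ i, h i ∈ V) (S : Finset (τ → K))
    (hS : ∀ p ∈ S, (∀ i, eval p (h i) = 0) ∧
      (Matrix.of fun i j => eval p (pderiv j (h i))).det ≠ 0) :
    S.card ≤ 2 ^ r := by
  classical
  obtain ⟨ι, _, _, A, B, G, hcard, hdeg, hVℓ, hP⟩ := reach_quadrics hV
  choose ℓ hℓ1 hℓ2 using fun i => hVℓ (h i) (hh i)
  let f : τ ⊕ ι → MvPolynomial (τ ⊕ ι) K :=
    Sum.elim ℓ (fun j => X (Sum.inr j) - A j * B j)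
  let dd : τ ⊕ ι → ℕ := Sum.elim (fun _ => 1) (fun _ => 2)
  let emb : (τ → K) → (τ ⊕ ι → K) := fun p => Sum.elim p (fun j => eval p (G j))
  have hemb : Function.Injective emb := by
    intro p q hpq
    funext i
    exact congrFun hpq (Sum.inl i)
  have hb := bezout f dd (by rintro (i | i) <;> simp [dd]) (by
    rintro (i | i)
    · exact hℓ1 i
    · refine (totalDegree_sub _ _).trans (max_le (by simp [dd]) ?_)
      refine (totalDegree_mul _ _).trans ?_
      have := hdeg i
      change _ ≤ 2
      omega) (S.map ⟨emb, hemb⟩) (by
    intro P hPmem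
    obtain ⟨p, hp, rfl⟩ := Finset.mem_map.1 hPmem
    obtain ⟨hp0, hpdet⟩ := hS p hp
    simp only [Function.Embedding.coeFn_mk]
    have hcomp : ∀ q : MvPolynomial (τ ⊕ ι) K, eval (emb p) q =
        eval p (aeval (Sum.elim X G) q) := by
      intro q
      have : aeval p (aeval (Sum.elim X G) q) = aeval (emb p) q := by
        change ((aeval p).comp (aeval (Sum.elim X G))) q = _
        rw [comp_aeval]
        congr 2
        funext i
        rcases i with i | i
        · simp [emb]
        · simp [emb]
      rw [← aeval_eq_eval', ← aeval_eq_eval', this]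
    constructor
    · rintro (i | j)
      · change eval (emb p) (ℓ i) = 0
        rw [hcomp, hℓ2, hp0]
      · change eval (emb p) (X (Sum.inr j) - A j * B j) = 0
        have h1 := (hP K p (fun j => eval p (G j))).2 (fun j => (aeval_eq_eval' _ _).symm) j
        rw [map_sub, eval_X, ← aeval_eq_eval', sub_eq_zero]
        exact h1
    · intro hdet
      obtain ⟨V', hV'0, hV'⟩ := Matrix.exists_mulVec_eq_zero_iff.2 hdet
      have hJ : ∀ i, ∑ j, V' j * aeval (emb p) (pderiv j (f i)) = 0 := by
        intro i
        have := congrFun hV' i
        simp only [Matrix.mulVec, dotProduct, Matrix.of_apply, Pi.zero_apply] at this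
        rw [← this]
        refine Finset.sum_congr rfl fun j _ => ?_
        rw [mul_comm, aeval_eq_eval']
      -- the point over the dual numbers
      let x : τ → DualNumber K := fun i =>
        TrivSqZeroExt.inl (p i) + TrivSqZeroExt.inr (V' (Sum.inl i))
      let y : ι → DualNumber K := fun j =>
        TrivSqZeroExt.inl (eval p (G j)) + TrivSqZeroExt.inr (V' (Sum.inr j))
      have hxy : (Sum.elim x y : τ ⊕ ι → DualNumber K) = fun i =>
          TrivSqZeroExt.inl (emb p i) + TrivSqZeroExt.inr (V' i) := by
        funext i
        rcases i with i | i <;> rfl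
      have hzero : ∀ i, aeval (emb p) (f i) = 0 := by
        rintro (i | j)
        · change aeval (emb p) (ℓ i) = 0
          rw [aeval_eq_eval', hcomp, hℓ2, hp0]
        · have h1 := (hP K p (fun j => eval p (G j))).2 (fun j => (aeval_eq_eval' _ _).symm) j
          change aeval (emb p) (X (Sum.inr j) - A j * B j) = 0
          rw [map_sub, aeval_X]
          change eval p (G j) - _ = 0
          rw [sub_eq_zero]
          exact h1
      have hf : ∀ i, aeval (Sum.elim x y : τ ⊕ ι → DualNumber K) (f i) = 0 := by
        intro i
        rw [hxy, aeval_dual, hJ i, hzero i]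
        simp
      have hy : ∀ j, y j = aeval x (G j) := by
        refine (hP (DualNumber K) x y).1 fun j => ?_
        have := hf (Sum.inr j)
        change aeval (Sum.elim x y) (X (Sum.inr j) - A j * B j) = 0 at this
        rw [map_sub, aeval_X, sub_eq_zero] at this
        exact this
      have hx : ∀ i, aeval x (h i) = 0 := by
        intro i
        rw [← hℓ2 i]
        change ((aeval x).comp (aeval (Sum.elim X G))) (ℓ i) = 0
        rw [comp_aeval]
        have := hf (Sum.inl i)
        change aeval (Sum.elim x y) (ℓ i) = 0 at this
        rw [← this]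
        congr 2
        funext i
        rcases i with i | i
        · simp
        · simp [hy i]
      have hker : (Matrix.of fun i j => eval p (pderiv j (h i))).mulVec
          (fun i => V' (Sum.inl i)) = 0 := by
        funext i
        have := hx i
        rw [aeval_dual] at this
        have h2 := congrArg TrivSqZeroExt.snd this
        simp only [TrivSqZeroExt.snd_add, TrivSqZeroExt.snd_inl, TrivSqZeroExt.snd_inr,
          zero_add, TrivSqZeroExt.snd_zero] at h2
        simp only [Matrix.mulVec, dotProduct, Matrix.of_apply, Pi.zero_apply]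
        rw [← h2]
        refine Finset.sum_congr rfl fun j _ => ?_
        rw [mul_comm, aeval_eq_eval']
      have hv0 : (fun i => V' (Sum.inl i)) = (0 : τ → K) := by
        by_contra hne
        exact hpdet (Matrix.exists_mulVec_eq_zero_iff.1 ⟨_, hne, hker⟩)
      apply hV'0
      funext i
      rcases i with i | j
      · exact congrFun hv0 i
      · have h1 := hy j
        have hxp : x = fun i => TrivSqZeroExt.inl (p i) + TrivSqZeroExt.inr 0 := by
          funext i
          simp only [x]
          have := congrFun hv0 i
          simp only [Pi.zero_apply] at this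
          rw [this]
        rw [hxp, aeval_dual p (fun _ => 0)] at h1
        have h2 := congrArg TrivSqZeroExt.snd h1
        simpa [y] using h2)
  rw [Finset.card_map] at hb
  refine hb.trans (le_of_eq ?_)
  rw [Fintype.prod_sum_type]
  simp [dd, hcard]

/-- The degree bound for approximative computations. -/
theorem degree_bound {K : Type u} [Field K] {L : Type u} [Field L] [Algebra (PowerSeries K) L]
    (hinj : Function.Injective (algebraMap (PowerSeries K) L))
    {τ : Type v} [Fintype τ] [DecidableEq τ] {r : ℕ}
    {V : Submodule L (MvPolynomial τ L)} (hV : Reach r V) (Φ : MvPolynomial τ (PowerSeries K))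
    (hΦ : map (algebraMap (PowerSeries K) L) Φ ∈ V) (b : τ → K) (S : Finset (τ → K))
    (hS : ∀ p ∈ S,
      (∀ i, eval p (pderiv i (map (PowerSeries.constantCoeff (R := K)) Φ)) = b i) ∧
      (Matrix.of fun i j =>
        eval p (pderiv j (pderiv i (map (PowerSeries.constantCoeff (R := K)) Φ)))).det ≠ 0) :
    S.card ≤ 2 ^ (3 * r) := by
  classical
  let ι := algebraMap (PowerSeries K) L
  let cc := PowerSeries.constantCoeff (R := K)
  obtain ⟨V', hV', hle, hmem⟩ := baur_strassen hV hΦ
  let F : τ → MvPolynomial τ (PowerSeries K) := fun i => pderiv i Φ - C (PowerSeries.C (b i))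
  have hFred : ∀ i, map cc (F i) = pderiv i (map cc Φ) - C (b i) := by
    intro i
    simp only [F, cc, map_sub, map_C, PowerSeries.constantCoeff_C, pderiv_map]
  have hlift : ∀ p : τ → K, ∃ q : τ → PowerSeries K, p ∈ S →
      ((∀ i, eval q (F i) = 0) ∧ (∀ i, cc (q i) = p i)) := by
    intro p
    by_cases hp : p ∈ S
    · obtain ⟨h1, h2⟩ := hS p hp
      obtain ⟨q, hq1, hq2⟩ := hensel F p (fun i => by
        change eval p (map cc (F i)) = 0
        rw [hFred, map_sub, eval_C]
        exact sub_eq_zero.2 (h1 i)) (by
        convert h2 using 3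
        ext i j
        change eval p (pderiv j (map cc (F i))) = _
        rw [hFred, map_sub, pderiv_C, sub_zero])
      exact ⟨q, fun _ => ⟨hq1, hq2⟩⟩
    · exact ⟨0, fun h => absurd h hp⟩
  choose q hq using hlift
  have hinjq : Set.InjOn (fun p : τ → K => fun i => ι (q p i)) S := by
    intro p hp p' hp' h
    funext i
    rw [← (hq p hp).2 i, ← (hq p' hp').2 i]
    have := hinj (congrFun h i)
    rw [this]
  have hb := reach_bezout hV' (fun i => map ι (F i)) (fun i => by
    have : map ι (F i) = pderiv i (map ι Φ) - C (ι (PowerSeries.C (b i))) := by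
      simp only [F, map_sub, map_C, pderiv_map]
    rw [this]
    exact Submodule.sub_mem _ (hmem i) (hV'.C_mem _)) (S.image fun p => fun i => ι (q p i)) (by
    intro P hP
    obtain ⟨p, hp, rfl⟩ := Finset.mem_image.1 hP
    have heval : ∀ f : MvPolynomial τ (PowerSeries K),
        eval (fun i => ι (q p i)) (map ι f) = ι (eval (q p) f) := by
      intro f
      rw [eval_map, eval₂_comp]
      rfl
    constructor
    · intro i
      rw [heval, (hq p hp).1 i, map_zero]
    · have h1 : (Matrix.of fun i j => eval (fun i => ι (q p i)) (pderiv j (map ι (F i)))) =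
          ι.mapMatrix (Matrix.of fun i j => eval (q p) (pderiv j (F i))) := by
        ext i j
        simp only [Matrix.of_apply, RingHom.mapMatrix_apply, Matrix.map_apply]
        rw [pderiv_map, heval]
      rw [h1, ← RingHom.map_det, Ne, map_eq_zero_iff ι hinj]
      intro h0
      have h2 := congrArg cc h0
      rw [RingHom.map_det, map_zero] at h2
      apply (hS p hp).2
      convert h2 using 2
      ext i j
      simp only [Matrix.of_apply, RingHom.mapMatrix_apply, Matrix.map_apply]
      have h3 : ∀ f : MvPolynomial τ (PowerSeries K),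
          cc (eval (q p) f) = eval p (map cc f) := by
        intro f
        rw [eval_map, ← eval₂_id, hom_eval₂]
        congr 1
        funext i
        exact (hq p hp).2 i
      rw [h3, ← pderiv_map, hFred, map_sub, pderiv_C, sub_zero])
  rw [Finset.card_image_of_injOn hinjq] at hb
  exact hb

end Pool.Agent.H10.PerSL
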