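import Pool.Agent.H10.PerSL.Basic

/-! First order expansions through dual numbers. -/

namespace Pool.Agent.H10.PerSL

open MvPolynomial Finset

universe u v w

/-- `f (p + ε v) = f (p) + ε ∑ v_i ∂_i f (p)`. -/
theorem aeval_dual {K : Type u} {R : Type w} {σ : Type v} [CommRing K] [CommRing R] [Algebra K R]
    [Fintype σ] (p v : σ → R) (f : MvPolynomial σ K) :
    aeval (fun i => (TrivSqZeroExt.inl (p i) + TrivSqZeroExt.inr (v i) : DualNumber R)) f =
      TrivSqZeroExt.inl (aeval p f) +
        TrivSqZeroExt.inr (∑ i, v i * aeval p (pderiv i f)) := by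
  classical
  induction f using MvPolynomial.induction_on with
  | C a =>
    simp only [algHom_C, pderiv_C, map_zero, mul_zero, Finset.sum_const_zero,
      TrivSqZeroExt.inr_zero, add_zero]
    rfl
  | add f g hf hg =>
    rw [map_add, hf, hg]
    simp only [map_add, mul_add, Finset.sum_add_distrib, TrivSqZeroExt.inl_add,
      TrivSqZeroExt.inr_add]
    abel
  | mul_X f n hf =>
    rw [map_mul, hf, aeval_X]
    ext
    · simp
    · simp only [TrivSqZeroExt.snd_mul, TrivSqZeroExt.fst_add, TrivSqZeroExt.fst_inl,
        TrivSqZeroExt.fst_inr, TrivSqZeroExt.snd_add, TrivSqZeroExt.snd_inl,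
        TrivSqZeroExt.snd_inr, add_zero, zero_add, smul_eq_mul, MulOpposite.smul_eq_mul_unop,
        MulOpposite.unop_op, map_mul, aeval_X]
      have h1 : ∀ i, v i * aeval p (pderiv i (f * X n)) =
          (v i * aeval p (pderiv i f)) * p n + aeval p f * (if i = n then v n else 0) := by
        intro i
        rw [Derivation.leibniz]
        by_cases h : i = n
        · subst h
          simp
          ring
        · rw [pderiv_X_of_ne (Ne.symm h)]
          simp [h]
          ring
      simp_rw [h1]
      rw [Finset.sum_add_distrib, ← Finset.sum_mul, ← Finset.mul_sum]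
      simp
      ring

end Pool.Agent.H10.PerSL
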