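import Pool.Agent.H10.PerSL.GadgetA

/-! Module M8: the gadget. -/

namespace Pool.Agent.H10.PerSL.Gad

open Pool.Agent.H10.PerSL

open MvPolynomial Finset
open scoped Nat

universe u v v' w w'

/-! ### The rows `U` -/

theorem coeff_rename_mul_pow {A : Type v} {U : Type v'} [Fintype A] [Fintype U] [DecidableEq A]
    [DecidableEq U] {R : Type w} [CommRing R] (F : MvPolynomial A R) (n : ℕ) :
    coeff (ind univ) (rename Sum.inl F * (∑ u : U, (X (Sum.inr u) : MvPolynomial (A ⊕ U) R)) ^ n) =
      if n = Fintype.card U then (n ! : R) * coeff (ind univ) F else 0 := by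
  have e0 : (∑ u : U, (X (Sum.inr u) : MvPolynomial (A ⊕ U) R)) =
      ∑ i ∈ (univ : Finset U).map Function.Embedding.inr, X i := by
    rw [Finset.sum_map]; rfl
  set B : Finset (A ⊕ U) := (univ : Finset U).map Function.Embedding.inr with hB
  have hBc : B.card = Fintype.card U := by simp [hB]
  rw [e0, mul_comm, coeff_sumX_pow_mul, univ_inter]
  have hz : ∀ T ∈ B.powersetCard n, T ≠ B →
      coeff (ind (univ \ T)) (rename Sum.inl F : MvPolynomial (A ⊕ U) R) = 0 := by
    intro T hT hTB
    apply coeff_rename_eq_zero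
    intro m hm
    exfalso
    have hsub := (mem_powersetCard.mp hT).1
    have : ∃ b ∈ B, b ∉ T := by
      by_contra hcon
      push Not at hcon
      exact hTB (Subset.antisymm hsub hcon)
    obtain ⟨b, hb, hbT⟩ := this
    rw [hB, Finset.mem_map] at hb
    obtain ⟨u, _, rfl⟩ := hb
    have h1 := DFunLike.congr_fun hm (Sum.inr u)
    rw [ind_apply, if_pos (by simpa using hbT)] at h1
    rw [Finsupp.mapDomain_of_notMem_range] at h1
    · exact absurd h1 (by norm_num)
    · simp
  split_ifs with hn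
  · congr 1
    have hps : B.powersetCard n = {B} := by rw [hn, ← hBc, powersetCard_self]
    rw [hps, sum_singleton]
    have : (ind (univ \ B) : (A ⊕ U) →₀ ℕ) = (ind (univ : Finset A)).mapDomain Sum.inl := by
      ext i
      rcases i with a | u
      · rw [Finsupp.mapDomain_apply Sum.inl_injective, ind_apply, ind_apply]
        simp [hB]
      · rw [Finsupp.mapDomain_of_notMem_range _ _ (by simp), ind_apply]
        simp [hB]
    rw [this, coeff_rename_mapDomain _ Sum.inl_injective]
  · rw [Finset.sum_eq_zero, mul_zero]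
    intro T hT
    apply hz T hT
    rintro rfl
    exact hn (by rw [← hBc]; exact (mem_powersetCard.mp hT).2.symm)

theorem coeff_eval₂_rename {A : Type v} {U : Type v'} [Fintype A] [Fintype U] [DecidableEq A]
    [DecidableEq U] {R : Type w} [CommRing R] (H : Polynomial (MvPolynomial A R)) :
    coeff (ind univ) (H.eval₂ ((rename (R := R) (Sum.inl : A → A ⊕ U)).toRingHom)
      (∑ u : U, (X (Sum.inr u) : MvPolynomial (A ⊕ U) R))) =
      ((Fintype.card U)! : R) * coeff (ind univ) (H.coeff (Fintype.card U)) := by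
  induction H using Polynomial.induction_on' with
  | add p q hp hq =>
    rw [Polynomial.eval₂_add, coeff_add, hp, hq, Polynomial.coeff_add, coeff_add, mul_add]
  | monomial n c =>
    rw [Polynomial.eval₂_monomial]
    have := coeff_rename_mul_pow (U := U) c n
    change coeff (ind univ) (rename Sum.inl c * _) = _
    rw [this, Polynomial.coeff_monomial]
    split_ifs with h
    · rw [h]
    · simp

/-! ### The groups -/

section groups

variable {ρ : Type v} [Fintype ρ] [DecidableEq ρ] {R : Type w} [CommRing R] {g : ℕ}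

/-- The sum of the variables of a group. -/
noncomputable def sg (ρ : Type v) [Fintype ρ] (R : Type w) [CommRing R] {g : ℕ} (s : Fin g) :
    MvPolynomial (Fin g × ρ) R := ∑ i : ρ, X (s, i)

theorem sg_eq (s : Fin g) :
    sg ρ R s = ∑ p ∈ univ.filter (fun p : Fin g × ρ => p.1 = s), X p := by
  unfold sg
  rw [Finset.sum_filter, Fintype.sum_prod_type]
  rw [Finset.sum_eq_single s]
  · simp
  · intro b _ hb
    simp [hb]
  · simp

theorem card_group (s : Fin g) :
    (univ.filter (fun p : Fin g × ρ => p.1 = s)).card = Fintype.card ρ := by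
  have h : univ.filter (fun p : Fin g × ρ => p.1 = s) =
      (univ : Finset ρ).image (fun i => (s, i)) := by
    ext ⟨s', i⟩
    simp only [mem_filter, mem_univ, true_and, mem_image]
    constructor
    · intro h; exact ⟨i, by rw [h]⟩
    · rintro ⟨a, h⟩; exact (Prod.mk.inj h).1.symm
  rw [h, card_image_of_injective _ (fun _ _ h => (Prod.mk.inj h).2), card_univ]

theorem coeff_groups (G : Finset (Fin g)) : ∀ F : MvPolynomial (Fin g × ρ) R,
    coeff (ind univ) ((∏ s ∈ G, sg ρ R s ^ Fintype.card ρ) * F) =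
      (((Fintype.card ρ)! : R) ^ G.card) *
        coeff (ind (univ.filter (fun p : Fin g × ρ => p.1 ∉ G))) F := by
  induction G using Finset.induction_on with
  | empty => intro F; simp
  | insert s G hs ih =>
    intro F
    rw [prod_insert hs, card_insert_of_notMem hs]
    have e : sg ρ R s ^ Fintype.card ρ * (∏ x ∈ G, sg ρ R x ^ Fintype.card ρ) * F =
        (∏ x ∈ G, sg ρ R x ^ Fintype.card ρ) * (sg ρ R s ^ Fintype.card ρ * F) := by ring
    rw [e, ih]
    have h1 := coeff_sumX_pow_card_mul (R := R) (univ.filter (fun p : Fin g × ρ => p.1 = s))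
      (univ.filter (fun p : Fin g × ρ => p.1 ∉ G)) (by
        intro p hp
        simp only [mem_filter, mem_univ, true_and] at hp ⊢
        rw [hp]; exact hs) F
    rw [card_group, ← sg_eq] at h1
    rw [h1, pow_succ, mul_assoc]
    congr 3
    congr 1
    ext p
    simp only [mem_sdiff, mem_filter, mem_univ, true_and, mem_insert]
    tauto

/-- Kill the variables outside a group. -/
noncomputable def kg (ρ : Type v) (R : Type w) [CommRing R] {g : ℕ} (s₀ : Fin g) :
    MvPolynomial (Fin g × ρ) R →ₐ[R] MvPolynomial ρ R :=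
  aeval (fun p => if p.1 = s₀ then X p.2 else 0)

omit [Fintype ρ] [DecidableEq ρ] in
theorem mk_injective (s₀ : Fin g) : Function.Injective (fun i : ρ => (s₀, i)) :=
  fun _ _ h => (Prod.mk.inj h).2

theorem coeff_kg (s₀ : Fin g) (F : MvPolynomial (Fin g × ρ) R) : ∀ m : ρ →₀ ℕ,
    coeff (m.mapDomain (fun i => (s₀, i))) F = coeff m (kg ρ R s₀ F) := by
  induction F using MvPolynomial.induction_on with
  | C a =>
    intro m
    have : kg ρ R s₀ (C a) = C a := by simp [kg]
    rw [this, coeff_C, coeff_C]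
    congr 1
    apply propext
    constructor
    · intro h
      have := Finsupp.mapDomain_injective (M := ℕ) (mk_injective (ρ := ρ) s₀)
      exact this (by rw [Finsupp.mapDomain_zero]; exact h)
    · rintro rfl
      rw [Finsupp.mapDomain_zero]
  | add p q hp hq =>
    intro m
    rw [coeff_add, hp, hq, map_add, coeff_add]
  | mul_X p n hp =>
    intro m
    obtain ⟨s, i⟩ := n
    rw [map_mul, coeff_mul_X']
    have hk : kg ρ R s₀ (X (s, i)) = if s = s₀ then X i else 0 := by simp [kg]
    rw [hk]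
    by_cases hs : s = s₀
    · subst hs
      rw [if_pos rfl, coeff_mul_X']
      have h1 : ((s, i) ∈ (m.mapDomain (fun i => (s, i))).support) ↔ i ∈ m.support := by
        rw [Finsupp.mem_support_iff, Finsupp.mem_support_iff,
          Finsupp.mapDomain_apply (mk_injective s)]
      by_cases hi : i ∈ m.support
      · rw [if_pos (h1.mpr hi), if_pos hi, ← hp]
        congr 1
        ext ⟨s', j⟩
        rw [Finsupp.tsub_apply]
        by_cases hs' : s' = s
        · subst hs'
          rw [Finsupp.mapDomain_apply (mk_injective s'), Finsupp.mapDomain_apply (mk_injective s'),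
            Finsupp.tsub_apply, Finsupp.single_apply, Finsupp.single_apply]
          simp
        · rw [Finsupp.mapDomain_of_notMem_range, Finsupp.mapDomain_of_notMem_range]
          · simp
          · rintro ⟨j', hj'⟩
            exact hs' (Prod.mk.inj hj').1.symm
          · rintro ⟨j', hj'⟩
            exact hs' (Prod.mk.inj hj').1.symm
      · rw [if_neg (fun h => hi (h1.mp h)), if_neg hi]
    · rw [if_neg hs, mul_zero, coeff_zero, if_neg]
      intro h
      rw [Finsupp.mem_support_iff] at h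
      apply h
      apply Finsupp.mapDomain_of_notMem_range
      rintro ⟨j', hj'⟩
      exact hs (Prod.mk.inj hj').1.symm

theorem ind_group (s₀ : Fin g) :
    (ind (univ.filter (fun p : Fin g × ρ => p.1 = s₀)) : (Fin g × ρ) →₀ ℕ) =
      (ind (univ : Finset ρ)).mapDomain (fun i => (s₀, i)) := by
  ext ⟨s, i⟩
  rw [ind_apply]
  by_cases hs : s = s₀
  · subst hs
    rw [Finsupp.mapDomain_apply (mk_injective s), ind_apply]
    simp
  · rw [Finsupp.mapDomain_of_notMem_range]
    · simp [hs]
    · rintro ⟨j', hj'⟩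
      exact hs (Prod.mk.inj hj').1.symm

end groups

/-! ### The product over the roots of unity -/

theorem prod_roots {K : Type u} [Field K] {P : Type w} [CommRing P] [Algebra K P] {k : ℕ}
    (hk : 0 < k) {ζ : K} (hζ : IsPrimitiveRoot ζ k) (y z : P) :
    ∏ v : Fin k, (y - algebraMap K P (ζ ^ (v : ℕ)) * z) = y ^ k - z ^ k := by
  classical
  have h1 : ∏ v : Fin k, ((X 0 : MvPolynomial (Fin 2) K) - C (ζ ^ (v : ℕ)) * X 1) =
      X 0 ^ k - X 1 ^ k := by
    have hζ' : IsPrimitiveRoot (C ζ : MvPolynomial (Fin 2) K) k :=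
      hζ.map_of_injective (C_injective (Fin 2) K)
    rw [hζ'.pow_sub_pow_eq_prod_sub_mul _ _ hk]
    have hinj : Function.Injective
        (fun v : Fin k => (C (ζ ^ (v : ℕ)) : MvPolynomial (Fin 2) K)) := by
      intro v v' h
      have := C_injective (Fin 2) K h
      exact Fin.ext (hζ.pow_inj v.2 v'.2 this)
    have himg : Polynomial.nthRootsFinset k (1 : MvPolynomial (Fin 2) K) =
        univ.image (fun v : Fin k => (C (ζ ^ (v : ℕ)) : MvPolynomial (Fin 2) K)) := by
      symm
      apply Finset.eq_of_subset_of_card_le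
      · intro x hx
        rw [mem_image] at hx
        obtain ⟨v, _, rfl⟩ := hx
        rw [Polynomial.mem_nthRootsFinset hk, ← map_pow, ← pow_mul, mul_comm, pow_mul,
          hζ.pow_eq_one, one_pow, map_one]
      · rw [hζ'.card_nthRootsFinset, card_image_of_injective _ hinj, card_univ, Fintype.card_fin]
    rw [himg, prod_image (fun _ _ _ _ h => hinj h)]
  have h2 := congrArg (aeval (R := K) ![y, z]) h1
  simpa [map_prod] using h2

/-! ### The expansion in the rows `U` -/

theorem coeff_expand {P : Type w} [CommRing P] {M : ℕ} (n : ℕ) (l : Fin M → P) (t : P) :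
    (Polynomial.X ^ n * ∏ j, (Polynomial.X + Polynomial.C (t * l j))).coeff M =
      t ^ n * es univ n l := by
  rw [Finset.prod_add, Finset.mul_sum, Polynomial.finset_sum_coeff]
  have h : ∀ T ∈ (univ : Finset (Fin M)).powerset,
      (Polynomial.X ^ n * ((∏ j ∈ T, Polynomial.X) * ∏ j ∈ univ \ T, Polynomial.C (t * l j))).coeff M
        = if (univ \ T).card = n then t ^ n * ∏ j ∈ univ \ T, l j else 0 := by
    intro T _
    rw [prod_const, ← map_prod, ← mul_assoc, ← pow_add, mul_comm, Polynomial.coeff_C_mul,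
      Polynomial.coeff_X_pow, prod_mul_distrib, prod_const]
    have hc : (univ \ T).card + T.card = M := by
      rw [card_sdiff_add_card_eq_card (subset_univ T), card_univ, Fintype.card_fin]
    by_cases hn : (univ \ T).card = n
    · rw [if_pos hn, if_pos (by omega), hn, mul_one]
    · rw [if_neg hn, if_neg (by omega), mul_zero]
  rw [Finset.sum_congr rfl h]
  unfold es
  rw [Finset.mul_sum, ← Finset.sum_filter]
  refine Finset.sum_bij' (fun T _ => univ \ T) (fun T _ => univ \ T) ?_ ?_ ?_ ?_ ?_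
  · intro T hT
    simp only [mem_filter] at hT
    rw [mem_powersetCard]
    exact ⟨subset_univ _, hT.2⟩
  · intro T hT
    rw [mem_powersetCard] at hT
    simp [hT.2]
  · intro T _; simp
  · intro T _; simp
  · intro T _; rfl

theorem sum_split {g : ℕ} {R : Type w} [CommRing R] (f : Finset (Fin g) → R) :
    ∑ S ∈ (univ : Finset (Fin g)).powerset, f S =
      f ∅ + ∑ s, f {s} + ∑ S ∈ (univ : Finset (Fin g)).powerset.filter (fun S => 2 ≤ S.card), f S := by
  rw [← Finset.sum_filter_not_add_sum_filter _ (fun S : Finset (Fin g) => 2 ≤ S.card)]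
  congr 1
  have h : (univ : Finset (Fin g)).powerset.filter (fun S => ¬ 2 ≤ S.card) =
      insert ∅ ((univ : Finset (Fin g)).image (fun s => {s})) := by
    ext S
    simp only [mem_filter, mem_powerset, subset_univ, true_and, mem_insert, mem_image, mem_univ]
    constructor
    · intro h
      have h2 : S.card = 0 ∨ S.card = 1 := by omega
      rcases h2 with h2 | h2
      · left; exact card_eq_zero.mp h2
      · right
        obtain ⟨s, hs⟩ := card_eq_one.mp h2
        exact ⟨s, hs.symm⟩
    · rintro (h | ⟨s, h⟩)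
      · rw [h]; simp
      · rw [← h]; simp
  rw [h, sum_insert, sum_image]
  · intro a _ b _ hab
    exact singleton_injective hab
  · simp only [mem_image, mem_univ, true_and, not_exists]
    intro s
    exact singleton_ne_empty s

/-! ### The coefficients -/

section coeffs

variable {R : Type w} [CommRing R] {ρ : Type v} [Fintype ρ] [DecidableEq ρ] {g a k M : ℕ}

/-- The linear forms of the columns `B`. -/
noncomputable def lj (x : Fin g → ρ → Fin M → R) (j : Fin M) : MvPolynomial (Fin g × ρ) R :=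
  ∑ p : Fin g × ρ, C (x p.1 p.2 j) * X p

/-- The factor of `t ^ (k * card S)`. -/
noncomputable def term (a k : ℕ) (x : Fin g → ρ → Fin M → R) (S : Finset (Fin g)) :
    MvPolynomial (Fin g × ρ) R :=
  (∏ s, sg ρ R s ^ a) * ((∏ s ∈ univ \ S, -(sg ρ R s ^ k)) * es univ (k * S.card) (lj x))

theorem neg_one_pow_mul_coeff {σ : Type v} (n : ℕ) (m : σ →₀ ℕ) (F : MvPolynomial σ R) :
    coeff m ((-1) ^ n * F) = (-1) ^ n * coeff m F := by
  have : ((-1 : MvPolynomial σ R)) ^ n = C ((-1) ^ n) := by simp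
  rw [this, coeff_C_mul]

theorem coeff_term_empty (hρ : Fintype.card ρ = a + k) (x : Fin g → ρ → Fin M → R) :
    coeff (ind univ) (term a k x ∅) = (-1) ^ g * ((a + k)! : R) ^ g := by
  have e : term a k x ∅ = (-1) ^ g * ((∏ s ∈ univ, sg ρ R s ^ Fintype.card ρ) * 1) := by
    unfold term es
    rw [hρ]
    simp only [sdiff_empty, card_empty, mul_zero, powersetCard_zero, sum_singleton, prod_empty,
      mul_one, pow_add, prod_mul_distrib]
    rw [Finset.prod_neg, card_univ, Fintype.card_fin]
    ring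
  rw [e, neg_one_pow_mul_coeff, coeff_groups, card_univ, Fintype.card_fin, hρ]
  simp [ind_empty]

theorem kg_sg (s₀ : Fin g) : kg ρ R s₀ (sg ρ R s₀) = ∑ i : ρ, X i := by
  simp [kg, sg, map_sum]

theorem kg_lj (s₀ : Fin g) (x : Fin g → ρ → Fin M → R) (j : Fin M) :
    kg ρ R s₀ (lj x j) = lf (fun i => x s₀ i j) := by
  unfold lj lf
  rw [map_sum, Fintype.sum_prod_type, Finset.sum_eq_single s₀]
  · refine Finset.sum_congr rfl fun i _ => ?_
    simp [kg]
  · intro s _ hs
    refine Finset.sum_eq_zero fun i _ => ?_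
    simp [kg, hs]
  · simp

theorem coeff_term_single (hρ : Fintype.card ρ = a + k) (x : Fin g → ρ → Fin M → R) (s₀ : Fin g) :
    coeff (ind univ) (term a k x {s₀}) =
      (-1) ^ (g - 1) * ((a + k)! : R) ^ (g - 1) * (a ! : R) * rk k (x s₀) := by
  have hc : (univ \ {s₀} : Finset (Fin g)).card = g - 1 := by
    rw [card_sdiff_of_subset (subset_univ _), card_univ, Fintype.card_fin, card_singleton]
  have e : term a k x {s₀} = (-1) ^ (g - 1) * ((∏ s ∈ univ \ {s₀}, sg ρ R s ^ Fintype.card ρ) *
      (sg ρ R s₀ ^ a * es univ k (lj x))) := by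
    unfold term
    rw [hρ, card_singleton, mul_one, Finset.prod_neg, hc]
    have e1 : ∏ s, sg ρ R s ^ a = (∏ s ∈ univ \ {s₀}, sg ρ R s ^ a) * sg ρ R s₀ ^ a := by
      rw [← Finset.prod_sdiff (subset_univ ({s₀} : Finset (Fin g))), prod_singleton]
    rw [e1]
    simp only [pow_add, prod_mul_distrib]
    ring
  have hf : univ.filter (fun p : Fin g × ρ => p.1 ∉ (univ \ {s₀} : Finset (Fin g))) =
      univ.filter (fun p : Fin g × ρ => p.1 = s₀) := by
    ext p; simp
  rw [e, neg_one_pow_mul_coeff, coeff_groups, hc, hf, ind_group, coeff_kg, map_mul, map_pow,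
    kg_sg]
  have e2 : kg ρ R s₀ (es univ k (lj x)) = es univ k (fun j => lf (fun i => x s₀ i j)) := by
    unfold es
    rw [map_sum]
    refine Finset.sum_congr rfl fun T _ => ?_
    rw [map_prod]
    refine Finset.prod_congr rfl fun j _ => kg_lj s₀ x j
  rw [e2, coeff_pow_mul_Lam hρ, hρ]
  unfold rk
  ring

end coeffs

/-! ### Assembly -/

section assembly

variable {K : Type u} [Field K] {R : Type w} [CommRing R] [Algebra K R]
  {ρ : Type v} [Fintype ρ] [DecidableEq ρ] {g a k M e : ℕ}

/-- The polynomial in one more variable, which stands for the sum of the variables of `U`. -/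
noncomputable def bigH (a k e : ℕ) (t : R) (x : Fin g → ρ → Fin M → R) :
    Polynomial (MvPolynomial (Fin g × ρ) R) :=
  (∏ s, (Polynomial.C (sg ρ R s ^ a) * (Polynomial.X ^ k - Polynomial.C (sg ρ R s ^ k)))) *
    ((∏ j, (Polynomial.X + Polynomial.C (C t * lj x j))) * Polynomial.X ^ e)

theorem col_a (ζ : K) (t : R) (x : Fin g → ρ → Fin M → R) (s : Fin g) (b : Fin a) :
    ∑ i, C (gad (a := a) (k := k) (e := e) ζ t x i (Sum.inl (s, Sum.inl b))) *
      (X i : MvPolynomial ((Fin g × ρ) ⊕ (Fin M ⊕ Fin e)) R) = rename Sum.inl (sg ρ R s) := by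
  rw [Fintype.sum_sum_type]
  have h2 : ∑ u : Fin M ⊕ Fin e, C (gad (a := a) (k := k) (e := e) ζ t x (Sum.inr u)
      (Sum.inl (s, Sum.inl b))) *
      (X (Sum.inr u) : MvPolynomial ((Fin g × ρ) ⊕ (Fin M ⊕ Fin e)) R) = 0 :=
    Finset.sum_eq_zero fun u _ => by simp [gad]
  rw [h2, add_zero, Fintype.sum_prod_type, Finset.sum_eq_single s]
  · unfold sg
    rw [map_sum]
    refine Finset.sum_congr rfl fun i _ => ?_
    simp [gad]
  · intro s' _ hs
    refine Finset.sum_eq_zero fun i _ => ?_
    simp [gad, hs]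
  · simp

theorem col_k (ζ : K) (t : R) (x : Fin g → ρ → Fin M → R) (s : Fin g) (b : Fin k) :
    ∑ i, C (gad (a := a) (k := k) (e := e) ζ t x i (Sum.inl (s, Sum.inr b))) *
      (X i : MvPolynomial ((Fin g × ρ) ⊕ (Fin M ⊕ Fin e)) R) =
      (∑ u, X (Sum.inr u)) - algebraMap K _ (ζ ^ (b : ℕ)) * rename Sum.inl (sg ρ R s) := by
  rw [Fintype.sum_sum_type]
  have h2 : ∑ u : Fin M ⊕ Fin e, C (gad (a := a) (k := k) (e := e) ζ t x (Sum.inr u)
      (Sum.inl (s, Sum.inr b))) *
      (X (Sum.inr u) : MvPolynomial ((Fin g × ρ) ⊕ (Fin M ⊕ Fin e)) R) = ∑ u, X (Sum.inr u) :=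
    Finset.sum_congr rfl fun u _ => by simp [gad]
  rw [h2, add_comm, sub_eq_add_neg]
  congr 1
  rw [Fintype.sum_prod_type, Finset.sum_eq_single s]
  · unfold sg
    rw [map_sum, Finset.mul_sum, ← Finset.sum_neg_distrib]
    refine Finset.sum_congr rfl fun i _ => ?_
    simp [gad, MvPolynomial.algebraMap_apply]
  · intro s' _ hs
    refine Finset.sum_eq_zero fun i _ => ?_
    simp [gad, hs]
  · simp

theorem col_B (ζ : K) (t : R) (x : Fin g → ρ → Fin M → R) (j : Fin M) :
    ∑ i, C (gad (a := a) (k := k) (e := e) ζ t x i (Sum.inr (Sum.inl j))) *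
      (X i : MvPolynomial ((Fin g × ρ) ⊕ (Fin M ⊕ Fin e)) R) =
      (∑ u, X (Sum.inr u)) + rename Sum.inl (C t * lj x j) := by
  rw [Fintype.sum_sum_type]
  have h2 : ∑ u : Fin M ⊕ Fin e, C (gad (a := a) (k := k) (e := e) ζ t x (Sum.inr u)
      (Sum.inr (Sum.inl j))) *
      (X (Sum.inr u) : MvPolynomial ((Fin g × ρ) ⊕ (Fin M ⊕ Fin e)) R) = ∑ u, X (Sum.inr u) :=
    Finset.sum_congr rfl fun u _ => by simp [gad]
  rw [h2, add_comm]
  congr 1
  unfold lj
  rw [Finset.mul_sum, map_sum]
  refine Finset.sum_congr rfl fun p _ => ?_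
  obtain ⟨s, i⟩ := p
  simp [gad, mul_assoc]

theorem col_E (ζ : K) (t : R) (x : Fin g → ρ → Fin M → R) (j : Fin e) :
    ∑ i, C (gad (a := a) (k := k) (e := e) ζ t x i (Sum.inr (Sum.inr j))) *
      (X i : MvPolynomial ((Fin g × ρ) ⊕ (Fin M ⊕ Fin e)) R) =
      (∑ u, X (Sum.inr u)) := by
  rw [Fintype.sum_sum_type]
  have h2 : ∑ u : Fin M ⊕ Fin e, C (gad (a := a) (k := k) (e := e) ζ t x (Sum.inr u)
      (Sum.inr (Sum.inr j))) *
      (X (Sum.inr u) : MvPolynomial ((Fin g × ρ) ⊕ (Fin M ⊕ Fin e)) R) = ∑ u, X (Sum.inr u) :=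
    Finset.sum_congr rfl fun u _ => by simp [gad]
  rw [h2]
  have h3 : ∑ u : Fin g × ρ, C (gad (a := a) (k := k) (e := e) ζ t x (Sum.inl u)
      (Sum.inr (Sum.inr j))) *
      (X (Sum.inl u) : MvPolynomial ((Fin g × ρ) ⊕ (Fin M ⊕ Fin e)) R) = 0 :=
    Finset.sum_eq_zero fun u _ => by simp [gad]
  rw [h3, zero_add]

theorem prod_cols (hk : 0 < k) {ζ : K} (hζ : IsPrimitiveRoot ζ k) (t : R)
    (x : Fin g → ρ → Fin M → R) :
    ∏ c, ∑ i, C (gad (a := a) (k := k) (e := e) ζ t x i c) *
      (X i : MvPolynomial ((Fin g × ρ) ⊕ (Fin M ⊕ Fin e)) R) =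
    (bigH a k e t x).eval₂
      ((rename (R := R) (Sum.inl : Fin g × ρ → (Fin g × ρ) ⊕ (Fin M ⊕ Fin e))).toRingHom)
      (∑ u : Fin M ⊕ Fin e, X (Sum.inr u)) := by
  have h : ∀ (F : Polynomial (MvPolynomial (Fin g × ρ) R)) (υ : MvPolynomial
      ((Fin g × ρ) ⊕ (Fin M ⊕ Fin e)) R), F.eval₂
      ((rename (R := R) (Sum.inl : Fin g × ρ → (Fin g × ρ) ⊕ (Fin M ⊕ Fin e))).toRingHom) υ =
      Polynomial.eval₂RingHom
      ((rename (R := R) (Sum.inl : Fin g × ρ → (Fin g × ρ) ⊕ (Fin M ⊕ Fin e))).toRingHom) υ F :=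
    fun _ _ => rfl
  rw [h]
  unfold bigH
  rw [Fintype.prod_sum_type, Fintype.prod_prod_type]
  simp only [map_mul, map_prod, map_sub, map_add, map_pow, Polynomial.coe_eval₂RingHom,
    Polynomial.eval₂_X, Polynomial.eval₂_C]
  congr 1
  · refine Finset.prod_congr rfl fun s _ => ?_
    rw [Fintype.prod_sum_type]
    congr 1
    · simp only [col_a]
      rw [prod_const, card_univ, Fintype.card_fin]
      rfl
    · simp only [col_k]
      rw [prod_roots hk hζ]
      rfl
  · rw [Fintype.prod_sum_type]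
    congr 1
    · refine Finset.prod_congr rfl fun j _ => ?_
      rw [col_B]
      congr 1
      simp
    · simp only [col_E]
      rw [prod_const, card_univ, Fintype.card_fin]

theorem coeff_bigH (t : R) (x : Fin g → ρ → Fin M → R) :
    (bigH a k e t x).coeff (M + e) =
      ∑ S ∈ (univ : Finset (Fin g)).powerset, C (t ^ (k * S.card)) * term a k x S := by
  unfold bigH
  rw [← mul_assoc, Polynomial.coeff_mul_X_pow, prod_mul_distrib]
  simp only [sub_eq_add_neg]
  rw [Finset.prod_add, Finset.mul_sum, Finset.sum_mul, Polynomial.finset_sum_coeff]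
  refine Finset.sum_congr rfl fun S _ => ?_
  have e1 : (∏ s, Polynomial.C (sg ρ R s ^ a)) *
      ((∏ s ∈ S, Polynomial.X ^ k) * ∏ s ∈ univ \ S, -Polynomial.C (sg ρ R s ^ k)) *
      ∏ j, (Polynomial.X + Polynomial.C (C t * lj x j)) =
      Polynomial.C ((∏ s, sg ρ R s ^ a) * ∏ s ∈ univ \ S, -(sg ρ R s ^ k)) *
      (Polynomial.X ^ (k * S.card) * ∏ j, (Polynomial.X + Polynomial.C (C t * lj x j))) := by
    rw [prod_const, ← pow_mul, Polynomial.C_mul, map_prod, map_prod]
    simp only [map_neg]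
    ring
  rw [e1, Polynomial.coeff_C_mul, coeff_expand]
  unfold term
  rw [C_pow]
  ring

end assembly

end Pool.Agent.H10.PerSL.Gad

namespace Pool.Agent.H10.PerSL

open MvPolynomial Finset
open scoped Nat

universe u v w

/-- M8. The gadget. -/
theorem gadget {K : Type u} [Field K] {R : Type w} [CommRing R] [Algebra K R]
    {ρ : Type v} [Fintype ρ] [DecidableEq ρ] {g a k M e : ℕ} (hρ : Fintype.card ρ = a + k)
    (hk : 0 < k) {ζ : K} (hζ : IsPrimitiveRoot ζ k) (t : R) (x : Fin g → ρ → Fin M → R) :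
    ∃ Q : R,
      ∑ σ : ((Fin g × (Fin a ⊕ Fin k)) ⊕ (Fin M ⊕ Fin e)) ≃ ((Fin g × ρ) ⊕ (Fin M ⊕ Fin e)),
        ∏ c, gad ζ t x (σ c) c =
      algebraMap K R ((M + e)! * (-1) ^ g * ((a + k)! : K) ^ g) +
      t ^ k * (algebraMap K R ((M + e)! * (-1) ^ (g - 1) * ((a + k)! : K) ^ (g - 1) * a !) *
        ∑ s, rk k (x s)) +
      t ^ (k + 1) * Q := by
  refine ⟨((M + e)! : R) * ∑ S ∈ (univ : Finset (Fin g)).powerset.filter (fun S => 2 ≤ S.card),
    t ^ (k * S.card - (k + 1)) * coeff (Gad.ind univ) (Gad.term a k x S), ?_⟩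
  rw [Gad.perm_coeff, Gad.prod_cols hk hζ, Gad.coeff_eval₂_rename]
  have hc : Fintype.card (Fin M ⊕ Fin e) = M + e := by simp
  rw [hc, Gad.coeff_bigH, coeff_sum]
  simp only [coeff_C_mul]
  rw [Gad.sum_split]
  simp only [card_empty, mul_zero, pow_zero, one_mul, card_singleton, mul_one]
  rw [Gad.coeff_term_empty hρ]
  simp only [Gad.coeff_term_single hρ]
  have h3 : ∑ S ∈ (univ : Finset (Fin g)).powerset.filter (fun S => 2 ≤ S.card),
      t ^ (k * S.card) * coeff (Gad.ind univ) (Gad.term a k x S) =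
      t ^ (k + 1) * ∑ S ∈ (univ : Finset (Fin g)).powerset.filter (fun S => 2 ≤ S.card),
        t ^ (k * S.card - (k + 1)) * coeff (Gad.ind univ) (Gad.term a k x S) := by
    rw [Finset.mul_sum]
    refine Finset.sum_congr rfl fun S hS => ?_
    rw [mem_filter] at hS
    have h4 : k + 1 ≤ k * S.card := by nlinarith [hS.2]
    rw [← mul_assoc, ← pow_add, Nat.add_sub_cancel' h4]
  rw [h3]
  simp only [map_mul, map_pow, map_neg, map_one, map_natCast]
  rw [← Finset.mul_sum, ← Finset.mul_sum]
  ring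

end Pool.Agent.H10.PerSL
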