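import Pool.Agent.H10.PerSL.Basic

/-! Coefficients of squarefree monomials; permanents as coefficients. -/

namespace Pool.Agent.H10.PerSL.Gad

open Pool.Agent.H10.PerSL

open MvPolynomial Finset
open scoped Nat

universe u v v' w w'

/-- The exponent of the squarefree monomial with support `W`. -/
noncomputable def ind {σ : Type v} (W : Finset σ) : σ →₀ ℕ := ∑ i ∈ W, Finsupp.single i 1

section basic

variable {σ : Type v} [DecidableEq σ] {R : Type w} [CommRing R]

theorem ind_apply (W : Finset σ) (i : σ) : ind W i = if i ∈ W then 1 else 0 := by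
  unfold ind
  rw [Finsupp.finsetSum_apply]
  simp [Finsupp.single_apply]

theorem ind_support (W : Finset σ) : (ind W).support = W := by
  ext i
  simp [ind_apply]

theorem ind_sub (W : Finset σ) {i : σ} (hi : i ∈ W) :
    ind W - Finsupp.single i 1 = ind (W.erase i) := by
  ext j
  rw [Finsupp.tsub_apply, ind_apply, ind_apply, Finsupp.single_apply]
  by_cases hij : i = j
  · subst hij; simp [hi]
  · have : j ≠ i := fun h => hij h.symm
    simp [hij, this]

theorem ind_empty : ind (∅ : Finset σ) = 0 := by simp [ind]

theorem coeff_sumX_mul (B W : Finset σ) (F : MvPolynomial σ R) :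
    coeff (ind W) ((∑ i ∈ B, X i) * F) = ∑ i ∈ W ∩ B, coeff (ind (W.erase i)) F := by
  rw [Finset.sum_mul, coeff_sum]
  have h : ∀ i ∈ B, coeff (ind W) (X i * F) =
      if i ∈ W then coeff (ind (W.erase i)) F else 0 := by
    intro i _
    rw [coeff_X_mul', ind_support]
    split_ifs with hi
    · rw [ind_sub W hi]
    · rfl
  rw [Finset.sum_congr rfl h, ← Finset.sum_filter]
  refine Finset.sum_congr ?_ fun _ _ => rfl
  ext i
  simp [and_comm]

/-- The general formula for powers of sums of variables. -/
theorem coeff_sumX_pow_mul (B : Finset σ) (n : ℕ) : ∀ (W : Finset σ) (F : MvPolynomial σ R),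
    coeff (ind W) ((∑ i ∈ B, X i) ^ n * F) =
      (n ! : R) * ∑ T ∈ (W ∩ B).powersetCard n, coeff (ind (W \ T)) F := by
  induction n with
  | zero => intro W F; simp
  | succ n ih =>
    intro W F
    rw [pow_succ', mul_assoc, coeff_sumX_mul]
    have h1 : ∀ i ∈ W ∩ B, coeff (ind (W.erase i)) ((∑ i ∈ B, X i) ^ n * F) =
        (n ! : R) * ∑ T ∈ ((W ∩ B).erase i).powersetCard n, coeff (ind (W \ insert i T)) F := by
      intro i _
      rw [ih]
      congr 1
      have e1 : (W.erase i) ∩ B = (W ∩ B).erase i := by
        ext j; simp [and_assoc]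
      rw [e1]
      refine Finset.sum_congr rfl fun T _ => ?_
      congr 2
      ext j
      simp only [mem_sdiff, mem_erase, mem_insert]
      tauto
    rw [Finset.sum_congr rfl h1, ← Finset.mul_sum]
    have h2 : ∑ i ∈ W ∩ B, ∑ T ∈ ((W ∩ B).erase i).powersetCard n,
        coeff (ind (W \ insert i T)) F =
        ∑ T' ∈ (W ∩ B).powersetCard (n + 1), ∑ i ∈ T', coeff (ind (W \ T')) F := by
      rw [Finset.sum_sigma', Finset.sum_sigma']
      refine Finset.sum_bij' (fun p _ => ⟨insert p.1 p.2, p.1⟩)
        (fun q _ => ⟨q.2, q.1.erase q.2⟩) ?_ ?_ ?_ ?_ ?_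
      · rintro ⟨i, T⟩ hp
        simp only [mem_sigma, mem_powersetCard] at hp ⊢
        obtain ⟨hi, hT, hc⟩ := hp
        have hiT : i ∉ T := fun h => by
          have := hT h
          simp at this
        refine ⟨⟨?_, ?_⟩, mem_insert_self _ _⟩
        · refine insert_subset hi (hT.trans (erase_subset _ _))
        · rw [card_insert_of_notMem hiT, hc]
      · rintro ⟨T', i⟩ hp
        simp only [mem_sigma, mem_powersetCard] at hp ⊢
        obtain ⟨⟨hT, hc⟩, hi⟩ := hp
        refine ⟨hT hi, erase_subset_erase _ hT, ?_⟩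
        rw [card_erase_of_mem hi, hc]; rfl
      · rintro ⟨i, T⟩ hp
        simp only [mem_sigma, mem_powersetCard] at hp
        obtain ⟨hi, hT, hc⟩ := hp
        have hiT : i ∉ T := fun h => by
          have := hT h
          simp at this
        simp [erase_insert hiT]
      · rintro ⟨T', i⟩ hp
        simp only [mem_sigma, mem_powersetCard] at hp
        obtain ⟨⟨hT, hc⟩, hi⟩ := hp
        simp [insert_erase hi]
      · rintro ⟨i, T⟩ _
        rfl
    rw [h2]
    have h3 : ∀ T' ∈ (W ∩ B).powersetCard (n + 1), ∑ i ∈ T', coeff (ind (W \ T')) F =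
        ((n + 1 : ℕ) : R) * coeff (ind (W \ T')) F := by
      intro T' hT'
      rw [Finset.sum_const, (mem_powersetCard.mp hT').2, nsmul_eq_mul]
    rw [Finset.sum_congr rfl h3, ← Finset.mul_sum, ← mul_assoc]
    congr 1
    rw [Nat.factorial_succ]
    push_cast
    ring

theorem coeff_sumX_pow_card_mul (B W : Finset σ) (hB : B ⊆ W) (F : MvPolynomial σ R) :
    coeff (ind W) ((∑ i ∈ B, X i) ^ B.card * F) = (B.card ! : R) * coeff (ind (W \ B)) F := by
  rw [coeff_sumX_pow_mul, inter_eq_right.mpr hB, powersetCard_self, sum_singleton]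

theorem coeff_pow_mul_Lam {ρ : Type v} [Fintype ρ] [DecidableEq ρ] {a k : ℕ}
    (hρ : Fintype.card ρ = a + k) (G : MvPolynomial ρ R) :
    coeff (ind univ) ((∑ i, X i) ^ a * G) = (a ! : R) * Lam k G := by
  rw [coeff_sumX_pow_mul, Lam_apply, univ_inter]
  congr 1
  refine Finset.sum_bij' (fun T _ => Tᶜ) (fun T _ => Tᶜ) ?_ ?_ ?_ ?_ ?_
  · intro T hT
    rw [mem_powersetCard] at hT ⊢
    refine ⟨subset_univ _, ?_⟩
    rw [card_compl, hT.2, hρ]; omega
  · intro T hT
    rw [mem_powersetCard] at hT ⊢
    refine ⟨subset_univ _, ?_⟩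
    rw [card_compl, hT.2, hρ]; omega
  · intro T _; simp
  · intro T _; simp
  · intro T _
    rw [← compl_eq_univ_sdiff]
    rfl

end basic

/-- Permanents as coefficients. -/
theorem perm_coeff {r : Type v} {c : Type v'} [Fintype r] [DecidableEq r] [Fintype c]
    [DecidableEq c] {R : Type w} [CommRing R] (A : r → c → R) :
    ∑ σ : c ≃ r, ∏ j, A (σ j) j =
      coeff (ind univ) (∏ j : c, ∑ i : r, C (A i j) * (X i : MvPolynomial r R)) := by
  rw [Finset.prod_univ_sum, Fintype.piFinset_univ, coeff_sum]
  have key : ∀ f : c → r, coeff (ind univ) (∏ j, C (A (f j) j) * (X (f j) : MvPolynomial r R)) =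
      if Function.Bijective f then ∏ j, A (f j) j else 0 := by
    intro f
    have e1 : ∏ j, C (A (f j) j) * (X (f j) : MvPolynomial r R) =
        monomial (∑ j, Finsupp.single (f j) 1) (∏ j, A (f j) j) := by
      have : ∀ j, C (A (f j) j) * (X (f j) : MvPolynomial r R) =
          monomial (Finsupp.single (f j) 1) (A (f j) j) := by
        intro j
        rw [C_mul_X_eq_monomial]
      simp only [this]
      induction (univ : Finset c) using Finset.induction_on with
      | empty => simp
      | insert j s hj ih =>
        rw [prod_insert hj, prod_insert hj, sum_insert hj, ih, monomial_mul]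
    rw [e1, coeff_monomial]
    have e2 : (∑ j, Finsupp.single (f j) 1 = (ind univ : r →₀ ℕ)) ↔ Function.Bijective f := by
      constructor
      · intro h
        rw [Function.bijective_iff_existsUnique]
        intro i
        have h1 := DFunLike.congr_fun h i
        rw [ind_apply, if_pos (mem_univ i), Finsupp.finsetSum_apply] at h1
        simp only [Finsupp.single_apply] at h1
        rw [Finset.sum_boole, Nat.cast_id, card_eq_one] at h1
        obtain ⟨j, hj⟩ := h1
        refine ⟨j, ?_, ?_⟩
        · have : j ∈ univ.filter (fun j => f j = i) := by rw [hj]; simp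
          simpa using this
        · intro j' hj'
          have : j' ∈ univ.filter (fun j => f j = i) := by simpa using hj'
          rw [hj] at this
          simpa using this
      · intro h
        ext i
        rw [ind_apply, if_pos (mem_univ i), Finsupp.finsetSum_apply]
        simp only [Finsupp.single_apply]
        rw [Finset.sum_boole, Nat.cast_id, card_eq_one]
        obtain ⟨j, hj, hj'⟩ := (Function.bijective_iff_existsUnique f).mp h i
        refine ⟨j, ?_⟩
        ext j'
        simp only [mem_filter, mem_univ, true_and, mem_singleton]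
        exact ⟨fun h => hj' j' h, fun h => h ▸ hj⟩
    simp only [e2]
  simp only [key]
  rw [← Finset.sum_filter]
  refine Finset.sum_bij (fun σ _ => (σ : c → r)) ?_ ?_ ?_ ?_
  · intro σ _
    simpa using σ.bijective
  · intro σ _ τ _ h
    exact DFunLike.coe_injective h
  · intro f hf
    rw [mem_filter] at hf
    exact ⟨Equiv.ofBijective f hf.2, mem_univ _, rfl⟩
  · intro σ _
    rfl

end Pool.Agent.H10.PerSL.Gad
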