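import Pool.Agent.H10.PerSL.Basic

/-!
# M10. Several groups, and the number of critical points (from the statement of M9)
-/

namespace Pool.Agent.H10.PerSL

open MvPolynomial Finset
open scoped Nat

universe u v w

/-- The number of maps with all fibres of size `ν` is at least the multinomial coefficient. -/
theorem count_balanced {T : Type v} [Fintype T] [DecidableEq T] (M ν : ℕ)
    (hM : M = ν * Fintype.card T) :
    M ! ≤ (univ.filter (fun c : Fin M → T =>
      ∀ π, (univ.filter (fun j => c j = π)).card = ν)).card * (ν !) ^ (Fintype.card T) := by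
  classical
  have e : Fin M ≃ Fin ν × T := Fintype.equivOfCardEq (by simp [hM])
  let c0 : Fin M → T := fun j => (e j).2
  have hc0 : ∀ π, (univ.filter (fun j => c0 j = π)).card = ν := by
    intro π
    have h1 : (univ.filter (fun j => c0 j = π)).card =
        ((univ : Finset (Fin ν)) ×ˢ ({π} : Finset T)).card := by
      refine Finset.card_bij (fun j _ => e j) ?_ ?_ ?_
      · intro j hj
        have := (mem_filter.1 hj).2
        exact mem_product.2 ⟨mem_univ _, mem_singleton.2 this⟩
      · intro j _ j' _ h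
        exact e.injective h
      · intro x hx
        refine ⟨e.symm x, ?_, by simp⟩
        have := mem_singleton.1 (mem_product.1 hx).2
        refine mem_filter.2 ⟨mem_univ _, ?_⟩
        simp only [c0, Equiv.apply_symm_apply]
        exact this
    rw [h1]
    simp
  have hcomp : ∀ (c : Fin M → T) (σ : Equiv.Perm (Fin M)) (π : T),
      (univ.filter (fun j => c (σ j) = π)).card = (univ.filter (fun j => c j = π)).card := by
    intro c σ π
    refine Finset.card_bij (fun j _ => σ j) ?_ ?_ ?_
    · intro j hj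
      simpa using hj
    · intro j _ j' _ h
      exact σ.injective h
    · intro x hx
      exact ⟨σ.symm x, by simpa using hx, by simp⟩
  have key := Finset.card_le_mul_card_image_of_maps_to
    (f := fun σ : Equiv.Perm (Fin M) => (fun j => c0 (σ j) : Fin M → T))
    (s := univ) (t := univ.filter (fun c : Fin M → T =>
      ∀ π, (univ.filter (fun j => c j = π)).card = ν))
    (fun σ _ => by
      rw [mem_filter]
      exact ⟨mem_univ _, fun π => by rw [hcomp, hc0]⟩) ((ν !) ^ (Fintype.card T)) ?_
  · rw [card_univ, Fintype.card_perm, Fintype.card_fin, mul_comm] at key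
    exact key
  · intro b _
    by_cases hne : (univ.filter (fun σ : Equiv.Perm (Fin M) => (fun j => c0 (σ j)) = b)).Nonempty
    · obtain ⟨σ0, hσ0⟩ := hne
      have hσ0' := (mem_filter.1 hσ0).2
      have h2 : (univ.filter (fun σ : Equiv.Perm (Fin M) => (fun j => c0 (σ j)) = b)).card ≤
          Fintype.card {g : Equiv.Perm (Fin M) // c0 ∘ g = c0} := by
        rw [← Fintype.card_coe]
        refine Fintype.card_le_of_injective (fun σ => ⟨σ.1 * σ0⁻¹, ?_⟩) ?_
        · have hσ := (mem_filter.1 σ.2).2
          funext x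
          have e1 : c0 (σ.1 (σ0⁻¹ x)) = b (σ0⁻¹ x) := congrFun hσ _
          have e2 : c0 (σ0 (σ0⁻¹ x)) = b (σ0⁻¹ x) := congrFun hσ0' _
          simp only [Function.comp_apply, Equiv.Perm.coe_mul]
          rw [e1, ← e2]
          simp
        · intro σ σ' h
          have := congrArg Subtype.val h
          exact Subtype.ext (mul_right_cancel this)
      refine h2.trans (le_of_eq ?_)
      rw [DomMulAct.stabilizer_card]
      have h3 : ∀ i : T, Fintype.card {a // c0 a = i} = ν := by
        intro i
        rw [Fintype.card_subtype, hc0]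
      simp only [h3, prod_const, card_univ]
    · rw [not_nonempty_iff_eq_empty] at hne
      rw [hne]
      simp

/-- Injectivity of the columns. -/
theorem col_injective {K : Type u} [Field K] {d : ℕ} [NeZero d] {ζ : K}
    (hζ : IsPrimitiveRoot ζ d) : Function.Injective
      (fun (π : Fin 2 → Equiv.Perm (ZMod d)) => col ζ π) := by
  intro π π' h
  funext ε
  ext1 a
  have h1 := congrFun h (ε, a)
  simp only [col] at h1
  have h2 := hζ.pow_inj (ZMod.val_lt _) (ZMod.val_lt _) h1
  exact ZMod.val_injective d h2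

/-- M10, from the statement of M9. -/
theorem groups_of_crit {K : Type u} [Field K] {d : ℕ} [NeZero d] {ζ : K}
    (hζ : IsPrimitiveRoot ζ d) (g : ℕ)
    (hcrit : ∃ bad : Finset ℕ, bad.card ≤ 2 * d * (d !) ^ 2 ∧ ∀ ν, ν ∉ bad → 0 < ν → ∀ M,
      M = ν * (d !) ^ 2 → ∃ b : K, ∀ c : Fin M → (Fin 2 → Equiv.Perm (ZMod d)),
        (∀ π, (univ.filter (fun j => c j = π)).card = ν) →
        (∀ q, eval (fun q : (Fin 2 × ZMod d) × Fin M => col ζ (c q.2) q.1)
          (pderiv q (rPoly (Fin 2 × ZMod d) (Fin M) K (d + 1))) = b) ∧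
        (∀ w : (Fin 2 × ZMod d) × Fin M → K,
          (∀ q, ∑ q', w q' * eval (fun q : (Fin 2 × ZMod d) × Fin M => col ζ (c q.2) q.1)
            (pderiv q' (pderiv q (rPoly (Fin 2 × ZMod d) (Fin M) K (d + 1)))) = 0) → w = 0)) :
    ∃ bad : Finset ℕ, bad.card ≤ 2 * d * (d !) ^ 2 ∧ ∀ ν, ν ∉ bad → 0 < ν →
      ∃ (b : K) (cnt : ℕ) (S : Finset (((Fin g × (Fin 2 × ZMod d)) × Fin (ν * (d !) ^ 2)) → K)),
        (ν * (d !) ^ 2)! ≤ cnt * (ν !) ^ ((d !) ^ 2) ∧ S.card = cnt ^ g ∧ ∀ p ∈ S,
          (∀ q, eval p (pderiv q (∑ s : Fin g, rk (d + 1)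
            (fun (i : Fin 2 × ZMod d) (j : Fin (ν * (d !) ^ 2)) => X (R := K) ((s, i), j)))) = b) ∧
          (Matrix.of fun q q' => eval p (pderiv q' (pderiv q (∑ s : Fin g, rk (d + 1)
            (fun (i : Fin 2 × ZMod d) (j : Fin (ν * (d !) ^ 2)) =>
              X (R := K) ((s, i), j)))))).det ≠ 0 := by
  classical
  obtain ⟨bad, hbad, hc⟩ := hcrit
  refine ⟨bad, hbad, fun ν hν hν0 => ?_⟩
  obtain ⟨b, hb⟩ := hc ν hν hν0 _ rfl
  set M := ν * (d !) ^ 2 with hM
  set Bal : Finset (Fin M → (Fin 2 → Equiv.Perm (ZMod d))) :=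
    univ.filter (fun c => ∀ π, (univ.filter (fun j => c j = π)).card = ν) with hBal
  have hcardT : Fintype.card (Fin 2 → Equiv.Perm (ZMod d)) = (d !) ^ 2 := by
    rw [Fintype.card_fun, Fintype.card_perm, ZMod.card, Fintype.card_fin]
  have hcount : M ! ≤ Bal.card * (ν !) ^ ((d !) ^ 2) := by
    have := count_balanced (T := Fin 2 → Equiv.Perm (ZMod d)) M ν (by rw [hcardT, hM])
    rwa [hcardT] at this
  let pt : (Fin g → (Fin M → (Fin 2 → Equiv.Perm (ZMod d)))) →
      (((Fin g × (Fin 2 × ZMod d)) × Fin M) → K) := fun c q => col ζ (c q.1.1 q.2) q.1.2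
  have hpt : Function.Injective pt := by
    intro c c' h
    funext s j
    apply col_injective hζ
    funext i
    exact congrFun h ((s, i), j)
  refine ⟨b, Bal.card, (Fintype.piFinset fun _ : Fin g => Bal).image pt, hcount, ?_, ?_⟩
  · rw [card_image_of_injective _ hpt, Fintype.card_piFinset_const]
  · intro p hp
    obtain ⟨c, hcB, rfl⟩ := mem_image.1 hp
    have hcB' : ∀ s, ∀ π, (univ.filter (fun j => c s j = π)).card = ν := by
      intro s
      exact (mem_filter.1 ((Fintype.mem_piFinset.1 hcB) s)).2
    -- the embedding of one group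
    let emb : Fin g → ((Fin 2 × ZMod d) × Fin M) → ((Fin g × (Fin 2 × ZMod d)) × Fin M) :=
      fun s q => ((s, q.1), q.2)
    have hemb : ∀ s, Function.Injective (emb s) := by
      intro s q q' h
      simp only [emb, Prod.mk.injEq, true_and] at h
      exact Prod.ext h.1 h.2
    have hrk : ∀ s : Fin g, rk (d + 1)
        (fun (i : Fin 2 × ZMod d) (j : Fin M) => (X ((s, i), j) :
          MvPolynomial ((Fin g × (Fin 2 × ZMod d)) × Fin M) K)) =
        rename (emb s) (rPoly (Fin 2 × ZMod d) (Fin M) K (d + 1)) := by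
      intro s
      have h1 := map_rk (rename (emb s) : MvPolynomial ((Fin 2 × ZMod d) × Fin M) K →ₐ[K]
        MvPolynomial ((Fin g × (Fin 2 × ZMod d)) × Fin M) K).toRingHom (d + 1)
        (fun (i : Fin 2 × ZMod d) (j : Fin M) => (X (i, j) :
          MvPolynomial ((Fin 2 × ZMod d) × Fin M) K))
      simp only [AlgHom.toRingHom_eq_coe, RingHom.coe_coe, rename_X] at h1
      rw [rPoly, h1]
    have hzero : ∀ (s : Fin g) (q : (Fin g × (Fin 2 × ZMod d)) × Fin M), q.1.1 ≠ s →
        ∀ P : MvPolynomial ((Fin 2 × ZMod d) × Fin M) K, pderiv q (rename (emb s) P) = 0 := by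
      intro s q hq P
      apply pderiv_eq_zero_of_notMem_vars
      intro hmem
      have := vars_rename (emb s) P hmem
      obtain ⟨x, -, hx⟩ := mem_image.1 this
      apply hq
      rw [← hx]
    have hgrad : ∀ q : (Fin g × (Fin 2 × ZMod d)) × Fin M,
        pderiv q (∑ s : Fin g, rk (d + 1)
          (fun (i : Fin 2 × ZMod d) (j : Fin M) => X (R := K) ((s, i), j))) =
        rename (emb q.1.1) (pderiv (q.1.2, q.2) (rPoly (Fin 2 × ZMod d) (Fin M) K (d + 1))) := by
      intro q
      rw [map_sum, Finset.sum_eq_single q.1.1]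
      · rw [hrk]
        exact pderiv_rename (hemb q.1.1) (q.1.2, q.2) _
      · intro s _ hs
        rw [hrk]
        exact hzero s q (Ne.symm hs) _
      · intro h; exact absurd (mem_univ _) h
    have hev : ∀ (s : Fin g) (P : MvPolynomial ((Fin 2 × ZMod d) × Fin M) K),
        eval (pt c) (rename (emb s) P) = eval (fun q : (Fin 2 × ZMod d) × Fin M =>
          col ζ (c s q.2) q.1) P := by
      intro s P
      rw [eval_rename]
      rfl
    refine ⟨fun q => ?_, ?_⟩
    · rw [hgrad, hev]
      exact (hb (c q.1.1) (hcB' q.1.1)).1 _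
    · intro hdet
      obtain ⟨w, hw0, hw⟩ := Matrix.exists_mulVec_eq_zero_iff.2 hdet
      apply hw0
      have hws : ∀ s, (fun q' : (Fin 2 × ZMod d) × Fin M => w (emb s q')) = 0 := by
        intro s
        apply (hb (c s) (hcB' s)).2
        intro q
        have h1 := congrFun hw (emb s q)
        rw [Matrix.mulVec, dotProduct] at h1
        simp only [Matrix.of_apply, Pi.zero_apply] at h1
        rw [← h1]
        have h2 : ∀ x : (Fin g × (Fin 2 × ZMod d)) × Fin M, x ∉ (univ.image (emb s)) →
            eval (pt c) (pderiv x (pderiv (emb s q) (∑ s : Fin g, rk (d + 1)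
              (fun (i : Fin 2 × ZMod d) (j : Fin M) => X (R := K) ((s, i), j))))) * w x = 0 := by
          intro x hx
          rw [hgrad, hzero, map_zero, zero_mul]
          intro h
          apply hx
          have h' : x.1.1 = s := h
          exact mem_image.2 ⟨(x.1.2, x.2), mem_univ _, Prod.ext (Prod.ext h'.symm rfl) rfl⟩
        rw [← Finset.sum_subset (subset_univ (univ.image (emb s))) (fun x _ hx => h2 x hx),
          sum_image (fun a _ b _ h => hemb s h)]
        refine sum_congr rfl fun q' _ => ?_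
        rw [hgrad]
        have h3 : (emb s q).1.1 = s := rfl
        have h4 : ((emb s q).1.2, (emb s q).2) = q := rfl
        rw [h4]
        change w (emb s q') * _ = eval (pt c) (pderiv (emb s q') (rename (emb s) _)) * w (emb s q')
        rw [pderiv_rename (hemb s), hev, mul_comm]
      funext q
      exact congrFun (hws q.1.1) (q.1.2, q.2)

end Pool.Agent.H10.PerSL
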