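import Pool.Agent.H10.PerSL.Degree
import Pool.Agent.H10.PerSL.Subst
import Pool.Agent.H10.PerSL.Gadget
import Pool.Agent.H10.PerSL.Crit
import Pool.Agent.H10.PerSL.GroupsAux

/-! Assembly: the approximative complexity of the permanent is superlinear. -/

namespace Pool.Agent.H10.PerSL

open MvPolynomial Finset
open Pool.Agent.H53.AC
open scoped Nat

universe u v w

/-- The permanent of the generic `n × n` matrix. -/
noncomputable def perPoly (n : ℕ) (k : Type u) [Field k] : MvPolynomial (Fin n × Fin n) k :=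
  Matrix.permanent (Matrix.of fun i j => X (i, j))

theorem perPoly_eval₂ {n : ℕ} {k : Type u} [Field k] {R : Type w} [CommRing R] (f : k →+* R)
    {Rw Cl : Type} [Fintype Rw] [DecidableEq Rw] [Fintype Cl] [DecidableEq Cl]
    (eR : Fin n ≃ Rw) (eC : Fin n ≃ Cl) (A : Rw → Cl → R) :
    eval₂ f (fun q : Fin n × Fin n => A (eR q.1) (eC q.2)) (perPoly n k) =
      ∑ σ : Cl ≃ Rw, ∏ c, A (σ c) c := by
  unfold perPoly Matrix.permanent
  simp only [Matrix.of_apply]
  rw [eval₂_sum]
  simp only [eval₂_prod, eval₂_X]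
  refine Fintype.sum_equiv ((Equiv.equivCongr eC eR)) _ _ ?_
  intro σ
  refine Fintype.prod_equiv eC _ _ ?_
  intro i
  simp [Equiv.equivCongr]

/-- The entries of the gadget are affine forms. -/
theorem gad_affine {K : Type u} [Field K] {L : Type u} [Field L] [Algebra (PowerSeries K) L]
    {ρ : Type v} {g a k M e : ℕ} (ζ : K)
    (r : (Fin g × ρ) ⊕ (Fin M ⊕ Fin e)) (c : (Fin g × (Fin a ⊕ Fin k)) ⊕ (Fin M ⊕ Fin e)) :
    map (algebraMap (PowerSeries K) L)
      (gad ζ (C PowerSeries.X : MvPolynomial ((Fin g × ρ) × Fin M) (PowerSeries K))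
        (fun s i j => X ((s, i), j)) r c) ∈ affine L ((Fin g × ρ) × Fin M) := by
  rcases r with ⟨s, i⟩ | r <;> rcases c with ⟨s', c | c⟩ | c | c
  · simp only [gad]
    split_ifs
    · simpa using one_mem_affine
    · simp
  · simp only [gad]
    split_ifs
    · rw [map_neg]
      refine Submodule.neg_mem _ ?_
      rw [MvPolynomial.algebraMap_apply, map_C]
      exact C_mem_affine _
    · simp
  · simp only [gad, map_mul, map_C, map_X]
    rw [← MvPolynomial.smul_eq_C_mul]
    exact Submodule.smul_mem _ _ (X_mem_affine _)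
  · simp [gad]
  · simp [gad]
  · simpa [gad] using one_mem_affine
  · simpa [gad] using one_mem_affine
  · simpa [gad] using one_mem_affine

theorem groups {K : Type u} [Field K] [CharZero K] {d : ℕ} [NeZero d] {ζ : K}
    (hζ : IsPrimitiveRoot ζ d) (g : ℕ) :
    ∃ bad : Finset ℕ, bad.card ≤ 2 * d * (d !) ^ 2 ∧ ∀ ν, ν ∉ bad → 0 < ν →
      ∃ (b : K) (cnt : ℕ) (S : Finset (((Fin g × (Fin 2 × ZMod d)) × Fin (ν * (d !) ^ 2)) → K)),
        (ν * (d !) ^ 2)! ≤ cnt * (ν !) ^ ((d !) ^ 2) ∧ S.card = cnt ^ g ∧ ∀ p ∈ S,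
          (∀ q, eval p (pderiv q (∑ s : Fin g, rk (d + 1)
            (fun (i : Fin 2 × ZMod d) (j : Fin (ν * (d !) ^ 2)) => X (R := K) ((s, i), j)))) = b) ∧
          (Matrix.of fun q q' => eval p (pderiv q' (pderiv q (∑ s : Fin g, rk (d + 1)
            (fun (i : Fin 2 × ZMod d) (j : Fin (ν * (d !) ^ 2)) =>
              X (R := K) ((s, i), j)))))).det ≠ 0 :=
  groups_of_crit hζ g (crit hζ)

/-- The degree bound applied to the permanent: if `n ≥ g * 2d + ν (d!)^2` and `ν` is not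
exceptional, the permanent of size `n` has approximative complexity `r` with `cnt ^ g ≤ 2 ^ (3r)`,
where `cnt` is the number of balanced arrangements of the `(d!)^2` column types. -/
theorem core {n d : ℕ} (g : ℕ) (hd : 0 < d) (k : Type u) [Field k] [CharZero k] :
    ∃ bad : Finset ℕ, bad.card ≤ 2 * d * (d !) ^ 2 ∧ ∀ ν, ν ∉ bad → 0 < ν →
      g * (2 * d) + ν * (d !) ^ 2 ≤ n → ∀ r, BorderComplexityLE (perPoly n k) r →
        ∃ cnt : ℕ, (ν * (d !) ^ 2)! ≤ cnt * (ν !) ^ ((d !) ^ 2) ∧ cnt ^ g ≤ 2 ^ (3 * r) := by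
  have : NeZero d := ⟨hd.ne'⟩
  have : CharZero (AlgebraicClosure k) := charZero_of_injective_algebraMap
    (algebraMap k (AlgebraicClosure k)).injective
  obtain ⟨ζ, hζ⟩ : ∃ ζ : AlgebraicClosure k, IsPrimitiveRoot ζ d :=
    HasEnoughRootsOfUnity.exists_primitiveRoot _ _
  obtain ⟨ζ', hζ'⟩ : ∃ ζ : AlgebraicClosure k, IsPrimitiveRoot ζ (d + 1) :=
    HasEnoughRootsOfUnity.exists_primitiveRoot _ _
  obtain ⟨bad, hbad, hgr⟩ := groups hζ g
  refine ⟨bad, hbad, fun ν hν hν0 hle r hr => ?_⟩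
  obtain ⟨b, cnt, S, hcnt, hS, hcrit⟩ := hgr ν hν hν0
  refine ⟨cnt, hcnt, ?_⟩
  rw [← hS]
  clear hcnt hgr hS
  generalize ν * (d !) ^ 2 = M at *
  obtain ⟨e, he⟩ := Nat.exists_eq_add_of_le hle
  have hcR : Fintype.card ((Fin g × (Fin 2 × ZMod d)) ⊕ (Fin M ⊕ Fin e)) = n := by
    simp [ZMod.card, he]; ring
  have hcC : Fintype.card ((Fin g × (Fin (d - 1) ⊕ Fin (d + 1))) ⊕ (Fin M ⊕ Fin e)) = n := by
    simp [he]
    have : d - 1 + (d + 1) = 2 * d := by omega
    rw [this]; ring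
  let eR : Fin n ≃ (Fin g × (Fin 2 × ZMod d)) ⊕ (Fin M ⊕ Fin e) :=
    (Fintype.equivFinOfCardEq hcR).symm
  let eC : Fin n ≃ (Fin g × (Fin (d - 1) ⊕ Fin (d + 1))) ⊕ (Fin M ⊕ Fin e) :=
    (Fintype.equivFinOfCardEq hcC).symm
  let x : Fin g → (Fin 2 × ZMod d) → Fin M →
      MvPolynomial ((Fin g × (Fin 2 × ZMod d)) × Fin M) (PowerSeries (AlgebraicClosure k)) :=
    fun s i j => X ((s, i), j)
  let E : Fin n × Fin n → MvPolynomial ((Fin g × (Fin 2 × ZMod d)) × Fin M)
      (PowerSeries (AlgebraicClosure k)) :=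
    fun q => gad ζ' (C PowerSeries.X) x (eR q.1) (eC q.2)
  let ι := algebraMap (PowerSeries (AlgebraicClosure k))
    (FractionRing (PowerSeries (AlgebraicClosure k)))
  have hinj : Function.Injective ι := IsFractionRing.injective _ _
  have hE : ∀ q, map ι (E q) ∈ affine (FractionRing (PowerSeries (AlgebraicClosure k)))
        ((Fin g × (Fin 2 × ZMod d)) × Fin M) := fun q => gad_affine ζ' _ _
  obtain ⟨r', V, G, hr', hV, hmem⟩ := border_subst hinj hr (e := d + 2) (by omega) E hE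
  rw [perPoly_eval₂] at hmem
  have hρ : Fintype.card (Fin 2 × ZMod d) = (d - 1) + (d + 1) := by
    simp [ZMod.card]; omega
  obtain ⟨Q, hQ⟩ := gadget (K := AlgebraicClosure k) (e := e) hρ (by omega : 0 < d + 1) hζ'
    (C PowerSeries.X : MvPolynomial ((Fin g × (Fin 2 × ZMod d)) × Fin M)
      (PowerSeries (AlgebraicClosure k))) x
  rw [hQ] at hmem
  clear hQ
  generalize ((M + e)! * (-1) ^ g * ((d - 1 + (d + 1))! : AlgebraicClosure k) ^ g) = c0 at hmem
  have hc1 : ((M + e)! * (-1) ^ (g - 1) * ((d - 1 + (d + 1))! : AlgebraicClosure k) ^ (g - 1) *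
      (d - 1)! : AlgebraicClosure k) ≠ 0 := by
    have h1 : ∀ m : ℕ, ((m ! : ℕ) : AlgebraicClosure k) ≠ 0 := fun m =>
      Nat.cast_ne_zero.2 (Nat.factorial_ne_zero m)
    refine mul_ne_zero (mul_ne_zero (mul_ne_zero (h1 _) ?_) (pow_ne_zero _ (h1 _))) (h1 _)
    exact pow_ne_zero _ (neg_ne_zero.2 one_ne_zero)
  generalize ((M + e)! * (-1) ^ (g - 1) * ((d - 1 + (d + 1))! : AlgebraicClosure k) ^ (g - 1) *
      (d - 1)! : AlgebraicClosure k) = c1 at hmem hc1
  -- the polynomial `Φ`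
  let Φ : MvPolynomial ((Fin g × (Fin 2 × ZMod d)) × Fin M) (PowerSeries (AlgebraicClosure k)) :=
    C (PowerSeries.C c1) * ∑ s, rk (d + 1) (x s) + C PowerSeries.X * (Q + G)
  have hΦ : map ι Φ ∈ V := by
    have h1 : (algebraMap (AlgebraicClosure k) (MvPolynomial ((Fin g × (Fin 2 × ZMod d)) × Fin M)
        (PowerSeries (AlgebraicClosure k))) c0 + (C PowerSeries.X) ^ (d + 1) *
          (algebraMap (AlgebraicClosure k) (MvPolynomial ((Fin g × (Fin 2 × ZMod d)) × Fin M)
            (PowerSeries (AlgebraicClosure k))) c1 * ∑ s, rk (d + 1) (x s)) +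
          (C PowerSeries.X) ^ (d + 1 + 1) * Q + C (PowerSeries.X ^ (d + 2)) * G) =
        C (PowerSeries.C c0) + C (PowerSeries.X ^ (d + 1)) * Φ := by
      rw [MvPolynomial.algebraMap_apply, MvPolynomial.algebraMap_apply]
      simp only [Φ, map_pow]
      change C (PowerSeries.C c0) + C PowerSeries.X ^ (d + 1) * (C (PowerSeries.C c1) * _) +
        _ + _ = _
      ring
    rw [h1, map_add, map_mul, map_C, map_C] at hmem
    have h2 : C (ι (PowerSeries.X ^ (d + 1))) * map ι Φ ∈ V := by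
      have := Submodule.sub_mem _ hmem (hV.C_mem (ι (PowerSeries.C c0)))
      rwa [add_sub_cancel_left] at this
    rw [← MvPolynomial.smul_eq_C_mul] at h2
    have h3 : ι (PowerSeries.X ^ (d + 1)) ≠ 0 := by
      rw [Ne, map_eq_zero_iff ι hinj]
      exact pow_ne_zero _ PowerSeries.X_ne_zero
    have := Submodule.smul_mem V (ι (PowerSeries.X ^ (d + 1)))⁻¹ h2
    rwa [smul_smul, inv_mul_cancel₀ h3, one_smul] at this
  have hred : map (PowerSeries.constantCoeff (R := AlgebraicClosure k)) Φ =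
      C c1 * ∑ s : Fin g, rk (d + 1) (fun (i : Fin 2 × ZMod d) (j : Fin M) =>
        X (R := AlgebraicClosure k) ((s, i), j)) := by
    simp only [Φ, x, map_add, map_mul, map_sum, map_rk, map_C, map_X,
      PowerSeries.constantCoeff_C, PowerSeries.constantCoeff_X, C_0, zero_mul, add_zero]
  have hb := degree_bound hinj hV Φ hΦ (fun _ => c1 * b) S (by
    intro p hp
    obtain ⟨hp1, hp2⟩ := hcrit p hp
    rw [hred]
    constructor
    · intro i
      rw [← MvPolynomial.smul_eq_C_mul, Derivation.map_smul, smul_eval, hp1 i]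
    · have : (Matrix.of fun i j => eval p (pderiv j (pderiv i (C c1 *
          ∑ s : Fin g, rk (d + 1) (fun (i : Fin 2 × ZMod d) (j : Fin M) =>
            X (R := AlgebraicClosure k) ((s, i), j)))))) = c1 • (Matrix.of fun q q' =>
          eval p (pderiv q' (pderiv q (∑ s : Fin g, rk (d + 1)
            (fun (i : Fin 2 × ZMod d) (j : Fin M) =>
              X (R := AlgebraicClosure k) ((s, i), j)))))) := by
        ext i j
        simp only [Matrix.of_apply, Matrix.smul_apply]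
        rw [← MvPolynomial.smul_eq_C_mul, Derivation.map_smul, Derivation.map_smul, smul_eval,
          smul_eq_mul]
      rw [this, Matrix.det_smul]
      exact mul_ne_zero (pow_ne_zero _ hc1) hp2)
  exact hb.trans (Nat.pow_le_pow_right (by norm_num) (by omega))

end Pool.Agent.H10.PerSL
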